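import Pool.Agent.Lib.RibS.Defs

/-!
# Random ribbon disc groups, second version : module Cnt

(problem MP_cf50d6_gt; paper MP_cf50d6_gt_rib50b.md)
Basic facts on `cnt`. Only `Finset` manipulations.
-/

set_option autoImplicit false

open scoped Classical

namespace Pool.Agent.RibS

open Pool.Agent.LIA Pool.Agent.RibLI

variable {E : Type*} [Fintype E]

theorem cnt_mono {N N' : ℕ} {P Q : E → ℕ → Prop} (hN : N ≤ N') (h : ∀ e, ∀ r < N, P e r → Q e r) :
    cnt N P ≤ cnt N' Q := by
  unfold cnt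
  refine Finset.card_le_card fun p hp => ?_
  simp only [Finset.mem_filter, Finset.mem_product, Finset.mem_univ, true_and,
    Finset.mem_range] at hp ⊢
  exact ⟨lt_of_lt_of_le hp.1 hN, h _ _ hp.1 hp.2⟩

theorem cnt_congr {N : ℕ} {P Q : E → ℕ → Prop} (h : ∀ e, ∀ r < N, P e r ↔ Q e r) :
    cnt N P = cnt N Q :=
  le_antisymm (cnt_mono le_rfl fun e r hr => (h e r hr).1)
    (cnt_mono le_rfl fun e r hr => (h e r hr).2)

theorem cnt_eq_sum (N : ℕ) (P : E → ℕ → Prop) :
    cnt N P = ∑ e, ∑ r ∈ Finset.range N, if P e r then 1 else 0 := by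
  unfold cnt
  rw [Finset.card_filter, Finset.sum_product]

/-- inclusion-exclusion -/
theorem cnt_or_add_and (N : ℕ) (P Q : E → ℕ → Prop) :
    cnt N (fun e r => P e r ∨ Q e r) + cnt N (fun e r => P e r ∧ Q e r) = cnt N P + cnt N Q := by
  rw [cnt_eq_sum, cnt_eq_sum, cnt_eq_sum, cnt_eq_sum, ← Finset.sum_add_distrib,
    ← Finset.sum_add_distrib]
  refine Finset.sum_congr rfl fun e _ => ?_
  rw [← Finset.sum_add_distrib, ← Finset.sum_add_distrib]
  refine Finset.sum_congr rfl fun r _ => ?_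
  by_cases h1 : P e r <;> by_cases h2 : Q e r <;> simp [h1, h2]

theorem cnt_le_add {N : ℕ} {P Q R : E → ℕ → Prop} (h : ∀ e, ∀ r < N, P e r → Q e r ∨ R e r) :
    cnt N P ≤ cnt N Q + cnt N R := by
  rw [← cnt_or_add_and]
  exact (cnt_mono le_rfl h).trans (Nat.le_add_right _ _)

theorem cnt_add_not (N : ℕ) (P : E → ℕ → Prop) :
    cnt N P + cnt N (fun e r => ¬ P e r) = Fintype.card E * N := by
  unfold cnt
  rw [Finset.card_filter_add_card_filter_not, Finset.card_product, Finset.card_univ,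
    Finset.card_range]

/-- the two parities -/
theorem cnt_two_mul (B : ℕ) (P : E → ℕ → Prop) :
    cnt (2 * B) P = cnt B (fun e i => P e (2 * i)) + cnt B (fun e i => P e (2 * i + 1)) := by
  rw [cnt_eq_sum, cnt_eq_sum, cnt_eq_sum, ← Finset.sum_add_distrib]
  refine Finset.sum_congr rfl fun e _ => ?_
  induction B with
  | zero => simp
  | succ B ih =>
    rw [show 2 * (B + 1) = 2 * B + 1 + 1 by ring, Finset.sum_range_succ, Finset.sum_range_succ,
      Finset.sum_range_succ, Finset.sum_range_succ, ih]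
    ring

/-- sum over the values -/
theorem cnt_mem {α : Type*} (N : ℕ) (f : E → ℕ → α) (M : Finset α) :
    cnt N (fun e r => f e r ∈ M) = ∑ x ∈ M, cnt N (fun e r => f e r = x) := by
  unfold cnt
  rw [Finset.card_eq_sum_card_fiberwise (f := fun p : E × ℕ => f p.1 p.2) (t := M)]
  · refine Finset.sum_congr rfl fun x hx => ?_
    congr 1
    ext p
    simp only [Finset.mem_filter, Finset.mem_product, Finset.mem_univ, true_and]
    constructor
    · rintro ⟨⟨h1, -⟩, h2⟩
      exact ⟨h1, h2⟩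
    · rintro ⟨h1, h2⟩
      exact ⟨⟨h1, h2 ▸ hx⟩, h2⟩
  · intro p hp
    exact ((@Finset.mem_filter _ _ (_) _ _).1 (Finset.mem_coe.1 hp)).2

/-- the values of the shifted function -/
theorem cnt_shift {N N' a : ℕ} {P Q : E → ℕ → Prop} (hN : a + N ≤ N')
    (h : ∀ e, ∀ r < N, P e r → Q e (a + r)) : cnt N P ≤ cnt N' Q := by
  unfold cnt
  refine Finset.card_le_card_of_injOn (fun p => (p.1, a + p.2)) ?_ ?_
  · intro p hp
    have hp' := Finset.mem_filter.1 (Finset.mem_coe.1 hp)
    simp only [Finset.mem_product, Finset.mem_univ, true_and, Finset.mem_range] at hp'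
    refine Finset.mem_coe.2 (Finset.mem_filter.2 ⟨?_, h _ _ hp'.1 hp'.2⟩)
    simp only [Finset.mem_product, Finset.mem_univ, true_and, Finset.mem_range]
    omega
  · rintro ⟨e, r⟩ _ ⟨e', r'⟩ _ h1
    simp only [Prod.mk.injEq] at h1
    ext
    · exact h1.1
    · show r = r'
      omega

end Pool.Agent.RibS
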