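import Pool.Agent.Lib.RibS.Defs
import Pool.Agent.Lib.RibLI.B3
import Pool.Agent.Lib.RibLI.C0

/-!
# Random ribbon disc groups, second version : module Far

(helper50, after helper90's RibLI/C4; problem MP_cf50d6_gt; paper MP_cf50d6_gt_rib50b.md)
-/

set_option autoImplicit false

open scoped Classical

namespace Pool.Agent.RibS

open Pool.Agent.LIA Pool.Agent.RibLI

variable {V X E : Type*} [Fintype V] [Fintype X] [Fintype E] {Γ : XG V X} {w : E → ℕ → X × Bool}
  {N o : E → ℕ} {A : E → Finset V} {T S ν : ℕ}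

private theorem far_run_back {V X : Type*} (Γ : XG V X) (w : ℕ → X × Bool) (v v' : V) (r : ℕ)
    (h1 : ∀ s < r, Γ.av (Γ.run w v s) (w s)) (h2 : ∀ s < r, Γ.av (Γ.run w v' s) (w s))
    (h : Γ.run w v r = Γ.run w v' r) : v = v' := by
  induction r with
  | zero => exact h
  | succ r ih =>
    refine ih (fun s hs => h1 s (Nat.lt_succ_of_lt hs)) (fun s hs => h2 s (Nat.lt_succ_of_lt hs)) ?_
    have e1 := (Γ.back _ _ (h1 r (Nat.lt_succ_self r))).2
    have e2 := (Γ.back _ _ (h2 r (Nat.lt_succ_self r))).2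
    have e3 : Γ.nx (Γ.run w v r) (w r) = Γ.nx (Γ.run w v' r) (w r) := h
    rw [← e1, ← e2, e3]

private theorem far_linv_inj {X : Type*} {a b : X × Bool} (h : linv a = linv b) : a = b := by
  rw [← linv_linv a, h, linv_linv]

private theorem far_mem {x : E × V × ℕ} : x ∈ farI Γ w o A T S ↔
    (x.2.1 ∈ A x.1 ∧ x.2.2 < T) ∧ ∀ s', 1 ≤ s' → s' ≤ S →
      Γ.deg (Γ.run (w x.1) x.2.1 (o x.1 + x.2.2 + s')) = 2 := by
  have h0 : x ∈ farI Γ w o A T S ↔ x ∈ its A T ∧ ∀ s', 1 ≤ s' → s' ≤ S →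
      Γ.deg (Γ.run (w x.1) x.2.1 (o x.1 + x.2.2 + s')) = 2 := by
    unfold farI
    exact @Finset.mem_filter _ _ (fun _ => Classical.propDecidable _) _ _
  have h1 : x ∈ its A T ↔ x.2.1 ∈ A x.1 ∧ x.2.2 < T := by
    unfold its
    rw [Finset.mem_filter, Finset.mem_product, Finset.mem_product, Finset.mem_range]
    constructor
    · rintro ⟨⟨-, -, h⟩, h'⟩
      exact ⟨h', h⟩
    · rintro ⟨h, h'⟩
      exact ⟨⟨Finset.mem_univ _, Finset.mem_univ _, h'⟩, h⟩
  rw [h0, h1]

theorem far_card (h : Cx Γ w N o A T S ν) {M : Type*} [Fintype M] (mk : M → V)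
    (hdeep : ∀ e, ∀ v ∈ A e, ∀ t, t + S + 1 ≤ N e →
      (∀ s, 1 ≤ s → s ≤ S → Γ.deg (Γ.run (w e) v (t + s)) = 2) →
      ∃ s μ, 1 ≤ s ∧ s ≤ S ∧ mk μ = Γ.run (w e) v (t + s)) :
    (farI Γ w o A T S).card ≤ Fintype.card M * (2 * S) := by
  set Q : M → Finset (X × Bool) := fun μ =>
    if Γ.deg (mk μ) = 2 then Finset.univ.filter (fun l => Γ.av (mk μ) l) else ∅ with hQ
  have hQcard : ∀ μ, (Q μ).card ≤ 2 := by
    intro μ
    simp only [hQ]
    split_ifs with hd
    · exact le_of_eq hd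
    · simp
  set R : Finset (Σ _ : M, ℕ × (X × Bool)) :=
    Finset.univ.sigma fun μ => Finset.range S ×ˢ Q μ with hR
  have hRcard : R.card ≤ Fintype.card M * (2 * S) := by
    rw [hR, Finset.card_sigma]
    calc ∑ μ : M, (Finset.range S ×ˢ Q μ).card
        ≤ ∑ _μ : M, 2 * S := by
          refine Finset.sum_le_sum fun μ _ => ?_
          rw [Finset.card_product, Finset.card_range, mul_comm]
          exact Nat.mul_le_mul_right _ (hQcard μ)
      _ = Fintype.card M * (2 * S) := by simp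
  refine le_trans ?_ hRcard
  refine Finset.card_le_card_of_forall_subsingleton
    (fun i b => mk b.1 = Γ.run (w i.1) i.2.1 (o i.1 + i.2.2 + (b.2.1 + 1)) ∧
      b.2.2 = linv (w i.1 (o i.1 + i.2.2 + b.2.1))) ?_ ?_
  · intro i hi
    rw [far_mem] at hi
    obtain ⟨⟨hA, hT⟩, hi2⟩ := hi
    have hroom := h.room i.1
    obtain ⟨s, μ, hs1, hs2, hμ⟩ := hdeep i.1 i.2.1 hA (o i.1 + i.2.2) (by omega)
      (fun s h1 h2 => hi2 s h1 h2)
    obtain ⟨s, rfl⟩ : ∃ s', s = s' + 1 := ⟨s - 1, by omega⟩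
    refine ⟨⟨μ, (s, linv (w i.1 (o i.1 + i.2.2 + s)))⟩, ?_, hμ, rfl⟩
    have hdeg : Γ.deg (mk μ) = 2 := by
      rw [hμ]
      exact hi2 (s + 1) (by omega) (by omega)
    have hav : Γ.av (Γ.run (w i.1) i.2.1 (o i.1 + i.2.2 + s)) (w i.1 (o i.1 + i.2.2 + s)) :=
      h.rd i.1 i.2.1 hA _ (by omega)
    have hb := (Γ.back _ _ hav).1
    have hav' : Γ.av (mk μ) (linv (w i.1 (o i.1 + i.2.2 + s))) := by
      rw [hμ]
      exact hb
    simp only [hR, Finset.mem_sigma, Finset.mem_univ, true_and, Finset.mem_product,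
      Finset.mem_range]
    refine ⟨by omega, ?_⟩
    simp only [hQ, if_pos hdeg, Finset.mem_filter, Finset.mem_univ, true_and]
    exact hav'
  · rintro ⟨μ, s, a⟩ hb i hi i' hi'
    simp only [hR, Finset.mem_sigma, Finset.mem_univ, true_and, Finset.mem_product,
      Finset.mem_range] at hb
    obtain ⟨hs, _⟩ := hb
    obtain ⟨hiF, hi3, hi4⟩ := hi
    obtain ⟨hiF', hi3', hi4'⟩ := hi'
    rw [far_mem] at hiF hiF'
    obtain ⟨⟨hA, hT⟩, hi2⟩ := hiF
    obtain ⟨⟨hA', hT'⟩, hi2'⟩ := hiF'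
    obtain ⟨e, v, r⟩ := i
    obtain ⟨e', v', r'⟩ := i'
    simp only at hi3 hi4 hi3' hi4' hA hT hi2 hA' hT' hi2'
    have hroom := h.room e
    have hroom' := h.room e'
    have hw : w e (o e + r + s) = w e' (o e' + r' + s) := far_linv_inj (hi4.symm.trans hi4')
    have hback := back_det Γ (w e) (w e') v v' (o e + r) (o e' + r') (s + 1) (by omega)
      (hi3.symm.trans hi3') (by simpa using hw)
      (fun k hk => h.rd e v hA _ (by omega)) (fun k hk => h.rd e' v' hA' _ (by omega))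
      (fun k hk1 hk2 => by
        have := h.red e (o e + r + k - 1) (by omega)
        rwa [show o e + r + k - 1 + 1 = o e + r + k by omega] at this)
      (fun k hk1 hk2 => by
        have := h.red e' (o e' + r' + k - 1) (by omega)
        rwa [show o e' + r' + k - 1 + 1 = o e' + r' + k by omega] at this)
      (fun k hk1 hk2 => hi2 k hk1 (by omega))
    obtain ⟨hp, hlet⟩ := hback
    have hfwd := fwd_det Γ (w e) (w e') v v' (o e + r) (o e' + r') (S - 1) hp
      (by simpa using hlet 0 (by omega))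
      (fun k hk => h.rd e v hA _ (by omega)) (fun k hk => h.rd e' v' hA' _ (by omega))
      (fun k hk => h.red e _ (by omega)) (fun k hk => h.red e' _ (by omega))
      (fun k hk1 hk2 => hi2 k hk1 (by omega))
    obtain ⟨he, ht⟩ := h.uniq e e' (o e + r) (o e' + r') (by omega) (by omega)
      (fun k hk => hfwd.1 k (by omega))
    subst he
    have hr : r = r' := by omega
    subst hr
    have hv : v = v' := far_run_back Γ (w e) v v' (o e + r)
      (fun k hk => h.rd e v hA _ (by omega)) (fun k hk => h.rd e v' hA' _ (by omega)) hp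
    rw [hv]

end Pool.Agent.RibS
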