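import Pool.Agent.Lib.RibS.Defs
import Pool.Agent.Lib.RibLI.C0

/-!
# Random ribbon disc groups, second version : module NearMore

(problem MP_cf50d6_gt; paper MP_cf50d6_gt_rib50b.md)
As in NearOne, but `2 ≤ s`: the letter `a = linv (w e (o e + r + s - 1))` is in `lgs x` (the vertex before `x` has degree 2)
and `w e (o e + r + s - 2)` is determined by `a` (the letters at `nx x a` are `linv a` and one more, `c`; the word is reduced
and the letter read into `nx x a` is `linv c`). For every `a` at most `ν` pairs `(e, r)`: `Stat.pair` with `r' = r + s - 2`.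
`v` is determined by `(e, r)` and `x`.
-/

set_option autoImplicit false

open scoped Classical

namespace Pool.Agent.RibS

open Pool.Agent.LIA Pool.Agent.RibLI

variable {V X E : Type*} [Fintype V] [Fintype X] [Fintype E] {Γ : XG V X} {w : E → ℕ → X × Bool}
  {N o : E → ℕ} {A : E → Finset V} {T S ν : ℕ}

/-- walks reading the same letters with the same vertex at `r` start at the same vertex -/
private theorem nearMore_run_back {V X : Type*} (Γ : XG V X) (w : ℕ → X × Bool) (v v' : V) (r : ℕ)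
    (h1 : ∀ s < r, Γ.av (Γ.run w v s) (w s)) (h2 : ∀ s < r, Γ.av (Γ.run w v' s) (w s))
    (h : Γ.run w v r = Γ.run w v' r) : v = v' := by
  induction r with
  | zero => exact h
  | succ r ih =>
    refine ih (fun s hs => h1 s (Nat.lt_succ_of_lt hs)) (fun s hs => h2 s (Nat.lt_succ_of_lt hs)) ?_
    have e1 := (Γ.back _ _ (h1 r (Nat.lt_succ_self r))).2
    have e2 := (Γ.back _ _ (h2 r (Nat.lt_succ_self r))).2
    have e3 : Γ.nx (Γ.run w v r) (w r) = Γ.nx (Γ.run w v' r) (w r) := h
    rw [← e1, ← e2, e3]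

private theorem nearMore_linv_inj {X : Type*} {a b : X × Bool} (h : linv a = linv b) : a = b := by
  rw [← linv_linv a, h, linv_linv]

private theorem nearMore_mem {α : Type*} (p : α → Prop) (inst : DecidablePred p) (s : Finset α)
    (a : α) : a ∈ @Finset.filter α p inst s ↔ a ∈ s ∧ p a :=
  @Finset.mem_filter _ p inst s a

/-- three letters at a vertex of degree 2 -/
private theorem nearMore_two {V X : Type*} [Fintype X] (Γ : XG V X) (y : V) (hd : Γ.deg y = 2)
    (a b c : X × Bool) (ha : Γ.av y a) (hb : Γ.av y b) (hc : Γ.av y c) (hab : b ≠ a) (hac : c ≠ a) :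
    b = c := by
  by_contra hbc
  have h3 : ({a, b, c} : Finset (X × Bool)).card = 3 := by
    rw [Finset.card_eq_three]
    exact ⟨a, b, c, hab.symm, hac.symm, hbc, rfl⟩
  have h4 : ({a, b, c} : Finset (X × Bool)) ⊆ Finset.univ.filter fun l => Γ.av y l := by
    intro l hl
    rw [Finset.mem_filter]
    refine ⟨Finset.mem_univ _, ?_⟩
    rw [Finset.mem_insert, Finset.mem_insert, Finset.mem_singleton] at hl
    rcases hl with rfl | rfl | rfl
    · exact ha
    · exact hb
    · exact hc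
  have h5 := Finset.card_le_card h4
  unfold XG.deg at hd
  omega

/-- what an item tells -/
private theorem nearMore_key (h : Cx Γ w N o A T S ν) (x : V) {s : ℕ} (hs : 2 ≤ s) (hs' : s ≤ S)
    (i : E × V × ℕ) (hi : i ∈ nearAt Γ w o A T s x) :
    i.2.1 ∈ A i.1 ∧ i.2.2 < T ∧ Γ.run (w i.1) i.2.1 (o i.1 + i.2.2 + s) = x ∧
    Γ.av x (linv (w i.1 (o i.1 + (i.2.2 + (s - 2)) + 1))) ∧
    Γ.deg (Γ.nx x (linv (w i.1 (o i.1 + (i.2.2 + (s - 2)) + 1)))) = 2 ∧
    Γ.av (Γ.nx x (linv (w i.1 (o i.1 + (i.2.2 + (s - 2)) + 1))))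
      (w i.1 (o i.1 + (i.2.2 + (s - 2)) + 1)) ∧
    Γ.av (Γ.nx x (linv (w i.1 (o i.1 + (i.2.2 + (s - 2)) + 1))))
      (linv (w i.1 (o i.1 + (i.2.2 + (s - 2))))) ∧
    linv (w i.1 (o i.1 + (i.2.2 + (s - 2)))) ≠ w i.1 (o i.1 + (i.2.2 + (s - 2)) + 1) := by
  obtain ⟨e, v, r⟩ := i
  unfold nearAt its at hi
  obtain ⟨hi1, hx, hd⟩ := (nearMore_mem _ _ _ _).1 hi
  obtain ⟨hi2, hv⟩ := (nearMore_mem _ _ _ _).1 hi1
  have hr := (Finset.mem_product.1 (Finset.mem_product.1 hi2).2).2
  have hr : r < T := Finset.mem_range.1 hr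
  change v ∈ A e at hv
  change Γ.run (w e) v (o e + r + s) = x at hx
  change ∀ s', 1 ≤ s' → s' < s → Γ.deg (Γ.run (w e) v (o e + r + s')) = 2 at hd
  change v ∈ A e ∧ r < T ∧ Γ.run (w e) v (o e + r + s) = x ∧
    Γ.av x (linv (w e (o e + (r + (s - 2)) + 1))) ∧
    Γ.deg (Γ.nx x (linv (w e (o e + (r + (s - 2)) + 1)))) = 2 ∧
    Γ.av (Γ.nx x (linv (w e (o e + (r + (s - 2)) + 1)))) (w e (o e + (r + (s - 2)) + 1)) ∧
    Γ.av (Γ.nx x (linv (w e (o e + (r + (s - 2)) + 1)))) (linv (w e (o e + (r + (s - 2))))) ∧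
    linv (w e (o e + (r + (s - 2)))) ≠ w e (o e + (r + (s - 2)) + 1)
  have hroom := h.room e
  obtain ⟨t, ht⟩ : ∃ t, t = o e + (r + (s - 2)) := ⟨_, rfl⟩
  have ht2 : o e + r + s = t + 1 + 1 := by omega
  rw [← ht]
  rw [ht2] at hx
  have hdt : Γ.deg (Γ.run (w e) v (t + 1)) = 2 := by
    have := hd (s - 1) (by omega) (by omega)
    rwa [show o e + r + (s - 1) = t + 1 by omega] at this
  have hav0 : Γ.av (Γ.run (w e) v t) (w e t) := h.rd e v hv t (by omega)
  have hav1 : Γ.av (Γ.run (w e) v (t + 1)) (w e (t + 1)) := h.rd e v hv (t + 1) (by omega)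
  have hb0 := Γ.back _ _ hav0
  have hb1 := Γ.back _ _ hav1
  have hb0' : Γ.av (Γ.run (w e) v (t + 1)) (linv (w e t)) := hb0.1
  have hx' : Γ.nx (Γ.run (w e) v (t + 1)) (w e (t + 1)) = x := hx
  rw [hx'] at hb1
  refine ⟨hv, hr, by rw [ht2]; exact hx, hb1.1, ?_, ?_, ?_, ?_⟩
  · rw [hb1.2]
    exact hdt
  · rw [hb1.2]
    exact hav1
  · rw [hb1.2]
    exact hb0'
  · intro hh
    exact h.red e t (by omega) hh.symm

theorem near_more (h : Cx Γ w N o A T S ν) (x : V) {s : ℕ} (hs : 2 ≤ s) (hs' : s ≤ S) :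
    (nearAt Γ w o A T s x).card ≤ ν * (lgs Γ x).card := by
  rw [Finset.card_eq_sum_card_fiberwise
    (f := fun i : E × V × ℕ => linv (w i.1 (o i.1 + (i.2.2 + (s - 2)) + 1))) (t := lgs Γ x)]
  · rw [mul_comm, ← smul_eq_mul]
    refine Finset.sum_le_card_nsmul _ _ _ fun a _ => ?_
    rcases Finset.eq_empty_or_nonempty ((nearAt Γ w o A T s x).filter fun i : E × V × ℕ =>
      linv (w i.1 (o i.1 + (i.2.2 + (s - 2)) + 1)) = a) with h0 | ⟨i0, hi0⟩
    · rw [h0, Finset.card_empty]
      exact Nat.zero_le _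
    · rw [Finset.mem_filter] at hi0
      obtain ⟨hi0, ha0⟩ := hi0
      obtain ⟨-, -, -, -, hd0, hav0, hav0', hne0⟩ := nearMore_key h x hs hs' i0 hi0
      rw [ha0] at hd0 hav0 hav0'
      refine le_trans ?_ (h.st.pair (w i0.1 (o i0.1 + (i0.2.2 + (s - 2))))
        (w i0.1 (o i0.1 + (i0.2.2 + (s - 2)) + 1)))
      unfold cnt
      refine Finset.card_le_card_of_injOn (fun i => (i.1, i.2.2 + (s - 2))) ?_ ?_
      · intro i hi
        rw [Finset.mem_coe, Finset.mem_filter] at hi
        obtain ⟨hi, ha⟩ := hi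
        obtain ⟨-, hr, -, -, hd1, hav1, hav1', hne1⟩ := nearMore_key h x hs hs' i hi
        rw [ha] at hd1 hav1 hav1'
        have e1 : w i.1 (o i.1 + (i.2.2 + (s - 2)) + 1) =
            w i0.1 (o i0.1 + (i0.2.2 + (s - 2)) + 1) := nearMore_linv_inj (ha.trans ha0.symm)
        rw [e1] at hne1
        have e2 := nearMore_two Γ _ hd0 _ _ _ hav0 hav1' hav0' hne1 hne0
        refine Finset.mem_coe.2 ((nearMore_mem _ _ _ _).2 ?_)
        rw [Finset.mem_product]
        refine ⟨⟨Finset.mem_univ _, Finset.mem_range.2 ?_⟩, nearMore_linv_inj e2, e1⟩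
        change i.2.2 + (s - 2) < T + S
        omega
      · intro i hi i' hi' hf
        rw [Finset.mem_coe, Finset.mem_filter] at hi hi'
        obtain ⟨hv, hr, hx, -⟩ := nearMore_key h x hs hs' i hi.1
        obtain ⟨hv', hr', hx', -⟩ := nearMore_key h x hs hs' i' hi'.1
        obtain ⟨e, v, r⟩ := i
        obtain ⟨e', v', r'⟩ := i'
        have hf' := Prod.mk.inj hf
        have he : e = e' := hf'.1
        have hr2 : r + (s - 2) = r' + (s - 2) := hf'.2
        have hr2 : r = r' := by omega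
        subst he
        subst hr2
        change v ∈ A e at hv
        change v' ∈ A e at hv'
        change r < T at hr
        change Γ.run (w e) v (o e + r + s) = x at hx
        change Γ.run (w e) v' (o e + r + s) = x at hx'
        have hroom := h.room e
        have hvv := nearMore_run_back Γ (w e) v v' (o e + r + s)
          (fun q hq => h.rd e v hv q (by omega)) (fun q hq => h.rd e v' hv' q (by omega))
          (hx.trans hx'.symm)
        rw [hvv]
  · intro i hi
    rw [Finset.mem_coe] at hi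
    obtain ⟨-, -, -, hav, hd, -⟩ := nearMore_key h x hs hs' i hi
    refine Finset.mem_coe.2 ?_
    unfold lgs
    rw [Finset.mem_filter]
    exact ⟨Finset.mem_univ _, hav, hd⟩

end Pool.Agent.RibS
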