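import Pool.Agent.Lib.RibS.Defs
import Pool.Agent.Lib.RibS.Cnt
import Pool.Agent.Lib.RibLI.C0

/-!
# Random ribbon disc groups, second version : module NearOne

(helper94, problem MP_cf50d6_gt; paper MP_cf50d6_gt_rib50b.md)
An item `(e, v, r)` in `nearAt 1 x` has `run (o e + r + 1) = x`; `v` is determined by `e, r, x` (walk backwards, see the
private lemma `c0_run_back` in RibLI/C0: copy it). So the items inject into the pairs `(e, r)` with
`linv (w e (o e + r)) ∈ lts x` and `w e (o e + r + 1) ∈ lts x`; if the letter `b = w e (o e + r + 1)` is in `lgs x`, the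
vertex `nx x b` has degree 2 and `w e (o e + r + 2)` is its letter different from `linv b` (at most `ν` pairs for each
`b`, by `Stat.pair` with `r + 1 < T + S`; `(lts x).card = deg x` is `rfl`).
-/

set_option autoImplicit false

open scoped Classical

namespace Pool.Agent.RibS

open Pool.Agent.LIA Pool.Agent.RibLI

variable {V X E : Type*} [Fintype V] [Fintype X] [Fintype E] {Γ : XG V X} {w : E → ℕ → X × Bool}
  {N o : E → ℕ} {A : E → Finset V} {T S ν : ℕ}

omit [Fintype V] [Fintype X] in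
/-- walks reading the same letters with the same vertex at `r` start at the same vertex -/
private theorem nearOne_run_back (Γ : XG V X) (w : ℕ → X × Bool) (v v' : V) (r : ℕ)
    (h1 : ∀ s < r, Γ.av (Γ.run w v s) (w s)) (h2 : ∀ s < r, Γ.av (Γ.run w v' s) (w s))
    (h : Γ.run w v r = Γ.run w v' r) : v = v' := by
  induction r with
  | zero => exact h
  | succ r ih =>
    refine ih (fun s hs => h1 s (Nat.lt_succ_of_lt hs)) (fun s hs => h2 s (Nat.lt_succ_of_lt hs)) ?_
    have e1 := (Γ.back _ _ (h1 r (Nat.lt_succ_self r))).2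
    have e2 := (Γ.back _ _ (h2 r (Nat.lt_succ_self r))).2
    have e3 : Γ.nx (Γ.run w v r) (w r) = Γ.nx (Γ.run w v' r) (w r) := h
    rw [← e1, ← e2, e3]

omit [Fintype V] in
/-- at a vertex of degree 2 there are only two letters -/
private theorem nearOne_two (G : XG V X) {p : V} (h : G.deg p = 2) {a b l : X × Bool}
    (hab : a ≠ b) (ha : G.av p a) (hb : G.av p b) (hl : G.av p l) : l = a ∨ l = b := by
  by_contra hc
  rw [not_or] at hc
  obtain ⟨h1, h2⟩ := hc
  have hs : ({a, b, l} : Finset (X × Bool)) ⊆ Finset.univ.filter fun l => G.av p l := by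
    intro z hz
    rw [Finset.mem_insert, Finset.mem_insert, Finset.mem_singleton] at hz
    rw [Finset.mem_filter]
    refine ⟨Finset.mem_univ _, ?_⟩
    rcases hz with rfl | rfl | rfl
    · exact ha
    · exact hb
    · exact hl
  have h3 := Finset.card_le_card hs
  have h4 : ({a, b, l} : Finset (X × Bool)).card = 3 := by
    rw [Finset.card_eq_three]
    exact ⟨a, b, l, hab, fun h => h1 h.symm, fun h => h2 h.symm, rfl⟩
  unfold XG.deg at h
  omega

/-- the letter after the letter `b` which leads to a vertex of degree 2 -/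
private noncomputable def nearOne_c (Γ : XG V X) (x : V) (b : X × Bool) : X × Bool :=
  if h : ∃ l, Γ.av (Γ.nx x b) l ∧ l ≠ linv b then h.choose else b

omit [Fintype V] in
private theorem nearOne_c_eq (Γ : XG V X) {x : V} {b l : X × Bool} (hb : b ∈ lgs Γ x)
    (hl : Γ.av (Γ.nx x b) l) (hlb : l ≠ linv b) : l = nearOne_c Γ x b := by
  unfold lgs at hb
  rw [Finset.mem_filter] at hb
  obtain ⟨-, hb1, hb2⟩ := hb
  have hex : ∃ l, Γ.av (Γ.nx x b) l ∧ l ≠ linv b := ⟨l, hl, hlb⟩
  have e1 : nearOne_c Γ x b = hex.choose := by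
    unfold nearOne_c
    rw [dif_pos hex]
  obtain ⟨c1, c2⟩ := hex.choose_spec
  rw [e1]
  generalize hex.choose = c at c1 c2
  rcases nearOne_two Γ hb2 (fun h => hlb h.symm) (Γ.back x b hb1).1 hl c1 with h | h
  · exact absurd h c2
  · exact h.symm

omit [Fintype V] [Fintype X] in
private theorem nearOne_biUnion {N : ℕ} {P : E → ℕ → Prop} {β : Type*} (B : Finset β)
    (Q : β → E → ℕ → Prop) (h : ∀ e r, P e r → ∃ b ∈ B, Q b e r) :
    cnt N P ≤ ∑ b ∈ B, cnt N (Q b) := by
  unfold cnt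
  refine le_trans (Finset.card_le_card ?_) Finset.card_biUnion_le
  intro p hp
  obtain ⟨hp1, hp2⟩ := Finset.mem_filter.1 hp
  obtain ⟨b, hb, hq⟩ := h _ _ hp2
  exact Finset.mem_biUnion.2 ⟨b, hb, Finset.mem_filter.2 ⟨hp1, hq⟩⟩

omit [Fintype V] [Fintype X] in
private theorem nearOne_inj {β : Type*} {N : ℕ} {P : E → ℕ → Prop} (F : Finset β) (f : β → E × ℕ)
    (h : ∀ a ∈ F, (f a).2 < N ∧ P (f a).1 (f a).2)
    (hi : ∀ a ∈ F, ∀ b ∈ F, f a = f b → a = b) : F.card ≤ cnt N P := by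
  unfold cnt
  refine Finset.card_le_card_of_injOn f ?_ (fun a ha b hb hab => hi a ha b hb hab)
  intro a ha
  obtain ⟨h1, h2⟩ := h a ha
  exact Finset.mem_coe.2 (Finset.mem_filter.2
    ⟨Finset.mem_product.2 ⟨Finset.mem_univ _, Finset.mem_range.2 h1⟩, h2⟩)

omit [Fintype V] in
private theorem nearOne_lts {Γ : XG V X} {x : V} {l : X × Bool} : l ∈ lts Γ x ↔ Γ.av x l := by
  unfold lts
  rw [Finset.mem_filter]
  exact ⟨fun h => h.2, fun h => ⟨Finset.mem_univ _, h⟩⟩

private theorem nearOne_its {a : E × V × ℕ} (ha : a ∈ its A T) : a.2.2 < T ∧ a.2.1 ∈ A a.1 := by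
  unfold its at ha
  obtain ⟨h3, h4⟩ := Finset.mem_filter.1 ha
  exact ⟨Finset.mem_range.1 (Finset.mem_product.1 (Finset.mem_product.1 h3).2).2, h4⟩

omit [Fintype V] [Fintype X] [Fintype E] in
private theorem nearOne_filter {β : Type*} {F : Finset β} {p : β → Prop} (i : DecidablePred p)
    {a : β} (h : a ∈ @Finset.filter β p i F) : a ∈ F ∧ p a := Finset.mem_filter.1 h

private theorem nearOne_nearAt {s : ℕ} {x : V} {a : E × V × ℕ} (ha : a ∈ nearAt Γ w o A T s x) :
    a.2.2 < T ∧ a.2.1 ∈ A a.1 ∧ Γ.run (w a.1) a.2.1 (o a.1 + a.2.2 + s) = x := by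
  unfold nearAt at ha
  obtain ⟨h1, h2, -⟩ := nearOne_filter _ ha
  obtain ⟨h3, h4⟩ := nearOne_its h1
  exact ⟨h3, h4, h2⟩

theorem near_one (h : Cx Γ w N o A T S ν) (x : V) :
    (nearAt Γ w o A T 1 x).card ≤ cnt T (fun e r => linv (w e (o e + r)) ∈ lts Γ x ∧
      w e (o e + (r + 1)) ∈ lts Γ x ∧ w e (o e + (r + 1)) ∉ lgs Γ x) + ν * (lgs Γ x).card := by
  have hS := h.hS
  have hP2 : cnt T (fun e r => w e (o e + (r + 1)) ∈ lgs Γ x ∧
      w e (o e + (r + 1 + 1)) = nearOne_c Γ x (w e (o e + (r + 1)))) ≤ ν * (lgs Γ x).card := by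
    have h1 : cnt T (fun e r => w e (o e + (r + 1)) ∈ lgs Γ x ∧
        w e (o e + (r + 1 + 1)) = nearOne_c Γ x (w e (o e + (r + 1)))) ≤
        ∑ b ∈ lgs Γ x, cnt T (fun e r => w e (o e + (r + 1)) = b ∧
          w e (o e + (r + 1 + 1)) = nearOne_c Γ x b) :=
      nearOne_biUnion (lgs Γ x) _ fun e r hp => ⟨w e (o e + (r + 1)), hp.1, rfl, hp.2⟩
    refine le_trans h1 ?_
    have h2 : ∀ b ∈ lgs Γ x, cnt T (fun e r => w e (o e + (r + 1)) = b ∧
        w e (o e + (r + 1 + 1)) = nearOne_c Γ x b) ≤ ν := by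
      intro b _
      refine le_trans ?_ (h.st.pair b (nearOne_c Γ x b))
      refine cnt_shift (a := 1) (by omega) ?_
      intro e r _ hr
      have e1 : 1 + r = r + 1 := by omega
      rw [e1]
      exact hr
    refine le_trans (Finset.sum_le_sum h2) ?_
    rw [Finset.sum_const, smul_eq_mul, mul_comm]
  refine le_trans ?_ (Nat.add_le_add_left hP2 _)
  refine le_trans ?_ (cnt_le_add (P := fun e r => (linv (w e (o e + r)) ∈ lts Γ x ∧
      w e (o e + (r + 1)) ∈ lts Γ x ∧ w e (o e + (r + 1)) ∉ lgs Γ x) ∨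
      (w e (o e + (r + 1)) ∈ lgs Γ x ∧
        w e (o e + (r + 1 + 1)) = nearOne_c Γ x (w e (o e + (r + 1))))) (fun e r _ hr => hr))
  refine nearOne_inj _ (fun a => (a.1, a.2.2)) ?_ ?_
  · rintro ⟨e, v, r⟩ ha
    obtain ⟨hr, hv, hx⟩ := nearOne_nearAt ha
    dsimp only at hr hv hx ⊢
    have hroom := h.room e
    have hrd := h.rd e v hv
    have a1 := hrd (o e + r) (by omega)
    have a2 := hrd (o e + r + 1) (by omega)
    have a3 := hrd (o e + r + 1 + 1) (by omega)
    have b1 := (Γ.back _ _ a1).1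
    have e1 : Γ.nx (Γ.run (w e) v (o e + r)) (w e (o e + r)) = x := hx
    have e2 : Γ.run (w e) v (o e + r + 1) = x := hx
    have e3 : Γ.run (w e) v (o e + r + 1 + 1) = Γ.nx x (w e (o e + r + 1)) := by
      change Γ.nx (Γ.run (w e) v (o e + r + 1)) (w e (o e + r + 1)) = _
      rw [e2]
    rw [e1] at b1
    rw [e2] at a2
    rw [e3] at a3
    refine ⟨hr, ?_⟩
    change (linv (w e (o e + r)) ∈ lts Γ x ∧ w e (o e + r + 1) ∈ lts Γ x ∧
      w e (o e + r + 1) ∉ lgs Γ x) ∨ (w e (o e + r + 1) ∈ lgs Γ x ∧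
        w e (o e + r + 1 + 1) = nearOne_c Γ x (w e (o e + r + 1)))
    by_cases hb : w e (o e + r + 1) ∈ lgs Γ x
    · exact Or.inr ⟨hb, nearOne_c_eq Γ hb a3 (h.red e (o e + r + 1) (by omega))⟩
    · exact Or.inl ⟨nearOne_lts.2 b1, nearOne_lts.2 a2, hb⟩
  · rintro ⟨e, v, r⟩ ha ⟨e', v', r'⟩ ha' heq
    have g1 : e = e' := (Prod.mk.inj heq).1
    have g2 : r = r' := (Prod.mk.inj heq).2
    subst g1
    subst g2
    obtain ⟨hr, hv, hx⟩ := nearOne_nearAt ha
    obtain ⟨-, hv', hx'⟩ := nearOne_nearAt ha'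
    dsimp only at hr hv hv' hx hx'
    have hroom := h.room e
    have : v = v' := nearOne_run_back Γ (w e) v v' (o e + r + 1)
      (fun s hs => h.rd e v hv s (by omega)) (fun s hs => h.rd e v' hv' s (by omega))
      (hx.trans hx'.symm)
    rw [this]

end Pool.Agent.RibS
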