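import Pool.Agent.Lib.RibS.Defs
import Pool.Agent.Lib.RibS.Cnt
import Pool.Agent.Lib.RibS.NearOne
import Pool.Agent.Lib.RibS.NearMore
import Pool.Agent.Lib.RibS.Far

/-!
# Random ribbon disc groups, second version : module Count

(problem MP_cf50d6_gt; paper MP_cf50d6_gt_rib50b.md)
Every item is in `nearAt s x` for some `1 ≤ s ≤ S` and `x` with `3 ≤ deg x`, or in `farI` (all `deg ≥ 2` by `deg2`).
`(its A T).card = T * ∑ e, (A e).card`. At `x`: `near_one + ∑ (s = 2..S) near_more ≤ cnt .. + S ν |lgs x|`, twice this is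
`≤ T (deg x - 2)` by `Stat.set` with `Q = lts x`, `G = lgs x`. So `2 T #A ≤ ∑ T (deg x - 2) + 2 * #M * 2 S`, times 2, divide by
`T` (`8 S ≤ T`).
-/

set_option autoImplicit false

open scoped Classical

namespace Pool.Agent.RibS

open Pool.Agent.LIA Pool.Agent.RibLI

variable {V X E : Type*} [Fintype V] [Fintype X] [Fintype E] {Γ : XG V X} {w : E → ℕ → X × Bool}
  {N o : E → ℕ} {A : E → Finset V} {T S ν : ℕ}

theorem count_its (A : E → Finset V) (T : ℕ) : (its A T).card = T * ∑ e, (A e).card := by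
  have h1 : its A T = Finset.map (⟨fun x => (x.1, x.2.1, x.2.2), by
        rintro ⟨e, v, r⟩ ⟨e', v', r'⟩ h
        simp only [Prod.mk.injEq] at h
        obtain ⟨rfl, rfl, rfl⟩ := h
        rfl⟩ : ((_ : E) × V × ℕ) ↪ E × V × ℕ)
      ((Finset.univ : Finset E).sigma (fun e => A e ×ˢ Finset.range T)) := by
    ext ⟨e, v, r⟩
    simp only [its, Finset.mem_filter, Finset.mem_product, Finset.mem_univ, true_and,
      Finset.mem_range, Finset.mem_map, Finset.mem_sigma, Function.Embedding.coeFn_mk,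
      Prod.mk.injEq]
    constructor
    · rintro ⟨hr, hv⟩
      exact ⟨⟨e, v, r⟩, ⟨hv, hr⟩, rfl, rfl, rfl⟩
    · rintro ⟨⟨e', v', r'⟩, ⟨hv, hr⟩, rfl, rfl, rfl⟩
      exact ⟨hr, hv⟩
  rw [h1, Finset.card_map, Finset.card_sigma, Finset.mul_sum]
  refine Finset.sum_congr rfl fun e _ => ?_
  rw [Finset.card_product, Finset.card_range, Nat.mul_comm]

/-- the number of near items at a branch vertex -/
theorem count_at (h : Cx Γ w N o A T S ν) {x : V} (hx : 3 ≤ Γ.deg x) :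
    2 * ∑ s ∈ Finset.Icc 1 S, (nearAt Γ w o A T s x).card ≤ T * (Γ.deg x - 2) := by
  have hlg : lgs Γ x ⊆ lts Γ x := by
    intro l hl
    exact Finset.mem_filter.2 ⟨Finset.mem_univ _, (Finset.mem_filter.1 hl).2.1⟩
  have hset := h.st.set (lts Γ x) (lgs Γ x) hlg hx
  have hdeg : (lts Γ x).card = Γ.deg x := rfl
  rw [hdeg] at hset
  refine le_trans (Nat.mul_le_mul_left 2 ?_) hset
  have h1 := near_one h x
  have h2 : ∑ s ∈ Finset.Icc 2 S, (nearAt Γ w o A T s x).card ≤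
      (S - 1) * (ν * (lgs Γ x).card) := by
    calc _ ≤ ∑ s ∈ Finset.Icc 2 S, ν * (lgs Γ x).card := by
          refine Finset.sum_le_sum fun s hs => ?_
          obtain ⟨hs1, hs2⟩ := Finset.mem_Icc.1 hs
          exact near_more h x hs1 hs2
      _ = _ := by rw [Finset.sum_const, Nat.card_Icc, smul_eq_mul]; congr 1
  have h3 : ∑ s ∈ Finset.Icc 1 S, (nearAt Γ w o A T s x).card =
      (nearAt Γ w o A T 1 x).card + ∑ s ∈ Finset.Icc 2 S, (nearAt Γ w o A T s x).card := by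
    rw [← Finset.sum_Ioc_add_eq_sum_Icc h.hS, Nat.add_comm]
    rfl
  obtain ⟨S', hS'⟩ : ∃ S', S = S' + 1 := ⟨S - 1, by have := h.hS; omega⟩
  rw [h3]
  have h4 : (nearAt Γ w o A T 1 x).card + ∑ s ∈ Finset.Icc 2 S, (nearAt Γ w o A T s x).card ≤
      cnt T (fun e r => linv (w e (o e + r)) ∈ lts Γ x ∧
      w e (o e + (r + 1)) ∈ lts Γ x ∧ w e (o e + (r + 1)) ∉ lgs Γ x) + ν * (lgs Γ x).card +
      (S - 1) * (ν * (lgs Γ x).card) := Nat.add_le_add h1 h2
  refine h4.trans (le_of_eq ?_)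
  rw [hS', Nat.add_sub_cancel]
  ring

theorem count_cover (h : Cx Γ w N o A T S ν) :
    its A T ⊆ farI Γ w o A T S ∪
      ((Finset.univ.filter fun x => 3 ≤ Γ.deg x) ×ˢ Finset.Icc 1 S).biUnion
        fun p => nearAt Γ w o A T p.2 p.1 := by
  rintro ⟨e, v, r⟩ hi
  have hi' := hi
  simp only [its, Finset.mem_filter, Finset.mem_product, Finset.mem_univ, true_and,
      Finset.mem_range] at hi'
  obtain ⟨hr, hv⟩ := hi'
  rw [Finset.mem_union]
  by_cases hall : ∀ s', 1 ≤ s' → s' ≤ S → Γ.deg (Γ.run (w e) v (o e + r + s')) = 2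
  · left
    simp only [farI, Finset.mem_filter]
    exact ⟨hi, hall⟩
  · right
    push Not at hall
    have hex : ∃ s', 1 ≤ s' ∧ s' ≤ S ∧ Γ.deg (Γ.run (w e) v (o e + r + s')) ≠ 2 := hall
    have hspec := Nat.find_spec hex
    have hmin : ∀ s', 1 ≤ s' → s' < Nat.find hex →
        Γ.deg (Γ.run (w e) v (o e + r + s')) = 2 := by
      intro s' h1 h2
      by_contra h3
      exact Nat.find_min hex h2 ⟨h1, by omega, h3⟩
    generalize Nat.find hex = s at hspec hmin
    obtain ⟨hs1, hs2, hs3⟩ := hspec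
    have hroom := h.room e
    have hd := h.deg2 e v hv (o e + r + s) (by omega)
    rw [Finset.mem_biUnion]
    refine ⟨(Γ.run (w e) v (o e + r + s), s), ?_, ?_⟩
    · refine Finset.mem_product.2 ⟨Finset.mem_filter.2 ⟨Finset.mem_univ _, ?_⟩,
        Finset.mem_Icc.2 ⟨hs1, hs2⟩⟩
      show 3 ≤ Γ.deg (Γ.run (w e) v (o e + r + s))
      omega
    · simp only [nearAt, Finset.mem_filter]
      exact ⟨hi, trivial, hmin⟩

theorem count_stat (h : Cx Γ w N o A T S ν) (hT : 8 * S ≤ T) {M : Type*} [Fintype M] (mk : M → V)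
    (hdeep : ∀ e, ∀ v ∈ A e, ∀ t, t + S + 1 ≤ N e →
      (∀ s, 1 ≤ s → s ≤ S → Γ.deg (Γ.run (w e) v (t + s)) = 2) →
      ∃ s μ, 1 ≤ s ∧ s ≤ S ∧ mk μ = Γ.run (w e) v (t + s)) :
    4 * ∑ e, (A e).card ≤ 2 * ∑ x, (Γ.deg x - 2) + Fintype.card M := by
  have hfar := far_card h mk hdeep
  have h1 := (Finset.card_le_card (count_cover h)).trans (Finset.card_union_le _ _)
  have h2 : (((Finset.univ.filter fun x => 3 ≤ Γ.deg x) ×ˢ Finset.Icc 1 S).biUnion
        fun p => nearAt Γ w o A T p.2 p.1).card ≤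
      ∑ x ∈ Finset.univ.filter (fun x => 3 ≤ Γ.deg x),
        ∑ s ∈ Finset.Icc 1 S, (nearAt Γ w o A T s x).card := by
    refine Finset.card_biUnion_le.trans (le_of_eq ?_)
    rw [Finset.sum_product]
  have h3 : 2 * ∑ x ∈ Finset.univ.filter (fun x => 3 ≤ Γ.deg x),
        ∑ s ∈ Finset.Icc 1 S, (nearAt Γ w o A T s x).card ≤ T * ∑ x, (Γ.deg x - 2) := by
    rw [Finset.mul_sum, Finset.mul_sum]
    calc _ ≤ ∑ x ∈ Finset.univ.filter (fun x => 3 ≤ Γ.deg x), T * (Γ.deg x - 2) :=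
          Finset.sum_le_sum fun x hx => count_at h (Finset.mem_filter.1 hx).2
      _ ≤ _ := Finset.sum_le_sum_of_subset (Finset.filter_subset _ _)
  rw [count_its] at h1
  have hS := h.hS
  have hTpos : 0 < T := by omega
  have h4 : 8 * S * Fintype.card M ≤ T * Fintype.card M := Nat.mul_le_mul_right _ hT
  have h5 : T * (4 * ∑ e, (A e).card) ≤ T * (2 * ∑ x, (Γ.deg x - 2) + Fintype.card M) := by
    have h6 : T * (4 * ∑ e, (A e).card) = 4 * (T * ∑ e, (A e).card) := by ring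
    have h7 : T * (2 * ∑ x, (Γ.deg x - 2) + Fintype.card M) =
        2 * (T * ∑ x, (Γ.deg x - 2)) + T * Fintype.card M := by ring
    have h8 : 8 * S * Fintype.card M = 4 * (Fintype.card M * (2 * S)) := by ring
    rw [h6, h7]
    omega
  exact Nat.le_of_mul_le_mul_left h5 hTpos

end Pool.Agent.RibS
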