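import Pool.Agent.Lib.RibS.Defs
import Pool.Agent.Lib.RibLI.D1
import Pool.Agent.Lib.RibLI.D3
import Pool.Agent.Lib.RibLI.D4
import Pool.Agent.Lib.RibLI.D8a

/-!
# Random ribbon disc groups, second version : module Deep

(helper38, problem MP_cf50d6_gt; paper MP_cf50d6_gt_rib50b.md)
A stretch of `L + 2` vertices of degree 2 on the walk of a word meets a one-sided edge (`deep_a`, `deep_b` of `RibLI` for
`GenB`, with `K = 3`).
-/

set_option autoImplicit false

open scoped Classical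

namespace Pool.Agent.RibS

open Pool.Agent.LIA Pool.Agent.RibLI

variable {V X E : Type*} {Γ : LG V (X ⊕ E)} {W : E → List (X × Bool)} {i j : E → X}

/-- the letters of a word -/
theorem dp_get {u : List (X × Bool)} (d : X × Bool) {s : ℕ} (hs : s < u.length) :
    u[s]? = some (lw u d s) := by
  unfold lw
  rw [List.getD_eq_getElem?_getD, List.getElem?_eq_getElem hs]
  rfl

/-- no edges with labels in `E` on a stretch without one-sided edges -/
theorem deep_a [Fintype X] {L : ℕ} (hW : GenB W i j L) (_ : 1 ≤ L)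
    (h : NoFree Γ (relR W i j)) (d : X × Bool) {e : E} {v : V}
    (hp : Γ.Walk v (relA W e) v) {t : ℕ} (ht : t + (L + 3) ≤ (W e).length)
    (h2 : ∀ s, 1 ≤ s → s < L + 3 → (xg Γ).deg ((xg Γ).run (lw (W e) d) v (t + s)) = 2)
    (hno : ∀ s, 1 ≤ s → s < L + 3 → ∀ f ∈ one Γ i j,
      f.1 ≠ (xg Γ).run (lw (W e) d) v (t + s) ∧ f.2.2 ≠ (xg Γ).run (lw (W e) d) v (t + s)) :
    ∀ s, 1 ≤ s → s < L + 3 → ∀ e' y,
      ((xg Γ).run (lw (W e) d) v (t + s), Sum.inr e', y) ∉ Γ.F ∧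
        (y, Sum.inr e', (xg Γ).run (lw (W e) d) v (t + s)) ∉ Γ.F := by
  obtain ⟨hR, -⟩ := (polyA_iff e d v).1 hp
  have hfin : (∀ s, s + 1 < L + 3 → lw (W e) d (t + s) = lw (W e) d (t + s + 1)) → False := by
    intro hc
    have h3 := (hW.occ e e t (t + 1) (by omega) (by omega) (by
      intro r hr
      rw [dp_get d (by omega), dp_get d (by omega), hc r (by omega)]
      have e6 : t + 1 + r = t + r + 1 := by omega
      rw [e6])).2
    omega
  have hR' : ∀ s < L + 3,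
      (xg Γ).av ((xg Γ).run (lw (W e) d) v (t + s)) (lw (W e) d (t + s)) :=
    fun s hs => hR (t + s) (by omega)
  have hred : ∀ s, s + 1 < L + 3 → lw (W e) d (t + s + 1) ≠ linv (lw (W e) d (t + s)) :=
    fun s hs => hW.red e (t + s) _ _ (dp_get d (by omega)) (dp_get d (by omega))
  have hT : ∀ {p q : V} {x : X}, (p, (Sum.inl x : X ⊕ E), q) ∈ Γ.F →
      (xg Γ).av p (x, true) ∧ (xg Γ).nx p (x, true) = q := by
    intro p q x hx
    exact xg_of_step (l := (x, true)) hx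
  have hF : ∀ {p q : V} {x : X}, (q, (Sum.inl x : X ⊕ E), p) ∈ Γ.F →
      (xg Γ).av p (x, false) ∧ (xg Γ).nx p (x, false) = q := by
    intro p q x hx
    exact xg_of_step (l := (x, false)) hx
  intro s₀ h1 h3 e' y
  constructor
  · intro hf
    refine hfin (d8a_const (xg Γ) (lw (W e) d) v hR' hred h2
      (Q := fun p => ∃ y, (p, (Sum.inr e' : X ⊕ E), y) ∈ Γ.F) (x := i e') ?_ h1 h3 ⟨y, hf⟩)
    rintro s hs hs' ⟨z, hz⟩
    obtain ⟨⟨u', v', r1, -, r3⟩, ⟨u'', v'', l1, -, l3⟩⟩ :=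
      d8a_both h hz (fun hm => (hno s hs hs' _ hm).1 rfl)
    obtain ⟨a1, a2⟩ := hT r1
    obtain ⟨b1, b2⟩ := hF l1
    refine ⟨a1, b1, ?_, ?_⟩
    · rw [a2]
      exact ⟨v', r3⟩
    · rw [b2]
      exact ⟨v'', l3⟩
  · intro hf
    refine hfin (d8a_const (xg Γ) (lw (W e) d) v hR' hred h2
      (Q := fun p => ∃ y, (y, (Sum.inr e' : X ⊕ E), p) ∈ Γ.F) (x := j e') ?_ h1 h3 ⟨y, hf⟩)
    rintro s hs hs' ⟨z, hz⟩
    obtain ⟨⟨u', v', -, r2, r3⟩, ⟨u'', v'', -, l2, l3⟩⟩ :=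
      d8a_both h hz (fun hm => (hno s hs hs' _ hm).2 rfl)
    obtain ⟨a1, a2⟩ := hT r2
    obtain ⟨b1, b2⟩ := hF l2
    refine ⟨a1, b1, ?_, ?_⟩
    · rw [a2]
      exact ⟨u', r3⟩
    · rw [b2]
      exact ⟨u'', l3⟩

/-- two walks which read the same letters and meet at the same step start at the same vertex -/
theorem dp_back (G : XG V X) (w : ℕ → X × Bool) {v v' : V} {s : ℕ} (h : G.Reads w v s)
    (h' : G.Reads w v' s) (he : G.run w v' s = G.run w v s) : v' = v := by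
  induction s with
  | zero => exact he
  | succ s ih =>
    refine ih (fun r hr => h r (by omega)) (fun r hr => h' r (by omega)) ?_
    have e1 := (G.back _ _ (h s (by omega))).2
    have e2 := (G.back _ _ (h' s (by omega))).2
    rw [← e1, ← e2]
    have e3 : G.nx (G.run w v' s) (w s) = G.nx (G.run w v s) (w s) := he
    rw [e3]

/-- the two ways to pass an edge -/
theorem dp_edg {a b a' b' : V} {l l' : X × Bool} (h : edg a' l' b' = edg a l b) :
    (l' = l ∧ a' = a ∧ b' = b) ∨ (l' = linv l ∧ a' = b ∧ b' = a) := by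
  obtain ⟨x, c⟩ := l
  obtain ⟨x', c'⟩ := l'
  unfold edg at h
  cases c <;> cases c' <;> simp only [if_true, if_false, Bool.false_eq_true, Prod.mk.injEq] at h
  · obtain ⟨h1, h2, h3⟩ := h
    left
    exact ⟨by rw [h2], h3, h1⟩
  · obtain ⟨h1, h2, h3⟩ := h
    right
    exact ⟨by rw [h2]; rfl, h1, h3⟩
  · obtain ⟨h1, h2, h3⟩ := h
    right
    exact ⟨by rw [h2]; rfl, h3, h1⟩
  · obtain ⟨h1, h2, h3⟩ := h
    left
    exact ⟨by rw [h2], h1, h3⟩

/-- a second walk along the stretch, forward -/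
theorem dp_fwd [Fintype X] {L : ℕ} (hW : GenB W i j L) (d : X × Bool) {e e' : E} {v v' : V}
    (hp : Γ.Walk v (relA W e) v) (hp' : Γ.Walk v' (relA W e') v') {t t' : ℕ}
    (ht : t + (L + 3) ≤ (W e).length) (ht' : t' < (W e').length)
    (h2 : ∀ s, 1 ≤ s → s < L + 3 → (xg Γ).deg ((xg Γ).run (lw (W e) d) v (t + s)) = 2)
    (hno : ∀ s, 1 ≤ s → s < L + 3 → ∀ e' y,
      ((xg Γ).run (lw (W e) d) v (t + s), Sum.inr e', y) ∉ Γ.F ∧
        (y, Sum.inr e', (xg Γ).run (lw (W e) d) v (t + s)) ∉ Γ.F)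
    (h1 : (xg Γ).run (lw (W e') d) v' t' = (xg Γ).run (lw (W e) d) v (t + 1))
    (h3 : lw (W e') d t' = lw (W e) d (t + 1)) :
    ∀ r ≤ L, t' + r < (W e').length ∧
      (xg Γ).run (lw (W e') d) v' (t' + r) = (xg Γ).run (lw (W e) d) v (t + 1 + r) ∧
      lw (W e') d (t' + r) = lw (W e) d (t + 1 + r) := by
  obtain ⟨hR, -⟩ := (polyA_iff e d v).1 hp
  obtain ⟨hR', hE'⟩ := (polyA_iff e' d v').1 hp'
  intro r
  induction r with
  | zero => exact fun _ => ⟨ht', h1, h3⟩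
  | succ r ih =>
    intro hr
    obtain ⟨i1, i2, i3⟩ := ih (by omega)
    have e1 : (xg Γ).run (lw (W e') d) v' (t' + (r + 1)) =
        (xg Γ).run (lw (W e) d) v (t + 1 + (r + 1)) := by
      change (xg Γ).nx ((xg Γ).run (lw (W e') d) v' (t' + r)) (lw (W e') d (t' + r)) =
        (xg Γ).nx ((xg Γ).run (lw (W e) d) v (t + 1 + r)) (lw (W e) d (t + 1 + r))
      rw [i2, i3]
    have e0 : t + 1 + (r + 1) = t + (r + 2) := by omega
    have hlt : t' + (r + 1) < (W e').length := by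
      by_contra hc
      have h5 : t' + (r + 1) = (W e').length := by omega
      rw [← h5, e1, e0] at hE'
      exact (hno (r + 2) (by omega) (by omega) e' v').2 hE'
    refine ⟨hlt, e1, ?_⟩
    have a1 := hR' (t' + (r + 1)) hlt
    rw [e1] at a1
    have a2 := hR (t + 1 + (r + 1)) (by omega)
    have a3 := ((xg Γ).back _ _ (hR (t + 1 + r) (by omega))).1
    have e2 : (xg Γ).nx ((xg Γ).run (lw (W e) d) v (t + 1 + r)) (lw (W e) d (t + 1 + r)) =
        (xg Γ).run (lw (W e) d) v (t + 1 + (r + 1)) := rfl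
    rw [e2] at a3
    have d1 := hW.red e (t + 1 + r) _ _ (dp_get d (by omega)) (dp_get d (by omega))
    have d2 := hW.red e' (t' + r) _ _ (dp_get d (by omega)) (dp_get d (by omega))
    have hdeg : (xg Γ).deg ((xg Γ).run (lw (W e) d) v (t + 1 + (r + 1))) = 2 := by
      rw [e0]
      exact h2 (r + 2) (by omega) (by omega)
    rcases d8a_two (xg Γ) hdeg (show lw (W e) d (t + 1 + (r + 1)) ≠ linv (lw (W e) d (t + 1 + r)) from d1)
      a2 a3 a1 with h6 | h6
    · exact h6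
    · exfalso
      apply d2
      rw [i3]
      exact h6

/-- a second walk along the stretch, backward -/
theorem dp_bwd [Fintype X] {L : ℕ} (hW : GenB W i j L) (d : X × Bool) {e e' : E} {v v' : V}
    (hp : Γ.Walk v (relA W e) v) (hp' : Γ.Walk v' (relA W e') v') {t t' : ℕ}
    (ht : t + (L + 3) ≤ (W e).length) (ht' : t' < (W e').length)
    (h2 : ∀ s, 1 ≤ s → s < L + 3 → (xg Γ).deg ((xg Γ).run (lw (W e) d) v (t + s)) = 2)
    (hno : ∀ s, 1 ≤ s → s < L + 3 → ∀ e' y,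
      ((xg Γ).run (lw (W e) d) v (t + s), Sum.inr e', y) ∉ Γ.F ∧
        (y, Sum.inr e', (xg Γ).run (lw (W e) d) v (t + s)) ∉ Γ.F)
    (h1 : (xg Γ).run (lw (W e') d) v' t' = (xg Γ).run (lw (W e) d) v (t + 2))
    (h3 : lw (W e') d t' = linv (lw (W e) d (t + 1))) :
    ∀ r ≤ L, r ≤ t' ∧
      (xg Γ).run (lw (W e') d) v' (t' - r) = (xg Γ).run (lw (W e) d) v (t + 2 + r) ∧
      lw (W e') d (t' - r) = linv (lw (W e) d (t + 1 + r)) := by
  obtain ⟨hR, -⟩ := (polyA_iff e d v).1 hp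
  obtain ⟨hR', hE'⟩ := (polyA_iff e' d v').1 hp'
  intro r
  induction r with
  | zero => exact fun _ => ⟨Nat.zero_le _, h1, h3⟩
  | succ r ih =>
    intro hr
    obtain ⟨i1, i2, i3⟩ := ih (by omega)
    have hlt : r + 1 ≤ t' := by
      by_contra hc
      have h5 : t' - r = 0 := by omega
      rw [h5] at i2
      have e0 : t + 2 + r = t + (r + 2) := by omega
      rw [e0] at i2
      change v' = _ at i2
      rw [i2] at hE'
      exact (hno (r + 2) (by omega) (by omega) e' _).1 hE'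
    obtain ⟨s, hs⟩ : ∃ s, t' - r = s + 1 := ⟨t' - r - 1, by omega⟩
    have hs' : t' - (r + 1) = s := by omega
    rw [hs] at i2 i3
    rw [hs']
    obtain ⟨b1, b2⟩ := (xg Γ).back _ _ (hR' s (by omega))
    have e1 : (xg Γ).nx ((xg Γ).run (lw (W e') d) v' s) (lw (W e') d s) =
        (xg Γ).run (lw (W e') d) v' (s + 1) := rfl
    rw [e1, i2] at b1 b2
    have a2 := hR (t + 2 + r) (by omega)
    have a3 := ((xg Γ).back _ _ (hR (t + 1 + r) (by omega))).1
    have e2 : (xg Γ).nx ((xg Γ).run (lw (W e) d) v (t + 1 + r)) (lw (W e) d (t + 1 + r)) =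
        (xg Γ).run (lw (W e) d) v (t + 2 + r) := by
      have e3 : t + 2 + r = (t + 1 + r) + 1 := by omega
      rw [e3]
      rfl
    rw [e2] at a3
    have d1 : lw (W e) d (t + 2 + r) ≠ linv (lw (W e) d (t + 1 + r)) := by
      have e3 : t + 2 + r = (t + 1 + r) + 1 := by omega
      rw [e3]
      exact hW.red e (t + 1 + r) _ _ (dp_get d (by omega)) (dp_get d (by omega))
    have d2 := hW.red e' s _ _ (dp_get d (by omega)) (dp_get d (by omega))
    have hdeg : (xg Γ).deg ((xg Γ).run (lw (W e) d) v (t + 2 + r)) = 2 := by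
      have e0 : t + 2 + r = t + (r + 2) := by omega
      rw [e0]
      exact h2 (r + 2) (by omega) (by omega)
    rcases d8a_two (xg Γ) hdeg d1 a2 a3 b1 with h6 | h6
    · refine ⟨hlt, ?_, ?_⟩
      · rw [← b2, h6]
        rfl
      · have e7 : t + 1 + (r + 1) = t + 2 + r := by omega
        rw [e7, ← h6, linv_linv]
    · exfalso
      apply d2
      rw [i3, ← h6]

theorem deep_b [Fintype X] {L : ℕ} (hW : GenB W i j L) (hL : 1 ≤ L)
    (h : NoFree Γ (relR W i j)) (d : X × Bool) {e : E} {v : V}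
    (hp : Γ.Walk v (relA W e) v) {t : ℕ} (ht : t + (L + 3) ≤ (W e).length)
    (h2 : ∀ s, 1 ≤ s → s < L + 3 → (xg Γ).deg ((xg Γ).run (lw (W e) d) v (t + s)) = 2)
    (hno : ∀ s, 1 ≤ s → s < L + 3 → ∀ e' y,
      ((xg Γ).run (lw (W e) d) v (t + s), Sum.inr e', y) ∉ Γ.F ∧
        (y, Sum.inr e', (xg Γ).run (lw (W e) d) v (t + s)) ∉ Γ.F) : False := by
  obtain ⟨hR, -⟩ := (polyA_iff e d v).1 hp
  -- the two passes
  have key : ∃ p p' : E × V × ℕ, p ≠ p' ∧ ∀ r ∈ [p, p'], Γ.Walk r.2.1 (relA W r.1) r.2.1 ∧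
      r.2.2 < (W r.1).length ∧ edg ((xg Γ).run (lw (W r.1) d) r.2.1 r.2.2) (lw (W r.1) d r.2.2)
        ((xg Γ).run (lw (W r.1) d) r.2.1 (r.2.2 + 1)) =
          edg ((xg Γ).run (lw (W e) d) v (t + 1)) (lw (W e) d (t + 1))
            ((xg Γ).run (lw (W e) d) v (t + 2)) := by
    have hst := xg_step (hR (t + 1) (by omega))
    have e1 : (xg Γ).nx ((xg Γ).run (lw (W e) d) v (t + 1)) (lw (W e) d (t + 1)) =
        (xg Γ).run (lw (W e) d) v (t + 2) := rfl
    rw [e1] at hst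
    have hn1 := hno 1 le_rfl (by omega)
    have hn2 := hno 2 (by omega) (by omega)
    generalize (xg Γ).run (lw (W e) d) v (t + 1) = a at hst hn1 ⊢
    generalize (xg Γ).run (lw (W e) d) v (t + 2) = b at hst hn2 ⊢
    generalize lw (W e) d (t + 1) = l at hst ⊢
    obtain ⟨x, c⟩ := l
    cases c
    · have hst' : (b, (Sum.inl x : X ⊕ E), a) ∈ Γ.F := hst
      exact pass_x h d hst' hn2
    · have hst' : (a, (Sum.inl x : X ⊕ E), b) ∈ Γ.F := hst
      exact pass_x h d hst' hn1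
  obtain ⟨p, p', hne, hpp⟩ := key
  obtain ⟨q, hq, hqe⟩ : ∃ q ∈ [p, p'], q ≠ (e, v, t + 1) := by
    by_cases hc : p = (e, v, t + 1)
    · refine ⟨p', by simp, ?_⟩
      rw [← hc]
      exact fun h => hne h.symm
    · exact ⟨p, by simp, hc⟩
  obtain ⟨e', v', t'⟩ := q
  obtain ⟨hp', ht', hE⟩ := hpp _ hq
  dsimp only at hp' ht' hE
  rcases dp_edg hE with ⟨h3, h1, -⟩ | ⟨h3, h1, -⟩
  · have hf := dp_fwd hW d hp hp' ht ht' h2 hno h1 h3
    obtain ⟨rfl, h5⟩ := hW.occ e e' (t + 1) t' (by omega)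
      (by have := (hf (L - 1) (by omega)).1; omega) (by
        intro r hr
        obtain ⟨i1, -, i3⟩ := hf r (by omega)
        rw [dp_get d (by omega), dp_get d i1, i3])
    subst h5
    obtain ⟨hR', -⟩ := (polyA_iff e d v').1 hp'
    have h6 : v' = v := dp_back (xg Γ) (lw (W e) d) (fun r hr => hR r (by omega))
      (fun r hr => hR' r (by omega)) h1
    subst h6
    exact hqe rfl
  · have hb := dp_bwd hW d hp hp' ht ht' h2 hno h1 h3
    have hLt := (hb (L - 1) (by omega)).1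
    refine hW.inv e e' (t + 1) (t' - (L - 1)) (by omega) (by omega) ?_
    intro r hr
    obtain ⟨i1, -, i3⟩ := hb r (by omega)
    have e5 : t' - (L - 1) + L - 1 - r = t' - r := by omega
    rw [e5, dp_get d (show t + 1 + r < _ by omega), dp_get d (show t' - r < _ by omega), i3]
    simp [linv_linv]

theorem deep [Fintype X] {L : ℕ} (hW : GenB W i j L) (hL : 1 ≤ L)
    (h : NoFree Γ (relR W i j)) (d : X × Bool) {e : E} {v : V}
    (hp : Γ.Walk v (relA W e) v) {t : ℕ} (ht : t + (L + 2) + 1 ≤ (W e).length)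
    (h2 : ∀ s, 1 ≤ s → s ≤ L + 2 → (xg Γ).deg ((xg Γ).run (lw (W e) d) v (t + s)) = 2) :
    ∃ s, 1 ≤ s ∧ s ≤ L + 2 ∧ ∃ f ∈ one Γ i j,
      f.1 = (xg Γ).run (lw (W e) d) v (t + s) ∨ f.2.2 = (xg Γ).run (lw (W e) d) v (t + s) := by
  by_contra hc
  have hno : ∀ s, 1 ≤ s → s < L + 3 → ∀ f ∈ one Γ i j,
      f.1 ≠ (xg Γ).run (lw (W e) d) v (t + s) ∧ f.2.2 ≠ (xg Γ).run (lw (W e) d) v (t + s) := by
    intro s h1 h3 f hf
    constructor
    · intro h4
      exact hc ⟨s, h1, by omega, f, hf, Or.inl h4⟩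
    · intro h4
      exact hc ⟨s, h1, by omega, f, hf, Or.inr h4⟩
  have h2' : ∀ s, 1 ≤ s → s < L + 3 →
      (xg Γ).deg ((xg Γ).run (lw (W e) d) v (t + s)) = 2 := fun s h1 h3 => h2 s h1 (by omega)
  exact deep_b hW hL h d hp (by omega) h2' (deep_a hW hL h d hp (by omega) h2' hno)

end Pool.Agent.RibS
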