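import Pool.Agent.Lib.RibLI.Defs
import Pool.Agent.Lib.RIB.RDefs

/-!
# Random ribbon disc groups, second version : definitions

(helper50, problem MP_cf50d6_gt; paper in the team store: MP_cf50d6_gt_rib50b.md, which uses MP_cf50d6_gt_rib50.md)
-/

set_option autoImplicit false

open scoped Classical

namespace Pool.Agent.RibS

open Pool.Agent.LIA Pool.Agent.RibLI

/-- the number of the pairs `(e, r)`, `r < N`, with `P e r` -/
noncomputable def cnt {E : Type*} [Fintype E] (N : ℕ) (P : E → ℕ → Prop) : ℕ :=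
  ((Finset.univ ×ˢ Finset.range N : Finset (E × ℕ)).filter fun p => P p.1 p.2).card

/-- the hypotheses (B) and (P2) : reduced words, the first and the last letter, unique subwords of length `L` -/
structure GenB {X E : Type*} (W : E → List (X × Bool)) (i j : E → X) (L : ℕ) : Prop where
  red : ∀ e, Rdc (W e)
  ne : ∀ e, 1 ≤ (W e).length
  fst : ∀ e l, (W e)[0]? = some l → l.1 ≠ i e
  lst : ∀ e l, (W e)[(W e).length - 1]? = some l → l.1 ≠ j e
  occ : ∀ e e' t t', t + L ≤ (W e).length → t' + L ≤ (W e').length →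
    (∀ r < L, (W e)[t + r]? = (W e')[t' + r]?) → e = e' ∧ t = t'
  inv : ∀ e e' t t', t + L ≤ (W e).length → t' + L ≤ (W e').length →
    ¬ ∀ r < L, (W e)[t + r]? = ((W e')[t' + L - 1 - r]?).map linv

/-- (pair) and (set), for the letters `f e r` (= letter number `r` of the window of the word `e`) -/
structure Stat {X E : Type*} [Fintype E] (f : E → ℕ → X × Bool) (T S ν : ℕ) : Prop where
  pair : ∀ b c, cnt (T + S) (fun e r => f e r = b ∧ f e (r + 1) = c) ≤ ν
  set : ∀ Q G : Finset (X × Bool), G ⊆ Q → 3 ≤ Q.card →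
    2 * (cnt T (fun e r => linv (f e r) ∈ Q ∧ f e (r + 1) ∈ Q ∧ f e (r + 1) ∉ G) +
      S * ν * G.card) ≤ T * (Q.card - 2)

/-- `A e` = starting points of walks which read the reduced word `w e 0, ..., w e (N e - 1)`, with windows and statistics -/
structure Cx {V X E : Type*} [Fintype X] [Fintype E] (Γ : XG V X) (w : E → ℕ → X × Bool)
    (N o : E → ℕ) (A : E → Finset V) (T S ν : ℕ) : Prop where
  hS : 1 ≤ S
  room : ∀ e, o e + T + S + 1 ≤ N e
  red : ∀ e s, s + 1 < N e → w e (s + 1) ≠ linv (w e s)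
  rd : ∀ e, ∀ v ∈ A e, Γ.Reads (w e) v (N e)
  deg2 : ∀ e, ∀ v ∈ A e, ∀ s ≤ N e, 2 ≤ Γ.deg (Γ.run (w e) v s)
  uniq : ∀ e e' t t', t + S ≤ N e → t' + S ≤ N e' →
    (∀ r < S, w e (t + r) = w e' (t' + r)) → e = e' ∧ t = t'
  st : Stat (fun e r => w e (o e + r)) T S ν

/-- the items `(e, v, r)` -/
noncomputable def its {V E : Type*} [Fintype V] [Fintype E] (A : E → Finset V) (T : ℕ) :
    Finset (E × V × ℕ) :=
  (Finset.univ ×ˢ Finset.univ ×ˢ Finset.range T).filter fun x => x.2.1 ∈ A x.1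

/-- the items for which the first branch vertex is `x`, at distance `s` -/
noncomputable def nearAt {V X E : Type*} [Fintype V] [Fintype X] [Fintype E] (Γ : XG V X)
    (w : E → ℕ → X × Bool) (o : E → ℕ) (A : E → Finset V) (T s : ℕ) (x : V) :
    Finset (E × V × ℕ) :=
  (its A T).filter fun a => Γ.run (w a.1) a.2.1 (o a.1 + a.2.2 + s) = x ∧
    ∀ s', 1 ≤ s' → s' < s → Γ.deg (Γ.run (w a.1) a.2.1 (o a.1 + a.2.2 + s')) = 2

/-- the items without branch vertex at distance `1, ..., S` -/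
noncomputable def farI {V X E : Type*} [Fintype V] [Fintype X] [Fintype E] (Γ : XG V X)
    (w : E → ℕ → X × Bool) (o : E → ℕ) (A : E → Finset V) (T S : ℕ) : Finset (E × V × ℕ) :=
  (its A T).filter fun a => ∀ s', 1 ≤ s' → s' ≤ S →
    Γ.deg (Γ.run (w a.1) a.2.1 (o a.1 + a.2.2 + s')) = 2

/-- the letters at `x` -/
noncomputable def lts {V X : Type*} [Fintype X] (Γ : XG V X) (x : V) : Finset (X × Bool) :=
  Finset.univ.filter fun l => Γ.av x l

/-- the long letters at `x` -/
noncomputable def lgs {V X : Type*} [Fintype X] (Γ : XG V X) (x : V) : Finset (X × Bool) :=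
  Finset.univ.filter fun l => Γ.av x l ∧ Γ.deg (Γ.nx x l) = 2

/-- the statistical conditions (N), (O), (C) for `m` words of length at least `800 T₁ + 37` -/
structure Good {n m : ℕ} (T₁ : ℕ) (d : RIB.Lt n) (W : Fin m → List (RIB.Lt n)) : Prop where
  N : ∀ s < 2, ∀ b c, cnt (400 * T₁ + 10) (fun e i => (W e).getD (15 + s + 2 * i) d = b ∧
    (W e).getD (15 + s + 2 * i + 1) d = c) ≤ T₁
  O : ∀ s < 2, ∀ x, 180 * T₁ ≤ cnt (400 * T₁ - s) (fun e i => (W e).getD (16 + s + 2 * i) d = x)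
  C : ∀ s < 2, ∀ M M' : Finset (RIB.Lt n), M ⊆ M' → M.card ≤ n → M'.Nonempty →
    cnt (400 * T₁) (fun e i => linv ((W e).getD (15 + s + 2 * i) d) ∈ M ∧
      (W e).getD (15 + s + 2 * i + 1) d ∈ M') ≤ 160 * T₁ * M'.card

end Pool.Agent.RibS
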