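import Pool.Agent.Lib.RibS.Defs
import Pool.Agent.Lib.RibLI.D1
import Pool.Agent.Lib.RibLI.D3

/-!
# Random ribbon disc groups, second version : module DegTwo

(problem MP_cf50d6_gt; paper MP_cf50d6_gt_rib50b.md)
This is `deg_two` of RibLI/D5 for `GenB` in place of `Gen`.
-/

set_option autoImplicit false

open scoped Classical

namespace Pool.Agent.RibS

open Pool.Agent.LIA Pool.Agent.RibLI

variable {V X E : Type*} {Γ : LG V (X ⊕ E)} {W : E → List (X × Bool)} {i j : E → X}

private theorem dtw_two [Fintype X] {p : V} {l l' : X × Bool} (h : (xg Γ).av p l)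
    (h' : (xg Γ).av p l') (hne : l ≠ l') : 2 ≤ (xg Γ).deg p := by
  unfold XG.deg
  refine Finset.one_lt_card.2 ⟨l, ?_, l', ?_, hne⟩
  · simpa using h
  · simpa using h'

private theorem dtw_len {L : ℕ} (hW : GenB W i j L) (e : E) : W e ≠ [] := by
  intro h
  have h1 := hW.ne e
  rw [h] at h1
  simp at h1

private theorem dtw_av {p v : V} {x : X} {b : Bool} (h : Γ.Step p (Sum.inl x, b) v) :
    (xg Γ).av p (x, b) := (xg_of_step (l := (x, b)) h).1

private theorem dtw_av' {p v : V} {x : X} {b : Bool} (h : Γ.Step v (Sum.inl x, b) p) :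
    (xg Γ).av p (x, !b) := by
  have h1 : Γ.Step p (linv (Sum.inl x, b)) v := LG.step_symm.2 h
  exact dtw_av h1

private theorem dtw_out [Fintype X] {L : ℕ} (hW : GenB W i j L)
    (h : NoFree Γ (relR W i j)) {p v : V} {e : E} (hf : (p, Sum.inr e, v) ∈ Γ.F) :
    2 ≤ (xg Γ).deg p := by
  have hR : SqR Γ i j e p v → (xg Γ).av p (i e, true) := by
    rintro ⟨u', v', h1, -, -⟩
    exact dtw_av (LG.step_true.2 h1)
  have hL : SqL Γ i j e p v → (xg Γ).av p (i e, false) := by
    rintro ⟨u', v', h1, -, -⟩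
    exact dtw_av (LG.step_false.2 h1)
  rcases pass_t h hf with ⟨h1, h2⟩ | ⟨h1, h2⟩
  · exact dtw_two (hR h1) (hL h2) (by simp)
  · obtain ⟨l, M, hM⟩ := List.exists_cons_of_ne_nil (dtw_len hW e)
    have h3 : l.1 ≠ i e := hW.fst e l (by rw [hM]; rfl)
    have h4 : (xg Γ).av p l := by
      unfold relA at h2
      rw [hM, List.map_cons, List.cons_append, LG.walk_cons] at h2
      obtain ⟨x, hx, -⟩ := h2
      exact dtw_av hx
    rcases h1 with h1 | h1
    · refine dtw_two h4 (hR h1) ?_
      intro h5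
      exact h3 (by rw [h5])
    · refine dtw_two h4 (hL h1) ?_
      intro h5
      exact h3 (by rw [h5])

private theorem dtw_in [Fintype X] {L : ℕ} (hW : GenB W i j L)
    (h : NoFree Γ (relR W i j)) {p u : V} {e : E} (hf : (u, Sum.inr e, p) ∈ Γ.F) :
    2 ≤ (xg Γ).deg p := by
  have hR : SqR Γ i j e u p → (xg Γ).av p (j e, true) := by
    rintro ⟨u', v', -, h1, -⟩
    exact dtw_av (LG.step_true.2 h1)
  have hL : SqL Γ i j e u p → (xg Γ).av p (j e, false) := by
    rintro ⟨u', v', -, h1, -⟩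
    exact dtw_av (LG.step_false.2 h1)
  rcases pass_t h hf with ⟨h1, h2⟩ | ⟨h1, h2⟩
  · exact dtw_two (hR h1) (hL h2) (by simp)
  · obtain ⟨M, l, hM⟩ := (List.eq_nil_or_concat (W e)).resolve_left (dtw_len hW e)
    rw [List.concat_eq_append] at hM
    have h3 : l.1 ≠ j e := hW.lst e l (by rw [hM]; simp)
    have h4 : (xg Γ).av p (l.1, !l.2) := by
      unfold relA at h2
      rw [LG.walk_append] at h2
      obtain ⟨x, hx, hx'⟩ := h2
      rw [LG.walk_singleton, LG.step_false] at hx'
      obtain rfl := Γ.det hf hx'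
      rw [hM] at hx
      simp only [List.map_append, List.map_cons, List.map_nil] at hx
      rw [LG.walk_append] at hx
      obtain ⟨y, -, hy⟩ := hx
      rw [LG.walk_singleton] at hy
      exact dtw_av' hy
    rcases h1 with h1 | h1
    · refine dtw_two h4 (hR h1) ?_
      intro h5
      exact h3 (congrArg Prod.fst h5)
    · refine dtw_two h4 (hL h1) ?_
      intro h5
      exact h3 (congrArg Prod.fst h5)

private theorem dtw_split {S : Type*} {Δ : LG V S} {R : List (S × Bool)} {v₀ x y : V} {s : ℕ}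
    {l : S × Bool} (h : Δ.Walk v₀ R v₀) (hl : R[s]? = some l) (hx : Δ.Walk v₀ (R.take s) x)
    (hy : Δ.Step x l y) : Δ.Walk y (R.drop (s + 1)) v₀ := by
  obtain ⟨hs, hl'⟩ := List.getElem?_eq_some_iff.1 hl
  have h1 : R = R.take s ++ l :: R.drop (s + 1) := by
    conv_lhs => rw [← List.take_append_drop s R]
    rw [List.drop_eq_getElem_cons hs, hl']
  rw [h1, LG.walk_append] at h
  obtain ⟨x', hx', h2⟩ := h
  obtain rfl := LG.walk_det hx hx'
  obtain ⟨y', hy', h3⟩ := h2
  obtain rfl := LG.step_det hy hy'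
  exact h3

private theorem dtw_next {S : Type*} {Δ : LG V S} {R : List (S × Bool)} {v₀ x y : V} {s : ℕ}
    {l l' : S × Bool} (h : Δ.Walk v₀ R v₀) (hl : R[s]? = some l)
    (hx : Δ.Walk v₀ (R.take s) x) (hy : Δ.Step x l y) (hl' : R[s + 1]? = some l') :
    ∃ y', Δ.Step y l' y' := by
  have h1 := dtw_split h hl hx hy
  obtain ⟨hs, hl''⟩ := List.getElem?_eq_some_iff.1 hl'
  rw [List.drop_eq_getElem_cons hs, hl'', LG.walk_cons] at h1
  obtain ⟨y', hy', -⟩ := h1
  exact ⟨y', hy'⟩

private theorem dtw_prev {S : Type*} {Δ : LG V S} {R : List (S × Bool)} {v₀ x : V} {s : ℕ}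
    {l' : S × Bool} (hx : Δ.Walk v₀ (R.take (s + 1)) x) (hl' : R[s]? = some l') :
    ∃ x', Δ.Step x' l' x := by
  rw [List.take_add_one, hl', Option.toList_some, LG.walk_append] at hx
  obtain ⟨x', -, h1⟩ := hx
  exact ⟨x', LG.walk_singleton.1 h1⟩

private theorem dtw_edg {x y p : V} {l : (X ⊕ E) × Bool} {f : V × (X ⊕ E) × V}
    (h : edg x l y = f) (hp : f.1 = p ∨ f.2.2 = p) : x = p ∨ y = p := by
  unfold edg at h
  split at h
  · rw [← h] at hp
    exact hp
  · rw [← h] at hp
    exact hp.symm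

/-- a step with a letter of `E` is an edge with a label in `E` -/
private theorem dtw_t {x y p : V} {e : E} {b : Bool}
    (hno : ∀ (e : E) (v : V), (p, Sum.inr e, v) ∉ Γ.F ∧ (v, Sum.inr e, p) ∉ Γ.F)
    (h : Γ.Step x (Sum.inr e, b) y) (hp : x = p ∨ y = p) : False := by
  cases b
  · rw [LG.step_false] at h
    rcases hp with rfl | rfl
    · exact (hno e _).2 h
    · exact (hno e _).1 h
  · rw [LG.step_true] at h
    rcases hp with rfl | rfl
    · exact (hno e _).1 h
    · exact (hno e _).2 h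

/-- two consecutive letters of `W e` at `p` -/
private theorem dtw_cons [Fintype X] {x p y : V} {e : E} {s : ℕ} {a b : X × Bool}
    (hr : Rdc (W e)) (ha : (W e)[s]? = some a) (hb : (W e)[s + 1]? = some b)
    (hx : Γ.Step x (Sum.inl a.1, a.2) p) (hy : Γ.Step p (Sum.inl b.1, b.2) y) :
    2 ≤ (xg Γ).deg p := by
  have h1 := hr s a b ha hb
  refine dtw_two (dtw_av' hx) (dtw_av hy) ?_
  intro h2
  exact h1 h2.symm

private theorem dtw_a [Fintype X] {L : ℕ} (hW : GenB W i j L) {p v₀ x y : V} {e : E} {s : ℕ}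
    {l : (X ⊕ E) × Bool}
    (hno : ∀ (e : E) (v : V), (p, Sum.inr e, v) ∉ Γ.F ∧ (v, Sum.inr e, p) ∉ Γ.F)
    (hw : Γ.Walk v₀ (relA W e) v₀) (hl : (relA W e)[s]? = some l)
    (hx : Γ.Walk v₀ ((relA W e).take s) x) (hy : Γ.Step x l y) (hp : x = p ∨ y = p) :
    2 ≤ (xg Γ).deg p := by
  have hlen : (relA W e).length = (W e).length + 1 := by simp [relA]
  have hlt : ∀ r < (W e).length, (relA W e)[r]? =
      ((W e)[r]?).map fun l => (Sum.inl l.1, l.2) := by
    intro r hr
    unfold relA
    rw [List.getElem?_append_left (by simpa using hr), List.getElem?_map]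
  have hla : (relA W e)[(W e).length]? = some (Sum.inr e, false) := by
    unfold relA
    rw [List.getElem?_append_right (by simp)]
    simp
  have hs : s < (W e).length + 1 := by
    obtain ⟨h1, -⟩ := List.getElem?_eq_some_iff.1 hl
    rw [hlen] at h1
    exact h1
  rcases Nat.lt_or_ge s (W e).length with hs' | hs'
  · have h1 : ∃ a, (W e)[s]? = some a := ⟨_, List.getElem?_eq_getElem hs'⟩
    obtain ⟨a, ha⟩ := h1
    rw [hlt s hs', ha] at hl
    have hl' : l = (Sum.inl a.1, a.2) := by simpa using hl.symm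
    subst hl'
    rcases hp with rfl | rfl
    · cases s with
      | zero =>
        exfalso
        have h2 : v₀ = x := by simpa using hx
        subst h2
        unfold relA at hw
        rw [LG.walk_append] at hw
        obtain ⟨x', -, hx'⟩ := hw
        rw [LG.walk_singleton] at hx'
        exact dtw_t hno hx' (Or.inr rfl)
      | succ s =>
        have h2 : s < (W e).length := by omega
        obtain ⟨b, hb⟩ : ∃ b, (W e)[s]? = some b := ⟨_, List.getElem?_eq_getElem h2⟩
        have h3 : (relA W e)[s]? = some (Sum.inl b.1, b.2) := by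
          rw [hlt s h2, hb]
          rfl
        obtain ⟨x', hx'⟩ := dtw_prev hx h3
        exact dtw_cons (hW.red e) hb ha hx' hy
    · rcases Nat.lt_or_ge (s + 1) (W e).length with h2 | h2
      · obtain ⟨b, hb⟩ : ∃ b, (W e)[s + 1]? = some b := ⟨_, List.getElem?_eq_getElem h2⟩
        have h3 : (relA W e)[s + 1]? = some (Sum.inl b.1, b.2) := by
          rw [hlt (s + 1) h2, hb]
          rfl
        have h4 : (relA W e)[s]? = some (Sum.inl a.1, a.2) := by
          rw [hlt s hs', ha]
          rfl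
        obtain ⟨y', hy'⟩ := dtw_next hw h4 hx hy h3
        exact dtw_cons (hW.red e) ha hb hy hy'
      · exfalso
        have h3 : s + 1 = (W e).length := by omega
        have h4 : (relA W e)[s]? = some (Sum.inl a.1, a.2) := by
          rw [hlt s hs', ha]
          rfl
        obtain ⟨y', hy'⟩ := dtw_next hw h4 hx hy (by rw [h3]; exact hla)
        exact dtw_t hno hy' (Or.inl rfl)
  · exfalso
    have h1 : s = (W e).length := by omega
    rw [h1, hla] at hl
    have h2 : l = (Sum.inr e, false) := by simpa using hl.symm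
    subst h2
    exact dtw_t hno hy hp

private theorem dtw_b {p v₀ x y : V} {e : E} {s : ℕ} {l : (X ⊕ E) × Bool}
    (hno : ∀ (e : E) (v : V), (p, Sum.inr e, v) ∉ Γ.F ∧ (v, Sum.inr e, p) ∉ Γ.F)
    (hw : Γ.Walk v₀ (relB i j e) v₀) (hl : (relB i j e)[s]? = some l)
    (hx : Γ.Walk v₀ ((relB i j e).take s) x) (hy : Γ.Step x l y) (hp : x = p ∨ y = p) :
    False := by
  obtain ⟨a, h1, b, h2, c, h3, d, h4, h5⟩ := hw
  have h5' : d = v₀ := h5
  subst h5'
  match s with
  | 0 =>
    have e1 : d = x := by simpa [relB] using hx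
    have e2 : l = (Sum.inr e, true) := by simpa [relB] using hl.symm
    subst e1 e2
    exact dtw_t hno hy hp
  | 1 =>
    have e1 : Γ.Walk d [(Sum.inr e, true)] x := by simpa [relB] using hx
    have e2 : l = (Sum.inl (j e), true) := by simpa [relB] using hl.symm
    rw [LG.walk_singleton] at e1
    obtain rfl := LG.step_det h1 e1
    subst e2
    obtain rfl := LG.step_det h2 hy
    rcases hp with rfl | rfl
    · exact dtw_t hno h1 (Or.inr rfl)
    · exact dtw_t hno h3 (Or.inl rfl)
  | 2 =>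
    have e2 : l = (Sum.inr e, false) := by simpa [relB] using hl.symm
    subst e2
    exact dtw_t hno hy hp
  | 3 =>
    have e1 : Γ.Walk d [(Sum.inr e, true), (Sum.inl (j e), true), (Sum.inr e, false)] x := by
      simpa [relB] using hx
    have e2 : l = (Sum.inl (i e), false) := by simpa [relB] using hl.symm
    obtain ⟨a', g1, b', g2, c', g3, g4⟩ := e1
    have g4' : c' = x := g4
    subst g4'
    obtain rfl := LG.step_det h1 g1
    obtain rfl := LG.step_det h2 g2
    obtain rfl := LG.step_det h3 g3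
    subst e2
    obtain rfl := LG.step_det h4 hy
    rcases hp with rfl | rfl
    · exact dtw_t hno h3 (Or.inr rfl)
    · exact dtw_t hno h1 (Or.inl rfl)
  | n + 4 =>
    simp [relB] at hl

theorem deg_twoB [Fintype V] [Fintype X] {L : ℕ} (hW : GenB W i j L)
    (h : NoFree Γ (relR W i j)) {p : V} (hp : p ∈ supp Γ) : 2 ≤ (xg Γ).deg p := by
  by_cases hno : ∀ (e : E) (v : V), (p, Sum.inr e, v) ∉ Γ.F ∧ (v, Sum.inr e, p) ∉ Γ.F
  · have hp' : ∃ f ∈ Γ.F, f.1 = p ∨ f.2.2 = p := by
      simpa [supp] using hp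
    obtain ⟨f, hf, hfp⟩ := hp'
    obtain ⟨⟨v₀, z, s⟩, -, -, ⟨hw, x, y, l, hl, hx, hy, he⟩, -⟩ := h f hf
    have hxy := dtw_edg he hfp
    cases z with
    | inl e => exact dtw_a hW hno hw hl hx hy hxy
    | inr e => exact (dtw_b hno hw hl hx hy hxy).elim
  · push Not at hno
    obtain ⟨e, v, h1⟩ := hno
    by_cases h2 : (p, Sum.inr e, v) ∈ Γ.F
    · exact dtw_out hW h h2
    · exact dtw_in hW h (h1 h2)

end Pool.Agent.RibS
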