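import Pool.Agent.Lib.RibS.Defs
import Pool.Agent.Lib.RIB.RTail

/-!
# Random ribbon disc groups, second version : module ExpTup

(helper74, problem MP_cf50d6_gt; paper MP_cf50d6_gt_rib50b.md, Lemma 7)
Markov's inequality for the number of blocks of two letters with a property, for tuples of reduced words; from
`RIB.tail_ge`, `RIB.tail_le` (`Lib/RIB/RTail.lean`). First theorem: `θ = 2`, `lam = 1 + Np / q^2`; second one:
`θ = 9/10`, `lam = 1 - (q - 1) / (10 q^2)`.
-/

set_option autoImplicit false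

open scoped Classical

namespace Pool.Agent.RibS

open Pool.Agent.LIA Pool.Agent.RibLI

/-- the first letter of a block is `z` -/
def PF {n : ℕ} (z x _y : RIB.Lt n) : Prop := x = z

/-- the two forms of the number of blocks -/
theorem exptup_cnt_sum {E : Type*} [Fintype E] (N : ℕ) (P : E → ℕ → Prop) :
    cnt N P = ∑ e, ((Finset.range N).filter fun i => P e i).card := by
  unfold cnt
  simp only [Finset.card_filter]
  rw [Finset.sum_product]

theorem exptup_cnt {n m : ℕ} (d : RIB.Lt n) (P : RIB.Lt n → RIB.Lt n → Prop) (p B : ℕ)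
    (W : Fin m → List (RIB.Lt n)) :
    cnt B (fun e i => P ((W e).getD (p + 2 * i) d) ((W e).getD (p + 2 * i + 1) d)) =
      RIB.cnt d P p B W := by
  rw [exptup_cnt_sum]
  rfl

theorem exptup_pairs_le {n : ℕ} (P : RIB.Lt n → RIB.Lt n → Prop) (c : RIB.Lt n) :
    RIB.pairs P c ≤ (Finset.univ.filter fun x : RIB.Lt n × RIB.Lt n => P x.1 x.2).card := by
  unfold RIB.pairs
  rw [← Finset.card_sigma]
  refine Finset.card_le_card_of_injOn (fun x => (x.2, x.1)) ?_ ?_
  · rintro ⟨b, a⟩ h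
    rw [Finset.mem_coe, Finset.mem_sigma] at h
    exact Finset.mem_coe.2 (Finset.mem_filter.2 ⟨Finset.mem_univ _, (Finset.mem_filter.1 h.2).2⟩)
  · rintro ⟨b, a⟩ _ ⟨b', a'⟩ _ h
    rw [Prod.ext_iff] at h
    simp only at h
    obtain ⟨rfl, rfl⟩ := h
    rfl

theorem exptup_pairs_first {n : ℕ} (z c : RIB.Lt n) :
    2 * n - 2 ≤ RIB.pairs (PF z) c := by
  unfold RIB.pairs
  have h1 : ∀ b ∈ RIB.bef c, (if z ∈ RIB.bef b then 1 else 0) ≤
      ((RIB.bef b).filter fun a => PF z a b).card := by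
    intro b _
    split_ifs with hz
    · rw [Nat.one_le_iff_ne_zero, ← Nat.pos_iff_ne_zero, Finset.card_pos]
      exact ⟨z, Finset.mem_filter.2 ⟨hz, rfl⟩⟩
    · exact Nat.zero_le _
  refine le_trans ?_ (Finset.sum_le_sum h1)
  rw [← Finset.sum_filter, Finset.sum_const, smul_eq_mul, mul_one]
  have hmem : ∀ {a c : RIB.Lt n}, a ∈ RIB.bef c ↔ (a.1 = c.1 → a.2 = c.2) := by
    intro a c
    unfold RIB.bef
    rw [Finset.mem_filter, FreeGroup.isReduced_cons_cons]
    constructor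
    · exact fun h => h.2.1
    · exact fun h => ⟨Finset.mem_univ _, h, FreeGroup.IsReduced.singleton⟩
  have h2 : (RIB.bef c).erase (linv z) ⊆ (RIB.bef c).filter fun b => z ∈ RIB.bef b := by
    intro b hb
    rw [Finset.mem_erase] at hb
    refine Finset.mem_filter.2 ⟨hb.2, hmem.2 fun h => ?_⟩
    by_contra h3
    apply hb.1
    unfold linv
    refine Prod.ext h.symm ?_
    revert h3
    cases z.2 <;> cases b.2 <;> simp
  have h3 := Finset.card_le_card h2
  have h4 := Finset.pred_card_le_card_erase (s := RIB.bef c) (a := linv z)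
  rw [RIB.card_bef] at h4
  omega

theorem markov_up {n m l B p Np y : ℕ} (hn : 2 ≤ n) (hl : p + 2 * B + 1 ≤ l) (d : RIB.Lt n)
    (P : RIB.Lt n → RIB.Lt n → Prop)
    (hP : (Finset.univ.filter fun x : RIB.Lt n × RIB.Lt n => P x.1 x.2).card ≤ Np) :
    (((Fintype.piFinset fun _ : Fin m => RIB.RW n l).filter fun W =>
        y < cnt B (fun e i => P ((W e).getD (p + 2 * i) d) ((W e).getD (p + 2 * i + 1) d))).card : ℝ) *
      2 ^ y ≤ (1 + (Np : ℝ) / ((2 * n - 1 : ℕ) : ℝ) ^ 2) ^ (m * B) *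
        (Fintype.piFinset fun _ : Fin m => RIB.RW n l).card := by
  have hα : ∀ c, (RIB.pairs P c : ℝ) ≤ (Np : ℝ) := by
    intro c
    exact_mod_cast (exptup_pairs_le P c).trans hP
  have hβ := RIB.beta_ge P (θ := 2) (by norm_num) (by omega) hα
  have h1 := RIB.tail_ge (m := m) d P 2 _ (by norm_num) hβ hl y
  have h2 : (1 + (2 - 1) * (Np : ℝ) / ((2 * n - 1 : ℕ) : ℝ) ^ 2) =
      1 + (Np : ℝ) / ((2 * n - 1 : ℕ) : ℝ) ^ 2 := by ring
  rw [h2, mul_comm B m] at h1
  refine le_trans (mul_le_mul_of_nonneg_right ?_ (by positivity)) h1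
  rw [Nat.cast_le]
  refine Finset.card_le_card fun W hW => ?_
  rw [Finset.mem_filter] at hW ⊢
  refine ⟨hW.1, ?_⟩
  have h3 := hW.2
  rw [exptup_cnt] at h3
  exact h3.le

/-- the number of the blocks which begin with `x` -/
theorem markov_down {n m l B p y : ℕ} (hn : 2 ≤ n) (hl : p + 2 * B + 1 ≤ l) (d : RIB.Lt n)
    (x : RIB.Lt n) :
    (((Fintype.piFinset fun _ : Fin m => RIB.RW n l).filter fun W =>
        cnt B (fun e i => (W e).getD (p + 2 * i) d = x) < y).card : ℝ) * (9 / 10) ^ y ≤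
      (1 - ((2 * n - 2 : ℕ) : ℝ) / (10 * ((2 * n - 1 : ℕ) : ℝ) ^ 2)) ^ (m * B) *
        (Fintype.piFinset fun _ : Fin m => RIB.RW n l).card := by
  have hα : ∀ c, ((2 * n - 2 : ℕ) : ℝ) ≤ (RIB.pairs (PF x) c : ℝ) := by
    intro c
    exact_mod_cast exptup_pairs_first x c
  have hβ := RIB.beta_le (PF x) (θ := 9 / 10) (by norm_num) (by omega) hα
  have h1 := RIB.tail_le (m := m) d (PF x) (9 / 10) _ (by norm_num)
    (by norm_num) hβ hl y
  have hq : (0 : ℝ) < ((2 * n - 1 : ℕ) : ℝ) ^ 2 := by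
    have : (0 : ℝ) < ((2 * n - 1 : ℕ) : ℝ) := by exact_mod_cast (by omega : 0 < 2 * n - 1)
    positivity
  have h2 : (1 + (9 / 10 - 1) * ((2 * n - 2 : ℕ) : ℝ) / ((2 * n - 1 : ℕ) : ℝ) ^ 2) =
      1 - ((2 * n - 2 : ℕ) : ℝ) / (10 * ((2 * n - 1 : ℕ) : ℝ) ^ 2) := by
    field_simp
    ring
  rw [h2, mul_comm B m] at h1
  refine le_trans (mul_le_mul_of_nonneg_right ?_ (by positivity)) h1
  rw [Nat.cast_le]
  refine Finset.card_le_card fun W hW => ?_
  rw [Finset.mem_filter] at hW ⊢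
  refine ⟨hW.1, ?_⟩
  have h3 := hW.2
  have h4 := exptup_cnt d (PF x) p B W
  exact (h4 ▸ (h3 : cnt B (fun e i => PF x ((W e).getD (p + 2 * i) d)
    ((W e).getD (p + 2 * i + 1) d)) < y)).le

end Pool.Agent.RibS
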