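import Pool.Agent.Lib.RibS.Defs
import Pool.Agent.Lib.RIB.RCard
import Pool.Agent.Lib.RIB.RMom

/-!
# Random ribbon disc groups, second version : module ExpWord

(problem MP_cf50d6_gt; paper MP_cf50d6_gt_rib50b.md)
Lemma 7 of the paper for one word: the exponential moment `RIB.moment` with the hypothesis as a sum over pairs of letters.
-/

set_option autoImplicit false

open scoped Classical

namespace Pool.Agent.RibS

open Pool.Agent.LIA Pool.Agent.RibLI

theorem mem_bef_iff {n : ℕ} {a c : RIB.Lt n} : a ∈ RIB.bef c ↔ a ≠ linv c := by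
  unfold RIB.bef
  rw [Finset.mem_filter, FreeGroup.isReduced_cons_cons]
  obtain ⟨a1, a2⟩ := a
  obtain ⟨c1, c2⟩ := c
  simp only [Finset.mem_univ, true_and, FreeGroup.IsReduced.singleton, and_true, linv, ne_eq,
    Prod.mk.injEq, not_and]
  constructor
  · intro h h1 h2
    have := h h1
    rw [this] at h2
    cases c2 <;> simp at h2
  · intro h h1
    have := h h1
    cases a2 <;> cases c2 <;> simp at this ⊢

theorem exp_word {n : ℕ} (hn : 1 ≤ n) (d : RIB.Lt n) (φ : RIB.Lt n → RIB.Lt n → ℝ)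
    (h0 : ∀ b c, 0 ≤ φ b c) (lam : ℝ)
    (hφ : ∀ a : RIB.Lt n, (∑ x ∈ Finset.univ.filter fun x : RIB.Lt n × RIB.Lt n =>
      x.2 ≠ linv a ∧ x.1 ≠ linv x.2, φ x.1 x.2) ≤ lam * ((2 * n - 1 : ℕ) : ℝ) ^ 2)
    (B p l : ℕ) (hl : p + 2 * B + 1 ≤ l) :
    (∑ w ∈ RIB.RW n l, ∏ i ∈ Finset.range B, φ (w.getD (p + 2 * i) d) (w.getD (p + 2 * i + 1) d)) ≤
      lam ^ B * (RIB.RW n l).card := by
  refine RIB.moment φ h0 lam d (fun c => ?_) hl
  refine le_trans (le_of_eq ?_) (hφ c)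
  have h1 : (Finset.univ.filter fun x : RIB.Lt n × RIB.Lt n => x.2 ≠ linv c ∧ x.1 ≠ linv x.2) =
      ((RIB.bef c).sigma fun b => RIB.bef b).map
        ⟨fun s : (Σ _ : RIB.Lt n, RIB.Lt n) => (s.2, s.1), by
          rintro ⟨a, b⟩ ⟨a', b'⟩ h
          simp only [Prod.mk.injEq] at h
          obtain ⟨h1, h2⟩ := h
          subst h1 h2
          rfl⟩ := by
    ext ⟨a, b⟩
    simp only [Finset.mem_filter, Finset.mem_univ, true_and, Finset.mem_map, Finset.mem_sigma,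
      mem_bef_iff, Function.Embedding.coeFn_mk, Prod.mk.injEq]
    constructor
    · rintro ⟨h1, h2⟩
      exact ⟨⟨b, a⟩, ⟨h1, h2⟩, rfl⟩
    · rintro ⟨⟨b', a'⟩, ⟨h1, h2⟩, h3⟩
      obtain ⟨h4, h5⟩ := Prod.mk.inj h3
      subst h4 h5
      exact ⟨h1, h2⟩
  rw [h1, Finset.sum_map, Finset.sum_sigma]
  rfl

end Pool.Agent.RibS
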