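import Pool.Agent.Lib.RibS.Defs
import Pool.Agent.Lib.RibS.Cnt

/-!
# Random ribbon disc groups, second version : module GoodStat

(problem MP_cf50d6_gt; paper MP_cf50d6_gt_rib50b.md)
Lemma 5 of the paper. Notation there; everything is in natural numbers. `hm : m + 1 = n` is used in the case `n < |Q|`.
-/

set_option autoImplicit false

open scoped Classical

namespace Pool.Agent.RibS

open Pool.Agent.LIA Pool.Agent.RibLI

private theorem GoodStat_linv {X : Type*} (a b : X × Bool) : linv a = b ↔ a = linv b := by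
  obtain ⟨a1, a2⟩ := a
  obtain ⟨b1, b2⟩ := b
  simp only [linv, Prod.mk.injEq]
  constructor
  · rintro ⟨h1, h2⟩
    refine ⟨h1, ?_⟩
    rw [← h2]
    simp
  · rintro ⟨h1, h2⟩
    refine ⟨h1, ?_⟩
    rw [h2]
    simp

private theorem GoodStat_pair {n m : ℕ} {T₁ : ℕ} {d : RIB.Lt n} {W : Fin m → List (RIB.Lt n)}
    (h : Good T₁ d W) (b c : RIB.Lt n) :
    cnt (800 * T₁ + 17) (fun e r => (W e).getD (15 + r) d = b ∧ (W e).getD (15 + (r + 1)) d = c) ≤
      2 * T₁ := by
  refine (cnt_mono (N' := 2 * (400 * T₁ + 10)) (by omega) (fun e r _ hp => hp)).trans ?_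
  rw [cnt_two_mul]
  have h0 := h.N 0 (by norm_num) b c
  have h1 := h.N 1 (by norm_num) b c
  have e0 : cnt (400 * T₁ + 10) (fun (e : Fin m) i => (W e).getD (15 + 2 * i) d = b ∧
      (W e).getD (15 + (2 * i + 1)) d = c) ≤ T₁ := by
    refine le_trans (le_of_eq (cnt_congr fun e r _ => ?_)) h0
    rw [show 15 + (2 * r + 1) = 15 + 0 + 2 * r + 1 by ring, show 15 + 2 * r = 15 + 0 + 2 * r by ring]
  have e1 : cnt (400 * T₁ + 10) (fun (e : Fin m) i => (W e).getD (15 + (2 * i + 1)) d = b ∧
      (W e).getD (15 + (2 * i + 1 + 1)) d = c) ≤ T₁ := by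
    refine le_trans (le_of_eq (cnt_congr fun e r _ => ?_)) h1
    rw [show 15 + (2 * r + 1 + 1) = 15 + 1 + 2 * r + 1 by ring,
      show 15 + (2 * r + 1) = 15 + 1 + 2 * r by ring]
  omega

/-- both parities of (O) at the letters `r` of the window -/
private theorem GoodStat_O {n m : ℕ} {T₁ : ℕ} {d : RIB.Lt n} {W : Fin m → List (RIB.Lt n)}
    (h : Good T₁ d W) (x : RIB.Lt n) :
    360 * T₁ ≤ cnt (800 * T₁) (fun e r => (W e).getD (15 + r) d = x) := by
  rcases Nat.eq_zero_or_pos T₁ with h0 | hpos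
  · subst h0; simp
  have o0 := h.O 0 (by norm_num) x
  have o1 := h.O 1 (by norm_num) x
  rw [show 800 * T₁ = 2 * (400 * T₁) by ring, cnt_two_mul]
  have e0 : 180 * T₁ ≤ cnt (400 * T₁) (fun (e : Fin m) i => (W e).getD (15 + (2 * i + 1)) d = x) := by
    refine o0.trans (cnt_mono (by omega) fun e r _ hp => ?_)
    rw [show 15 + (2 * r + 1) = 16 + 0 + 2 * r by ring]; exact hp
  have e1 : 180 * T₁ ≤ cnt (400 * T₁) (fun (e : Fin m) i => (W e).getD (15 + 2 * i) d = x) := by
    refine o1.trans (cnt_shift (a := 1) (by omega) fun e r _ hp => ?_)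
    rw [show 15 + 2 * (1 + r) = 16 + 1 + 2 * r by ring]; exact hp
  omega

private theorem GoodStat_O' {n m : ℕ} {T₁ : ℕ} {d : RIB.Lt n} {W : Fin m → List (RIB.Lt n)}
    (h : Good T₁ d W) (x : RIB.Lt n) :
    360 * T₁ ≤ cnt (800 * T₁) (fun e r => (W e).getD (15 + (r + 1)) d = x) := by
  have o0 := h.O 0 (by norm_num) x
  have o1 := h.O 1 (by norm_num) x
  rw [show 800 * T₁ = 2 * (400 * T₁) by ring, cnt_two_mul]
  have e0 : 180 * T₁ ≤ cnt (400 * T₁) (fun (e : Fin m) i => (W e).getD (15 + (2 * i + 1)) d = x) := by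
    refine o0.trans (cnt_mono (by omega) fun e r _ hp => ?_)
    rw [show 15 + (2 * r + 1) = 16 + 0 + 2 * r by ring]; exact hp
  have e1 : 180 * T₁ ≤ cnt (400 * T₁)
      (fun (e : Fin m) i => (W e).getD (15 + (2 * i + 1 + 1)) d = x) := by
    refine o1.trans (cnt_mono (by omega) fun e r _ hp => ?_)
    rw [show 15 + (2 * r + 1 + 1) = 16 + 1 + 2 * r by ring]; exact hp
  omega

/-- both parities of (C) -/
private theorem GoodStat_C {n m : ℕ} {T₁ : ℕ} {d : RIB.Lt n} {W : Fin m → List (RIB.Lt n)}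
    (h : Good T₁ d W) {M M' : Finset (RIB.Lt n)} (hM : M ⊆ M') (hc : M.card ≤ n) :
    cnt (800 * T₁) (fun e r => linv ((W e).getD (15 + r) d) ∈ M ∧
      (W e).getD (15 + (r + 1)) d ∈ M') ≤ 320 * T₁ * M'.card := by
  rcases M'.eq_empty_or_nonempty with h0 | hne
  · subst h0
    have : cnt (800 * T₁) (fun (e : Fin m) r => linv ((W e).getD (15 + r) d) ∈ M ∧
      (W e).getD (15 + (r + 1)) d ∈ (∅ : Finset (RIB.Lt n))) = 0 := by
      rw [cnt_eq_sum]
      refine Finset.sum_eq_zero fun e _ => Finset.sum_eq_zero fun r _ => ?_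
      rw [if_neg]
      rintro ⟨-, hp⟩
      simp at hp
    rw [this]
    exact Nat.zero_le _
  have c0 := h.C 0 (by norm_num) M M' hM hc hne
  have c1 := h.C 1 (by norm_num) M M' hM hc hne
  rw [show 800 * T₁ = 2 * (400 * T₁) by ring, cnt_two_mul]
  have e0 : cnt (400 * T₁) (fun (e : Fin m) i => linv ((W e).getD (15 + 2 * i) d) ∈ M ∧
      (W e).getD (15 + (2 * i + 1)) d ∈ M') ≤ 160 * T₁ * M'.card := by
    refine le_trans (le_of_eq (cnt_congr fun e r _ => ?_)) c0
    rw [show 15 + (2 * r + 1) = 15 + 0 + 2 * r + 1 by ring, show 15 + 2 * r = 15 + 0 + 2 * r by ring]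
  have e1 : cnt (400 * T₁) (fun (e : Fin m) i => linv ((W e).getD (15 + (2 * i + 1)) d) ∈ M ∧
      (W e).getD (15 + (2 * i + 1 + 1)) d ∈ M') ≤ 160 * T₁ * M'.card := by
    refine le_trans (le_of_eq (cnt_congr fun e r _ => ?_)) c1
    rw [show 15 + (2 * r + 1 + 1) = 15 + 1 + 2 * r + 1 by ring,
      show 15 + (2 * r + 1) = 15 + 1 + 2 * r by ring]
  have : 320 * T₁ * M'.card = 160 * T₁ * M'.card + 160 * T₁ * M'.card := by ring
  omega

theorem stat_of_good {n m T₁ : ℕ} (hm : m + 1 = n) {d : RIB.Lt n} {W : Fin m → List (RIB.Lt n)}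
    (h : Good T₁ d W) : Stat (fun e r => (W e).getD (15 + r) d) (800 * T₁) 17 (2 * T₁) := by
  refine ⟨fun b c => GoodStat_pair h b c, fun Q G hG hQ => ?_⟩
  have hg : G.card ≤ Q.card := Finset.card_le_card hG
  set F := cnt (800 * T₁) (fun (e : Fin m) r => linv ((W e).getD (15 + r) d) ∈ Q ∧
    (W e).getD (15 + (r + 1)) d ∈ Q ∧ (W e).getD (15 + (r + 1)) d ∉ G) with hF
  obtain ⟨k, hk⟩ : ∃ k, Q.card = k + 2 := ⟨Q.card - 2, by omega⟩
  rw [show Q.card - 2 = k by omega]
  rcases le_or_gt Q.card 100 with h100 | h100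
  · -- few letters
    have h1 : F ≤ Q.card * Q.card * (2 * T₁) := by
      have a1 : F ≤ cnt (800 * T₁) (fun (e : Fin m) r =>
          (linv ((W e).getD (15 + r) d), (W e).getD (15 + (r + 1)) d) ∈ Q ×ˢ Q) := by
        refine cnt_mono le_rfl fun e r _ hp => ?_
        rw [Finset.mem_product]
        exact ⟨hp.1, hp.2.1⟩
      rw [cnt_mem] at a1
      refine a1.trans ?_
      rw [← Finset.card_product]
      refine (Finset.sum_le_card_nsmul _ _ (2 * T₁) fun x _ => ?_).trans (le_of_eq (smul_eq_mul _ _))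
      refine le_trans (cnt_mono (N' := 800 * T₁ + 17) (by omega) fun e r _ hp => ?_)
        (GoodStat_pair h (linv x.1) x.2)
      have hp1 := congrArg Prod.fst hp
      have hp2 := congrArg Prod.snd hp
      exact ⟨(GoodStat_linv _ _).1 hp1, hp2⟩
    rw [hk] at h1 hg h100
    have h2 : 2 * (F + 17 * (2 * T₁) * G.card) ≤ T₁ * (4 * (k + 2) * (k + 2) + 68 * (k + 2)) := by
      have : 17 * (2 * T₁) * G.card ≤ 17 * (2 * T₁) * (k + 2) := Nat.mul_le_mul_left _ hg
      nlinarith
    refine h2.trans ?_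
    have h3 : 4 * (k + 2) * (k + 2) + 68 * (k + 2) ≤ 800 * k := by
      have hk1 : 1 ≤ k := by omega
      have hk2 : k ≤ 98 := by omega
      nlinarith [mul_le_mul hk2 hk1 (by norm_num) (by norm_num), Nat.mul_le_mul_right k hk2]
    calc T₁ * (4 * (k + 2) * (k + 2) + 68 * (k + 2)) ≤ T₁ * (800 * k) := Nat.mul_le_mul_left _ h3
      _ = 800 * T₁ * k := by ring
  · rcases le_or_gt Q.card n with hn | hn
    · -- at most n letters
      have h1 : F ≤ 320 * T₁ * Q.card := by
        refine le_trans (cnt_mono le_rfl fun e r _ hp => ?_)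
          (GoodStat_C h (Finset.Subset.refl Q) hn)
        exact ⟨hp.1, hp.2.1⟩
      rw [hk] at h1 hg h100
      have h2 : 17 * (2 * T₁) * G.card ≤ 17 * (2 * T₁) * (k + 2) := Nat.mul_le_mul_left _ hg
      have h3 : 708 * (k + 2) ≤ 800 * k := by omega
      calc 2 * (F + 17 * (2 * T₁) * G.card) ≤ 2 * (320 * T₁ * (k + 2) + 17 * (2 * T₁) * (k + 2)) := by
            omega
        _ = T₁ * (708 * (k + 2)) := by ring
        _ ≤ T₁ * (800 * k) := Nat.mul_le_mul_left _ h3
        _ = 800 * T₁ * k := by ring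
    · -- more than n letters
      set M : Finset (RIB.Lt n) := Qᶜ with hM
      have hcard : Q.card + M.card = 2 * n := by
        rw [hM, Finset.card_add_card_compl]
        simp [Nat.mul_comm]
      have hdis : Disjoint M G := by
        rw [Finset.disjoint_left]
        intro x hx hx'
        rw [hM, Finset.mem_compl] at hx
        exact hx (hG hx')
      have hM' : (M ∪ G).card = M.card + G.card := Finset.card_union_of_disjoint hdis
      -- alpha
      have ha : 360 * T₁ * M.card ≤ cnt (800 * T₁)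
          (fun (e : Fin m) r => linv ((W e).getD (15 + r) d) ∈ M) := by
        rw [cnt_mem (800 * T₁) (fun (e : Fin m) r => linv ((W e).getD (15 + r) d)) M, mul_comm]
        refine (le_of_eq (smul_eq_mul _ _).symm).trans
          (Finset.card_nsmul_le_sum _ _ (360 * T₁) fun x _ => ?_)
        refine (GoodStat_O h (linv x)).trans (le_of_eq (cnt_congr fun e r _ => ?_))
        exact (GoodStat_linv _ _).symm
      have hb : 360 * T₁ * (M ∪ G).card ≤ cnt (800 * T₁)
          (fun (e : Fin m) r => (W e).getD (15 + (r + 1)) d ∈ M ∪ G) := by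
        rw [cnt_mem (800 * T₁) (fun (e : Fin m) r => (W e).getD (15 + (r + 1)) d) (M ∪ G), mul_comm]
        exact (le_of_eq (smul_eq_mul _ _).symm).trans
          (Finset.card_nsmul_le_sum _ _ (360 * T₁) fun x _ => GoodStat_O' h x)
      have hc := GoodStat_C h (M := M) (M' := M ∪ G) Finset.subset_union_left (by omega)
      have i1 := cnt_or_add_and (800 * T₁) (fun (e : Fin m) r => linv ((W e).getD (15 + r) d) ∈ M)
        (fun (e : Fin m) r => (W e).getD (15 + (r + 1)) d ∈ M ∪ G)
      have i2 := cnt_add_not (800 * T₁) (fun (e : Fin m) r => linv ((W e).getD (15 + r) d) ∈ M ∨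
        (W e).getD (15 + (r + 1)) d ∈ M ∪ G)
      have i3 : cnt (800 * T₁) (fun (e : Fin m) r => ¬ (linv ((W e).getD (15 + r) d) ∈ M ∨
        (W e).getD (15 + (r + 1)) d ∈ M ∪ G)) = F := by
        rw [hF]
        refine cnt_congr fun e r _ => ?_
        rw [hM]
        simp only [Finset.mem_union, Finset.mem_compl]
        tauto
      rw [i3, Fintype.card_fin] at i2
      rw [hM'] at hb hc
      generalize cnt (800 * T₁) (fun (e : Fin m) r => linv ((W e).getD (15 + r) d) ∈ M) = α at *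
      generalize cnt (800 * T₁) (fun (e : Fin m) r => (W e).getD (15 + (r + 1)) d ∈ M ∪ G) = β at *
      generalize cnt (800 * T₁) (fun (e : Fin m) r => linv ((W e).getD (15 + r) d) ∈ M ∧
        (W e).getD (15 + (r + 1)) d ∈ M ∪ G) = γ at *
      generalize cnt (800 * T₁) (fun (e : Fin m) r => linv ((W e).getD (15 + r) d) ∈ M ∨
        (W e).getD (15 + (r + 1)) d ∈ M ∪ G) = δ at *
      have hkm : k + M.card = 2 * m := by omega
      have e1 : T₁ * (k + M.card) = T₁ * (2 * m) := by rw [hkm]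
      have p1 : 360 * T₁ * M.card = 360 * (T₁ * M.card) := by ring
      have p2 : 360 * T₁ * (M.card + G.card) = 360 * (T₁ * M.card) + 360 * (T₁ * G.card) := by ring
      have p3 : 320 * T₁ * (M.card + G.card) = 320 * (T₁ * M.card) + 320 * (T₁ * G.card) := by ring
      have p4 : m * (800 * T₁) = 800 * (T₁ * m) := by ring
      have p5 : T₁ * (k + M.card) = T₁ * k + T₁ * M.card := by ring
      have p6 : T₁ * (2 * m) = 2 * (T₁ * m) := by ring
      have p7 : 17 * (2 * T₁) * G.card = 34 * (T₁ * G.card) := by ring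
      have p8 : 800 * T₁ * k = 800 * (T₁ * k) := by ring
      rw [p7, p8]
      rw [p1] at ha
      rw [p2] at hb
      rw [p3] at hc
      rw [p4] at i2
      rw [p5, p6] at e1
      omega

end Pool.Agent.RibS
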