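import Pool.Agent.Lib.RibS.Defs
import Pool.Agent.Lib.RibS.Count
import Pool.Agent.Lib.RibS.DegTwo
import Pool.Agent.Lib.RibS.Deep
import Pool.Agent.Lib.RibLI.D1
import Pool.Agent.Lib.RibLI.D2
import Pool.Agent.Lib.RibLI.D7

/-!
# Random ribbon disc groups, second version : module NoFr

(problem MP_cf50d6_gt; paper MP_cf50d6_gt_rib50b.md)
As RibLI/D9 (`nofree_count`) : `count_stat` for `xg Γ`, `w e = lw (W e) d`, `N e = (W e).length`,
`A e = {v | Γ.Walk v (relA W e) v}`, `S = L + 2`, `M = (one Γ i j) × Bool`, with `card_B`, `card_X`, `deg_twoB`, `deep`;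
`uniq` from `hW.occ` (`L ≤ S`), `rd` from `polyA_iff`.
-/

set_option autoImplicit false

open scoped Classical

namespace Pool.Agent.RibS

open Pool.Agent.LIA Pool.Agent.RibLI

variable {V X E : Type*} {Γ : LG V (X ⊕ E)} {W : E → List (X × Bool)} {i j : E → X}

/-- the letters of a word, inside its range -/
theorem nofr_lw {X : Type*} (u : List (X × Bool)) (d : X × Bool) {s : ℕ} (hs : s < u.length) :
    u[s]? = some (lw u d s) := by
  unfold lw
  rw [List.getElem?_eq_getElem hs, List.getD_eq_getElem _ _ hs]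

/-- a readable letter shows that the vertex is on an edge -/
theorem nofr_supp [Fintype V] {v : V} {l : X × Bool} (h : (xg Γ).av v l) : v ∈ supp Γ := by
  obtain ⟨v', h'⟩ := h
  obtain ⟨x, b⟩ := l
  unfold supp
  refine Finset.mem_filter.2 ⟨Finset.mem_univ _, ?_⟩
  cases b
  · exact ⟨_, h', Or.inr rfl⟩
  · exact ⟨_, h', Or.inl rfl⟩

/-- the number of the polygons -/
theorem nofr_polys [Fintype V] [Fintype E] :
    (polys Γ (relR W i j)).card = ∑ e, (Finset.univ.filter fun v => Γ.Walk v (relA W e) v).card +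
      (Finset.univ.filter fun p : V × E => Γ.Walk p.1 (relB i j p.2) p.1).card := by
  have h1 : polys Γ (relR W i j) =
      ((Finset.univ : Finset E).biUnion fun e =>
        (Finset.univ.filter fun v => Γ.Walk v (relA W e) v).image
          (fun v => ((v, Sum.inl e) : V × (E ⊕ E)))) ∪
      (Finset.univ.filter fun p : V × E => Γ.Walk p.1 (relB i j p.2) p.1).image
        (fun p => ((p.1, Sum.inr p.2) : V × (E ⊕ E))) := by
    ext p
    obtain ⟨v, z⟩ := p
    unfold polys
    rcases z with e | e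
    · simp only [Finset.mem_filter, Finset.mem_univ, true_and, Finset.mem_union,
        Finset.mem_biUnion, Finset.mem_image, relR, Sum.elim_inl]
      constructor
      · intro h
        exact Or.inl ⟨e, v, h, rfl⟩
      · rintro (⟨e', v', h, h'⟩ | ⟨p, h, h'⟩)
        · simp only [Prod.mk.injEq, Sum.inl.injEq] at h'
          obtain ⟨rfl, rfl⟩ := h'
          exact h
        · simp only [Prod.mk.injEq, reduceCtorEq, and_false] at h'
    · simp only [Finset.mem_filter, Finset.mem_univ, true_and, Finset.mem_union,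
        Finset.mem_biUnion, Finset.mem_image, relR, Sum.elim_inr]
      constructor
      · intro h
        exact Or.inr ⟨(v, e), h, rfl⟩
      · rintro (⟨e', v', h, h'⟩ | ⟨p, h, h'⟩)
        · simp only [Prod.mk.injEq, reduceCtorEq, and_false] at h'
        · simp only [Prod.mk.injEq, Sum.inr.injEq] at h'
          obtain ⟨rfl, rfl⟩ := h'
          exact h
  rw [h1, Finset.card_union_of_disjoint, Finset.card_biUnion, Finset.card_image_of_injective]
  · congr 1
    refine Finset.sum_congr rfl fun e _ => ?_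
    exact Finset.card_image_of_injective _ fun v v' h => (Prod.mk.injEq _ _ _ _ ▸ h).1
  · rintro ⟨v, e⟩ ⟨v', e'⟩ h
    simp only [Prod.mk.injEq, Sum.inr.injEq] at h
    exact Prod.ext h.1 h.2
  · intro e _ e' _ hne
    refine Finset.disjoint_left.2 fun p hp hp' => hne ?_
    obtain ⟨v, _, rfl⟩ := Finset.mem_image.1 hp
    obtain ⟨v', _, h'⟩ := Finset.mem_image.1 hp'
    simp only [Prod.mk.injEq, Sum.inl.injEq] at h'
    exact h'.2.symm
  · refine Finset.disjoint_left.2 fun p hp hp' => ?_
    obtain ⟨e, _, hp⟩ := Finset.mem_biUnion.1 hp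
    obtain ⟨v, _, rfl⟩ := Finset.mem_image.1 hp
    obtain ⟨p', _, h'⟩ := Finset.mem_image.1 hp'
    simp only [Prod.mk.injEq, reduceCtorEq, and_false] at h'

/-- the number of the edges -/
theorem nofr_edges [Fintype X] [Fintype E] :
    Γ.F.card = (Γ.F.filter fun f => ∃ x, f.2.1 = Sum.inl x).card +
    (Γ.F.filter fun f => ∃ e, f.2.1 = Sum.inr e).card := by
  have h1 : (Γ.F.filter fun f => ∃ e, f.2.1 = Sum.inr e) =
      Γ.F.filter fun f => ¬ ∃ x, f.2.1 = Sum.inl x := by
    refine Finset.filter_congr fun f _ => ?_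
    obtain ⟨u, z, v⟩ := f
    rcases z with x | e
    · simp
    · simp
  rw [h1, Finset.card_filter_add_card_filter_not]

theorem nofree_stat [Fintype V] [Fintype X] [Fintype E] {L T ν : ℕ} (hW : GenB W i j L)
    (hL : 1 ≤ L) (d : X × Bool) (o : E → ℕ) (hT : 8 * (L + 2) ≤ T)
    (room : ∀ e, o e + T + (L + 2) + 1 ≤ (W e).length)
    (st : Stat (fun e r => lw (W e) d (o e + r)) T (L + 2) ν)
    (h : NoFree Γ (relR W i j)) : (polys Γ (relR W i j)).card + (supp Γ).card ≤ Γ.F.card := by
  have hcx : Cx (xg Γ) (fun e => lw (W e) d) (fun e => (W e).length) o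
      (fun e => Finset.univ.filter fun v => Γ.Walk v (relA W e) v) T (L + 2) ν := by
    refine ⟨by omega, room, ?_, ?_, ?_, ?_, st⟩
    · intro e s hs
      exact hW.red e s _ _ (nofr_lw (W e) d (by omega)) (nofr_lw (W e) d hs)
    · intro e v hv
      exact ((polyA_iff e d v).1 (Finset.mem_filter.1 hv).2).1
    · intro e v hv s hs
      obtain ⟨h1, h2⟩ := (polyA_iff e d v).1 (Finset.mem_filter.1 hv).2
      refine deg_twoB hW h ?_
      rcases Nat.lt_or_ge s (W e).length with h3 | h3
      · exact nofr_supp (h1 s h3)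
      · have h4 : s = (W e).length := le_antisymm hs h3
        subst h4
        exact Finset.mem_filter.2 ⟨Finset.mem_univ _, _, h2, Or.inr rfl⟩
    · intro e e' t t' ht ht' hr
      refine hW.occ e e' t t' (by omega) (by omega) fun r hr' => ?_
      rw [nofr_lw (W e) d (by omega), nofr_lw (W e') d (by omega), hr r (by omega)]
  have hc := count_stat hcx hT
    (fun μ : {f // f ∈ one Γ i j} × Bool => if μ.2 then μ.1.1.1 else μ.1.1.2.2) (by
      intro e v hv t ht h2
      obtain ⟨s, hs1, hs2, f, hf, hf'⟩ := deep hW hL h d (Finset.mem_filter.1 hv).2 ht h2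
      rcases hf' with hf' | hf'
      · exact ⟨s, (⟨f, hf⟩, true), hs1, hs2, hf'⟩
      · exact ⟨s, (⟨f, hf⟩, false), hs1, hs2, hf'⟩)
  have hM : Fintype.card ({f // f ∈ one Γ i j} × Bool) = 2 * (one Γ i j).card := by
    rw [Fintype.card_prod, Fintype.card_bool, Fintype.card_coe, Nat.mul_comm]
  have hX := card_X (Γ := Γ)
  have hB := card_B h
  have hP := nofr_polys (Γ := Γ) (W := W) (i := i) (j := j)
  have hF := nofr_edges (Γ := Γ)
  have hS : ∑ x, ((xg Γ).deg x - 2) + 2 * (supp Γ).card = ∑ x, (xg Γ).deg x := by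
    have h1 : ∀ x, x ∉ supp Γ → (xg Γ).deg x = 0 := by
      intro x hx
      unfold XG.deg
      rw [Finset.card_eq_zero, Finset.filter_eq_empty_iff]
      intro l _ hl
      exact hx (nofr_supp hl)
    have h2 : ∑ x, ((xg Γ).deg x - 2) = ∑ x ∈ supp Γ, ((xg Γ).deg x - 2) := by
      refine (Finset.sum_subset (Finset.subset_univ _) fun x _ hx => ?_).symm
      rw [h1 x hx, Nat.zero_sub]
    have h3 : ∑ x, (xg Γ).deg x = ∑ x ∈ supp Γ, (xg Γ).deg x := by
      refine (Finset.sum_subset (Finset.subset_univ _) fun x _ hx => ?_).symm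
      exact h1 x hx
    rw [h2, h3, Nat.mul_comm, ← smul_eq_mul, ← Finset.sum_const, ← Finset.sum_add_distrib]
    refine Finset.sum_congr rfl fun x hx => ?_
    exact Nat.sub_add_cancel (deg_twoB hW h hx)
  rw [hM] at hc
  rw [hP, hF]
  omega

end Pool.Agent.RibS
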