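import Pool.Agent.Lib.RibS.Defs
import Pool.Agent.Lib.RibS.NoFr
import Pool.Agent.Lib.RibLI.A4
import Pool.Agent.Lib.MP_cf50d6_gt.Push

/-!
# Random ribbon disc groups, second version : module LiStat

(problem MP_cf50d6_gt; paper MP_cf50d6_gt_rib50b.md)
As RibLI/F1 (`li_gen`) : `li_of_nofree` for `relR W i j`, the group `Grp W i j` is (isomorphic to) that group.
-/

set_option autoImplicit false

open scoped Classical

namespace Pool.Agent.RibS

open Pool.Agent.LIA Pool.Agent.RibLI

variable {X E : Type}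

/-- the class of a word in `X` in a group with a map from the letters -/
private theorem LiStat_lift_mk {G : Type*} [Group G] (g : X ⊕ E → G) (u : List (X × Bool)) :
    FreeGroup.lift g (FreeGroup.mk (u.map fun l => ((Sum.inl l.1 : X ⊕ E), l.2))) =
      FreeGroup.lift (fun x => g (Sum.inl x)) (FreeGroup.mk u) := by
  rw [FreeGroup.lift_mk, FreeGroup.lift_mk, List.map_map]
  rfl

private theorem LiStat_relA {G : Type*} [Group G] (W : E → List (X × Bool)) (g : X ⊕ E → G) (e : E) :
    FreeGroup.lift g (FreeGroup.mk (relA W e)) =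
      FreeGroup.lift (fun x => g (Sum.inl x)) (FreeGroup.mk (W e)) * (g (Sum.inr e))⁻¹ := by
  rw [relA, ← FreeGroup.mul_mk, map_mul, LiStat_lift_mk]
  congr 1
  simp [FreeGroup.lift_mk]

private theorem LiStat_relB {G : Type*} [Group G] (i j : E → X) (g : X ⊕ E → G) (e : E) :
    FreeGroup.lift g (FreeGroup.mk (relB i j e)) =
      g (Sum.inr e) * g (Sum.inl (j e)) * (g (Sum.inr e))⁻¹ * (g (Sum.inl (i e)))⁻¹ := by
  rw [relB, FreeGroup.lift_mk]
  simp [mul_assoc]

/-- the map from the group with the letters `X` to the group with the letters `X` and `E` -/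
private theorem LiStat_inj (W : E → List (X × Bool)) (i j : E → X) :
    ∃ f : RibLI.Grp W i j →* PresentedGroup (Set.range fun z => FreeGroup.mk (relR W i j z)),
      Function.Injective f := by
  set R : Set (FreeGroup (X ⊕ E)) := Set.range fun z => FreeGroup.mk (relR W i j z) with hR
  have hlift : ∀ x : FreeGroup (X ⊕ E),
      FreeGroup.lift (fun s => (PresentedGroup.of s : PresentedGroup R)) x = PresentedGroup.mk R x := by
    intro x
    have h1 : FreeGroup.lift (fun s => (PresentedGroup.of s : PresentedGroup R)) =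
        PresentedGroup.mk R := by
      refine FreeGroup.ext_hom _ _ fun s => ?_
      rw [FreeGroup.lift_apply_of]
      rfl
    rw [h1]
  set g₀ : X → PresentedGroup R := fun x => PresentedGroup.of (Sum.inl x) with hg₀
  have ht : ∀ e, (PresentedGroup.of (Sum.inr e) : PresentedGroup R) =
      FreeGroup.lift g₀ (FreeGroup.mk (W e)) := by
    intro e
    have h1 : PresentedGroup.mk R (FreeGroup.mk (relR W i j (Sum.inl e))) = 1 :=
      PresentedGroup.one_of_mem ⟨Sum.inl e, rfl⟩
    rw [← hlift] at h1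
    have h2 := LiStat_relA W (fun s => (PresentedGroup.of s : PresentedGroup R)) e
    change FreeGroup.lift _ (FreeGroup.mk (relA W e)) = 1 at h1
    rw [h2] at h1
    exact (mul_inv_eq_one.1 h1).symm
  have hrel : ∀ r ∈ Set.range (fun e : E => FreeGroup.of (i e) * FreeGroup.mk (W e) *
      (FreeGroup.of (j e))⁻¹ * (FreeGroup.mk (W e))⁻¹), FreeGroup.lift g₀ r = 1 := by
    rintro _ ⟨e, rfl⟩
    have h1 : PresentedGroup.mk R (FreeGroup.mk (relR W i j (Sum.inr e))) = 1 :=
      PresentedGroup.one_of_mem ⟨Sum.inr e, rfl⟩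
    rw [← hlift] at h1
    have h2 := LiStat_relB i j (fun s => (PresentedGroup.of s : PresentedGroup R)) e
    change FreeGroup.lift _ (FreeGroup.mk (relB i j e)) = 1 at h1
    rw [h2, ht e, mul_inv_eq_one] at h1
    simp only [map_mul, map_inv, FreeGroup.lift_apply_of]
    change g₀ (i e) * _ * (g₀ (j e))⁻¹ * _ = 1
    change _ = g₀ (i e) at h1
    rw [← h1]
    change _ * g₀ (j e) * _ * _ * _ * _ = 1
    group
  set f : RibLI.Grp W i j →* PresentedGroup R := PresentedGroup.toGroup hrel with hf
  -- the map back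
  set g₁ : X ⊕ E → RibLI.Grp W i j :=
    Sum.elim (fun x => PresentedGroup.of x) (fun e => PresentedGroup.mk _ (FreeGroup.mk (W e))) with hg₁
  have hlift' : ∀ x : FreeGroup X,
      FreeGroup.lift (fun x => g₁ (Sum.inl x)) x = PresentedGroup.mk _ x := by
    intro x
    have h1 : FreeGroup.lift (fun x => g₁ (Sum.inl x)) = PresentedGroup.mk (Set.range fun e : E =>
        FreeGroup.of (i e) * FreeGroup.mk (W e) * (FreeGroup.of (j e))⁻¹ * (FreeGroup.mk (W e))⁻¹) := by
      refine FreeGroup.ext_hom _ _ fun s => ?_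
      rw [FreeGroup.lift_apply_of]
      rfl
    rw [h1]
  have hrel' : ∀ r ∈ R, FreeGroup.lift g₁ r = 1 := by
    rintro _ ⟨z | e, rfl⟩
    · change FreeGroup.lift g₁ (FreeGroup.mk (relA W z)) = 1
      rw [LiStat_relA, hlift']
      exact mul_inv_cancel _
    · change FreeGroup.lift g₁ (FreeGroup.mk (relB i j e)) = 1
      rw [LiStat_relB]
      have h1 : PresentedGroup.mk (Set.range fun e : E =>
        FreeGroup.of (i e) * FreeGroup.mk (W e) * (FreeGroup.of (j e))⁻¹ * (FreeGroup.mk (W e))⁻¹)
        (FreeGroup.of (i e) * FreeGroup.mk (W e) * (FreeGroup.of (j e))⁻¹ * (FreeGroup.mk (W e))⁻¹) = 1 :=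
        PresentedGroup.one_of_mem ⟨e, rfl⟩
      simp only [map_mul, map_inv] at h1
      change g₁ (Sum.inl (i e)) * g₁ (Sum.inr e) * (g₁ (Sum.inl (j e)))⁻¹ * (g₁ (Sum.inr e))⁻¹ = 1 at h1
      rw [mul_inv_eq_one, mul_inv_eq_iff_eq_mul] at h1
      rw [mul_inv_eq_one, mul_inv_eq_iff_eq_mul, h1]
  set f' : PresentedGroup R →* RibLI.Grp W i j := PresentedGroup.toGroup hrel' with hf'
  refine ⟨f, ?_⟩
  have hcomp : f'.comp f = MonoidHom.id _ := by
    refine PresentedGroup.ext fun x => ?_
    change f' (f (PresentedGroup.of x)) = PresentedGroup.of x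
    rw [hf, PresentedGroup.toGroup.of]
    change f' (PresentedGroup.of (Sum.inl x)) = _
    rw [hf', PresentedGroup.toGroup.of]
    rfl
  intro a b hab
  have h1 := congrArg f' hab
  have h2 : ∀ a, f' (f a) = a := fun a => DFunLike.congr_fun hcomp a
  rwa [h2, h2] at h1

theorem li_stat {X E : Type} [Fintype X] [Fintype E] (W : E → List (X × Bool)) (i j : E → X)
    {L T ν : ℕ} (hW : GenB W i j L) (hL : 1 ≤ L) (d : X × Bool) (o : E → ℕ)
    (hT : 8 * (L + 2) ≤ T) (room : ∀ e, o e + T + (L + 2) + 1 ≤ (W e).length)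
    (st : Stat (fun e r => lw (W e) d (o e + r)) T (L + 2) ν) :
    LocallyIndicable (RibLI.Grp W i j) := by
  obtain ⟨f, hf⟩ := LiStat_inj W i j
  refine LocallyIndicable.of_injective f hf ?_
  exact li_of_nofree (relR W i j) fun V _ Γ _ h => nofree_stat hW hL d o hT room st h

end Pool.Agent.RibS
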