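import Pool.Agent.Lib.RibS.Defs
import Pool.Agent.Lib.RibS.LiStat
import Pool.Agent.Lib.RIB.RCut
import Pool.Agent.Lib.RIB.RGrp

/-!
# Random ribbon disc groups, second version : module LiWords

(problem MP_cf50d6_gt; paper MP_cf50d6_gt_rib50b.md)
Lemma 6 of the paper (stripping). `RIB.exists_cut` gives `W e = x^a W' y^b`; `a e, b e ≤ 15` by (P2) (`replicate` of length
16 contains two equal subwords of length 15); (P2) for `W'` as in `RIB.cut_P` (copy that half); `GenB` for `W'` from
`IsReduced`, `head?`, `getLast?` (see the bridge Lib/RIB/DTop); offset `o e = 15 - a e`, `W' e [o e + r] = W e [15 + r]`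
for `r < 800 T₁ + 18` (`cnt` of `Stat` only uses these: `cnt_congr`-like, or choose `d`); `li_stat`, then `RIB.li_strip`.
`RIB.Grp i j (fun e => FreeGroup.mk (W' e))` is `RibLI.Grp W' i j` by `rfl`.
-/

set_option autoImplicit false

open scoped Classical

namespace Pool.Agent.RibS

open Pool.Agent.LIA Pool.Agent.RibLI

private theorem liwords_rdc {n : ℕ} {w : List (RIB.Lt n)} (h : FreeGroup.IsReduced w) : Rdc w := by
  intro s a b ha hb hab
  unfold FreeGroup.IsReduced at h
  rw [List.isChain_iff_getElem] at h
  obtain ⟨h1, h2⟩ := List.getElem?_eq_some_iff.1 ha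
  obtain ⟨h3, h4⟩ := List.getElem?_eq_some_iff.1 hb
  have h5 := h s h3
  rw [h2, h4, hab] at h5
  have h6 := h5 rfl
  have h7 : (linv a).2 = !a.2 := rfl
  rw [h7] at h6
  cases a.2 <;> simp at h6

private theorem liwords_sub_get {n : ℕ} (w : List (RIB.Lt n)) (t k r : ℕ) (hr : r < k) :
    (RIB.sub w t k)[r]? = w[t + r]? := by
  unfold RIB.sub
  rw [List.getElem?_take_of_lt hr, List.getElem?_drop]

private theorem liwords_sub_len {n : ℕ} (w : List (RIB.Lt n)) (t k : ℕ) (h : t + k ≤ w.length) :
    (RIB.sub w t k).length = k := by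
  unfold RIB.sub
  rw [List.length_take, List.length_drop]
  omega

private theorem liwords_sub_ext {n : ℕ} (w w' : List (RIB.Lt n)) (t t' k : ℕ)
    (h : t + k ≤ w.length) (h' : t' + k ≤ w'.length)
    (he : ∀ r < k, w[t + r]? = w'[t' + r]?) : RIB.sub w t k = RIB.sub w' t' k := by
  refine List.ext_getElem? fun r => ?_
  rcases Nat.lt_or_ge r k with hr | hr
  · rw [liwords_sub_get _ _ _ _ hr, liwords_sub_get _ _ _ _ hr, he r hr]
  · rw [List.getElem?_eq_none (by rw [liwords_sub_len _ _ _ h]; exact hr),
      List.getElem?_eq_none (by rw [liwords_sub_len _ _ _ h']; exact hr)]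

private theorem liwords_sub_inv {n : ℕ} (w w' : List (RIB.Lt n)) (t t' k : ℕ)
    (h : t + k ≤ w.length) (h' : t' + k ≤ w'.length)
    (he : ∀ r < k, w[t + r]? = (w'[t' + k - 1 - r]?).map linv) :
    RIB.sub w t k = FreeGroup.invRev (RIB.sub w' t' k) := by
  have hl' := liwords_sub_len _ _ _ h'
  refine List.ext_getElem? fun r => ?_
  unfold FreeGroup.invRev
  rcases Nat.lt_or_ge r k with hr | hr
  · rw [liwords_sub_get _ _ _ _ hr, List.getElem?_reverse (by rw [List.length_map, hl']; exact hr),
      List.length_map, hl', List.getElem?_map, liwords_sub_get _ _ _ _ (by omega), he r hr]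
    have e1 : t' + k - 1 - r = t' + (k - 1 - r) := by omega
    rw [e1]
    rfl
  · rw [List.getElem?_eq_none (by rw [liwords_sub_len _ _ _ h]; exact hr),
      List.getElem?_eq_none (by rw [List.length_reverse, List.length_map, hl']; exact hr)]

private theorem liwords_mid {n : ℕ} (A v B : List (RIB.Lt n)) (t : ℕ) (h : t < v.length) :
    (A ++ v ++ B)[A.length + t]? = v[t]? := by
  rw [List.append_assoc, List.getElem?_append_right (by omega), Nat.add_sub_cancel_left,
    List.getElem?_append_left h]

private theorem liwords_cnt {E : Type*} [Fintype E] (N : ℕ) (P P' : E → ℕ → Prop)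
    (h : ∀ e, ∀ r < N, (P e r ↔ P' e r)) : cnt N P = cnt N P' := by
  unfold cnt
  congr 1
  refine Finset.filter_congr fun p hp => ?_
  have h1 := (Finset.mem_product.1 hp).2
  exact h p.1 p.2 (Finset.mem_range.1 h1)

private theorem liwords_stat {X E : Type*} [Fintype E] (f f' : E → ℕ → X × Bool) {T S ν : ℕ}
    (hS : 1 ≤ S) (h : ∀ e, ∀ r ≤ T + S, f e r = f' e r) (st : Stat f T S ν) : Stat f' T S ν := by
  refine ⟨fun b c => ?_, fun Q G hG hQ => ?_⟩
  · rw [← liwords_cnt (T + S) (fun e r => f e r = b ∧ f e (r + 1) = c)
      (fun e r => f' e r = b ∧ f' e (r + 1) = c) (fun e r hr => by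
        rw [h e r (by omega), h e (r + 1) (by omega)])]
    exact st.pair b c
  · rw [← liwords_cnt T (fun e r => linv (f e r) ∈ Q ∧ f e (r + 1) ∈ Q ∧ f e (r + 1) ∉ G)
      (fun e r => linv (f' e r) ∈ Q ∧ f' e (r + 1) ∈ Q ∧ f' e (r + 1) ∉ G) (fun e r hr => by
        rw [h e r (by omega), h e (r + 1) (by omega)])]
    exact st.set Q G hG hQ

theorem li_words {n m l T₁ : ℕ} (i j : Fin m → Fin n) (d : RIB.Lt n) (hT : 1 ≤ T₁)
    (hl : 800 * T₁ + 100 ≤ l) (W : Fin m → List (RIB.Lt n)) (hW : ∀ e, W e ∈ RIB.RW n l)
    (p2 : RIB.P2 15 W) (st : Stat (fun e r => (W e).getD (15 + r) d) (800 * T₁) 17 (2 * T₁)) :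
    LocallyIndicable (RIB.Grp i j fun e => FreeGroup.mk (W e)) := by
  choose a b s s' W' h hred hfst hlst using
    fun e => RIB.exists_cut (i e) (j e) (RIB.mem_RW.1 (hW e)).2
  have hlen0 : ∀ e, (W e).length = l := fun e => (RIB.mem_RW.1 (hW e)).1
  have hlen : ∀ e, (W e).length = a e + (W' e).length + b e := by
    intro e
    rw [h e]
    simp [add_assoc]
  have hget : ∀ e t, t < (W' e).length → (W e)[a e + t]? = (W' e)[t]? := by
    intro e t ht
    have h1 := liwords_mid (List.replicate (a e) (i e, s e)) (W' e)
      (List.replicate (b e) (j e, s' e)) t ht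
    rw [List.length_replicate, ← h e] at h1
    exact h1
  have ha : ∀ e, a e ≤ 15 := by
    intro e
    by_contra hcon
    push Not at hcon
    have key : ∀ t, t ≤ 15 → (W e)[t]? = some (i e, s e) := by
      intro t ht
      rw [h e, List.append_assoc, List.getElem?_append_left (by rw [List.length_replicate]; omega),
        List.getElem?_replicate]
      rw [if_pos (by omega)]
    have h1 := (p2.1 e e 0 1 (by rw [hlen]; omega) (by rw [hlen]; omega)
      (liwords_sub_ext _ _ _ _ _ (by rw [hlen]; omega) (by rw [hlen]; omega) fun r hr => by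
        rw [key _ (by omega), key _ (by omega)])).2
    omega
  have hb : ∀ e, b e ≤ 15 := by
    intro e
    by_contra hcon
    push Not at hcon
    have key : ∀ t, t ≤ 15 → (W e)[a e + (W' e).length + t]? = some (j e, s' e) := by
      intro t ht
      rw [h e, List.getElem?_append_right (by
        rw [List.length_append, List.length_replicate]; omega), List.length_append,
        List.length_replicate, Nat.add_sub_cancel_left, List.getElem?_replicate]
      rw [if_pos (by omega)]
    have h1 := (p2.1 e e (a e + (W' e).length + 0) (a e + (W' e).length + 1)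
      (by rw [hlen]; omega) (by rw [hlen]; omega)
      (liwords_sub_ext _ _ _ _ _ (by rw [hlen]; omega) (by rw [hlen]; omega) fun r hr => by
        rw [show a e + (W' e).length + 0 + r = a e + (W' e).length + r from rfl,
          show a e + (W' e).length + 1 + r = a e + (W' e).length + (1 + r) from by ring,
          key r (by omega), key (1 + r) (by omega)])).2
    omega
  have hlow : ∀ e, 800 * T₁ + 100 ≤ a e + (W' e).length + b e := by
    intro e
    rw [← hlen e, hlen0 e]
    exact hl
  have gen : GenB W' i j 15 := by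
    refine ⟨fun e => liwords_rdc (hred e), fun e => ?_, fun e l' hl' => ?_, fun e l' hl' => ?_,
      fun e e' t t' ht ht' heq => ?_, fun e e' t t' ht ht' heq => ?_⟩
    · have h1 := ha e
      have h2 := hb e
      have h3 := hlow e
      omega
    · exact hfst e l' (by rw [List.head?_eq_getElem?]; exact hl')
    · exact hlst e l' (by rw [List.getLast?_eq_getElem?]; exact hl')
    · have h1 := hlen e
      have h2 := hlen e'
      obtain ⟨hee, htt⟩ := p2.1 e e' (a e + t) (a e' + t') (by omega) (by omega)
        (liwords_sub_ext _ _ _ _ _ (by omega) (by omega) fun r hr => by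
          rw [show a e + t + r = a e + (t + r) from by ring,
            show a e' + t' + r = a e' + (t' + r) from by ring,
            hget e _ (by omega), hget e' _ (by omega)]
          exact heq r hr)
      subst hee
      exact ⟨rfl, by omega⟩
    · have h1 := hlen e
      have h2 := hlen e'
      exact p2.2 e e' (a e + t) (a e' + t') (by omega) (by omega)
        (liwords_sub_inv _ _ _ _ _ (by omega) (by omega) fun r hr => by
          rw [show a e + t + r = a e + (t + r) from by ring,
            show a e' + t' + 15 - 1 - r = a e' + (t' + 15 - 1 - r) from by omega,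
            hget e _ (by omega), hget e' _ (by omega)]
          exact heq r hr)
  have room : ∀ e, (15 - a e) + 800 * T₁ + (15 + 2) + 1 ≤ (W' e).length := by
    intro e
    have h1 := ha e
    have h2 := hb e
    have h3 := hlow e
    omega
  have st' : Stat (fun e r => lw (W' e) d ((15 - a e) + r)) (800 * T₁) (15 + 2) (2 * T₁) := by
    refine liwords_stat (fun e r => (W e).getD (15 + r) d) _ (by norm_num) (fun e r hr => ?_) st
    have h1 := ha e
    have h2 := hb e
    have h3 := hlow e
    have h4 := hget e (15 - a e + r) (by omega)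
    have h5 : a e + (15 - a e + r) = 15 + r := by omega
    rw [h5] at h4
    show (W e).getD (15 + r) d = (W' e).getD (15 - a e + r) d
    rw [List.getD_eq_getElem?_getD, List.getD_eq_getElem?_getD, h4]
  have main : LocallyIndicable (RibLI.Grp W' i j) :=
    li_stat W' i j gen (by norm_num) d (fun e => 15 - a e) (by omega) room st'
  exact RIB.li_strip i j W W' a b s s' h main

end Pool.Agent.RibS
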