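import Mathlib

/-!
# Random ribbon disc groups, second version : module Marg

(problem MP_cf50d6_gt; paper MP_cf50d6_gt_rib50b.md)
The projection of `(m + r)`-tuples to `m`-tuples has fibres with `|T|^r` elements (`Fin.appendEquiv`, `Fin.append`,
`Fin.castAdd`): if all extensions of a bad `m`-tuple are bad, the proportion of bad `m`-tuples is at most that of bad
`(m + r)`-tuples.
-/

set_option autoImplicit false

open scoped Classical

namespace Pool.Agent.RibS

/-- the counting inequality behind `card_marg` -/
theorem marg_card_le {β : Type*} {m r : ℕ} (T : Finset β) (Bad : (Fin m → β) → Prop)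
    (Bad' : (Fin (m + r) → β) → Prop)
    (h : ∀ W ∈ Fintype.piFinset (fun _ : Fin (m + r) => T), Bad (fun e => W (Fin.castAdd r e)) → Bad' W) :
    ((Fintype.piFinset fun _ : Fin m => T).filter Bad).card *
        (Fintype.piFinset fun _ : Fin r => T).card ≤
      ((Fintype.piFinset fun _ : Fin (m + r) => T).filter Bad').card := by
  rw [← Finset.card_product]
  refine Finset.card_le_card_of_injOn (fun p => Fin.append p.1 p.2) ?_ ?_
  · rintro ⟨a, b⟩ hab
    simp only [Finset.coe_product, Set.mem_prod, Finset.mem_coe, Finset.mem_filter,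
      Fintype.mem_piFinset] at hab
    have hmem : Fin.append a b ∈ Fintype.piFinset (fun _ : Fin (m + r) => T) := by
      rw [Fintype.mem_piFinset]
      intro e
      refine Fin.addCases (fun e' => ?_) (fun e' => ?_) e
      · rw [Fin.append_left]
        exact hab.1.1 e'
      · rw [Fin.append_right]
        exact hab.2 e'
    rw [Finset.mem_coe, Finset.mem_filter]
    refine ⟨hmem, h _ hmem ?_⟩
    have : (fun e => Fin.append a b (Fin.castAdd r e)) = a := by
      funext e
      rw [Fin.append_left]
    rw [this]
    exact hab.1.2
  · rintro ⟨a, b⟩ _ ⟨a', b'⟩ _ heq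
    have heq' : Fin.append a b = Fin.append a' b' := heq
    have h1 : a = a' := by
      funext e
      have := congrFun heq' (Fin.castAdd r e)
      rwa [Fin.append_left, Fin.append_left] at this
    have h2 : b = b' := by
      funext e
      have := congrFun heq' (Fin.natAdd m e)
      rwa [Fin.append_right, Fin.append_right] at this
    rw [h1, h2]

theorem card_marg {β : Type*} {m r : ℕ} (T : Finset β) (hT : T.Nonempty) (δ : ℝ)
    (Bad : (Fin m → β) → Prop)
    (Bad' : (Fin (m + r) → β) → Prop)
    (h : ∀ W ∈ Fintype.piFinset (fun _ : Fin (m + r) => T), Bad (fun e => W (Fin.castAdd r e)) → Bad' W)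
    (h' : (((Fintype.piFinset fun _ : Fin (m + r) => T).filter Bad').card : ℝ) ≤
      δ * (Fintype.piFinset fun _ : Fin (m + r) => T).card) :
    (((Fintype.piFinset fun _ : Fin m => T).filter Bad).card : ℝ) ≤
      δ * (Fintype.piFinset fun _ : Fin m => T).card := by
  have hle := marg_card_le T Bad Bad' h
  have hle' : ((((Fintype.piFinset fun _ : Fin m => T).filter Bad).card *
      (Fintype.piFinset fun _ : Fin r => T).card : ℕ) : ℝ) ≤
      (((Fintype.piFinset fun _ : Fin (m + r) => T).filter Bad').card : ℝ) := by
    exact_mod_cast hle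
  have hr : (0 : ℝ) < ((Fintype.piFinset fun _ : Fin r => T).card : ℝ) := by
    have : 0 < (Fintype.piFinset fun _ : Fin r => T).card := by
      rw [Fintype.card_piFinset]
      exact Finset.prod_pos fun _ _ => hT.card_pos
    exact_mod_cast this
  have hcard : ((Fintype.piFinset fun _ : Fin (m + r) => T).card : ℝ) =
      ((Fintype.piFinset fun _ : Fin m => T).card : ℝ) *
        ((Fintype.piFinset fun _ : Fin r => T).card : ℝ) := by
    rw [Fintype.card_piFinset, Fintype.card_piFinset, Fintype.card_piFinset]
    simp only [Finset.prod_const, Finset.card_univ, Fintype.card_fin]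
    push_cast
    rw [pow_add]
  have hfin : (((Fintype.piFinset fun _ : Fin m => T).filter Bad).card : ℝ) *
      ((Fintype.piFinset fun _ : Fin r => T).card : ℝ) ≤
      (δ * ((Fintype.piFinset fun _ : Fin m => T).card : ℝ)) *
        ((Fintype.piFinset fun _ : Fin r => T).card : ℝ) := by
    rw [hcard] at h'
    push_cast at hle'
    calc _ ≤ _ := hle'
      _ ≤ _ := h'
      _ = _ := by ring
  exact le_of_mul_le_mul_right hfin hr

end Pool.Agent.RibS
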