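import Mathlib

/-!
# Random ribbon disc groups, second version : module Num

(problem MP_cf50d6_gt; paper MP_cf50d6_gt_rib50b.md)
Numbers. Choose `n₀` with `n₀ ≥ 501` and `56 / n₀ ≤ ε`, `C` large (`C ≥ 10^4`, `C ≥ (n₀ + 1)^6`); `T₁ = (l - 100) / 800`;
`l ≥ C (1 + log n)` gives `T₁ ≥ 10 log n` and, as `l < n^6`, `n > n₀`. Then `exp (-10 T₁) ≤ 1 / n^4`, `exp (-2/5 T₁) ≤ 1 / n^4`,
`(m l)^2 ≤ n^14`, `(2 n - 1)^15 ≥ n^15`.
-/

set_option autoImplicit false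

open scoped Classical

namespace Pool.Agent.RibS

private theorem num_exp (x : ℝ) (h0 : 0 ≤ x) (h1 : x ≤ 1) : Real.exp x ≤ 1 + 2 * x := by
  have h := Real.abs_exp_sub_one_sub_id_le (x := x) (by rw [abs_of_nonneg h0]; exact h1)
  have h2 := (abs_le.mp h).2
  nlinarith [mul_nonneg h0 (sub_nonneg.mpr h1)]

private theorem num_pow (y : ℝ) (n : ℕ) (h0 : 0 ≤ y) (h1 : 4 * (n : ℝ) * y ≤ 1) :
    (1 + 2 * y) ^ (2 * n) ≤ 1 + 8 * n * y := by
  have h2 : 1 + 2 * y ≤ Real.exp (2 * y) := by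
    have := Real.add_one_le_exp (2 * y)
    linarith
  have h3 : (1 + 2 * y) ^ (2 * n) ≤ Real.exp (2 * y) ^ (2 * n) :=
    pow_le_pow_left₀ (by linarith) h2 _
  have h4 : Real.exp (2 * y) ^ (2 * n) = Real.exp (4 * n * y) := by
    rw [← Real.exp_nat_mul]
    congr 1
    push_cast
    ring
  have h5 := num_exp (4 * n * y) (by positivity) h1
  rw [h4] at h3
  linarith

/-- `exp (-4 log n) = 1 / n^4` -/
private theorem num_log (n : ℕ) (hn : 2 ≤ n) (t : ℝ) (ht : 4 * Real.log n ≤ t) :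
    Real.exp (-t) ≤ 1 / (n : ℝ) ^ 4 := by
  have hn0 : (0 : ℝ) < n := by
    have : (2 : ℝ) ≤ n := by exact_mod_cast hn
    linarith
  have h1 : Real.exp (-t) ≤ Real.exp (-(4 * Real.log n)) := Real.exp_le_exp.mpr (by linarith)
  have h2 : Real.exp (-(4 * Real.log n)) = 1 / (n : ℝ) ^ 4 := by
    rw [Real.exp_neg, show (4 : ℝ) * Real.log n = ((4 : ℕ) : ℝ) * Real.log n by norm_num, Real.exp_nat_mul, Real.exp_log hn0, one_div]
  rw [h2] at h1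
  exact h1

theorem exists_const (ε : ℝ) (hε : 0 < ε) (l₀ : ℕ) : ∃ C : ℝ, 0 < C ∧ ∀ n l : ℕ, 2 ≤ n →
    C * (1 + Real.log n) ≤ l → l₀ ≤ l ∧ (n ^ 6 ≤ l ∨ ∃ T₁ : ℕ, 501 ≤ n ∧ 1 ≤ T₁ ∧
      800 * T₁ + 100 ≤ l ∧
      2 * ((1 + 2 * Real.exp (-(10 * T₁))) ^ (2 * n) - 1) +
        (8 * (n : ℝ) ^ 2 + 4 * n) * Real.exp (-(2 / 5 * T₁)) ≤ ε / 2 ∧
      2 * ((n : ℝ) * l) ^ 2 / ((2 * n - 1 : ℕ) : ℝ) ^ 15 ≤ ε / 2) := by
  obtain ⟨k, hk⟩ := exists_nat_ge (56 / ε)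
  set n₀ : ℕ := max 501 k with hn₀
  set C₀ : ℕ := 10000 + (n₀ + 1) ^ 6 + l₀ with hC₀
  refine ⟨(C₀ : ℝ), ?_, ?_⟩
  · have : 0 < C₀ := by omega
    exact_mod_cast this
  intro n l hn hl
  have hn2 : (2 : ℝ) ≤ n := by exact_mod_cast hn
  have hn0 : (0 : ℝ) < n := by linarith
  have hL : 0 ≤ Real.log n := Real.log_nonneg (by linarith)
  have hC10 : (10000 : ℝ) ≤ C₀ := by
    have : 10000 ≤ C₀ := by omega
    exact_mod_cast this
  have hCl : (C₀ : ℝ) ≤ l := by nlinarith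
  have hCl' : C₀ ≤ l := by exact_mod_cast hCl
  have hl1 : 10000 * (1 + Real.log n) ≤ (l : ℝ) := by
    have := mul_le_mul_of_nonneg_right hC10 (show 0 ≤ 1 + Real.log n by linarith)
    linarith
  refine ⟨by omega, ?_⟩
  by_cases hnl : n ^ 6 ≤ l
  · exact Or.inl hnl
  right
  push Not at hnl
  have hn1 : n₀ + 1 < n := by
    by_contra hc
    push Not at hc
    have : n ^ 6 ≤ (n₀ + 1) ^ 6 := Nat.pow_le_pow_left hc 6
    omega
  have h501 : 501 ≤ n := by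
    have : 501 ≤ n₀ := le_max_left _ _
    omega
  have hkn : k ≤ n := by
    have : k ≤ n₀ := le_max_right _ _
    omega
  have hεn : 56 / ε ≤ n := hk.trans (by exact_mod_cast hkn)
  have hεn' : 56 / (n : ℝ) ≤ ε := by
    rw [div_le_iff₀ hε] at hεn
    rw [div_le_iff₀ hn0]
    linarith
  set T₁ : ℕ := (l - 100) / 800 with hT₁
  have hT1 : l < 800 * T₁ + 900 := by omega
  have hT1' : (l : ℝ) < 800 * T₁ + 900 := by exact_mod_cast hT1
  have hTL : 10 * Real.log n ≤ T₁ := by nlinarith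
  have hT0 : 1 ≤ T₁ := by omega
  have hT0' : (1 : ℝ) ≤ T₁ := by exact_mod_cast hT0
  refine ⟨T₁, h501, hT0, by omega, ?_, ?_⟩
  · have hy := num_log n hn (10 * T₁) (by linarith)
    have hz := num_log n hn (2 / 5 * T₁) (by linarith)
    set y := Real.exp (-(10 * (T₁ : ℝ))) with hyd
    set z := Real.exp (-(2 / 5 * (T₁ : ℝ))) with hzd
    have hy0 : 0 ≤ y := (Real.exp_pos _).le
    have hz0 : 0 ≤ z := (Real.exp_pos _).le
    have hn4 : (0 : ℝ) < (n : ℝ) ^ 4 := by positivity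
    have hny : 8 * (n : ℝ) * y ≤ 1 / n := by
      have h1 : 8 * (n : ℝ) * y ≤ 8 * n * (1 / (n : ℝ) ^ 4) := mul_le_mul_of_nonneg_left hy (by positivity)
      refine h1.trans ?_
      rw [mul_one_div, div_le_div_iff₀ hn4 hn0]
      have h500 : (501 : ℝ) ≤ n := by exact_mod_cast h501
      have : (8 : ℝ) ≤ (n : ℝ) ^ 2 := by nlinarith
      calc 8 * (n : ℝ) * n = 8 * (n : ℝ) ^ 2 := by ring
        _ ≤ (n : ℝ) ^ 2 * (n : ℝ) ^ 2 := mul_le_mul_of_nonneg_right this (by positivity)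
        _ = 1 * (n : ℝ) ^ 4 := by ring
    have hn_inv : 1 / (n : ℝ) ≤ 1 := by
      rw [div_le_one hn0]
      linarith
    have hp := num_pow y n hy0 (by nlinarith)
    have hzz : (8 * (n : ℝ) ^ 2 + 4 * n) * z ≤ 12 / n := by
      have h1 : (8 * (n : ℝ) ^ 2 + 4 * n) * z ≤ (8 * (n : ℝ) ^ 2 + 4 * n) * (1 / (n : ℝ) ^ 4) :=
        mul_le_mul_of_nonneg_left hz (by positivity)
      refine h1.trans ?_
      rw [mul_one_div, div_le_div_iff₀ hn4 hn0]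
      have h1n : (1 : ℝ) ≤ n := by linarith
      have h2 : (n : ℝ) ^ 2 ≤ (n : ℝ) ^ 4 := pow_le_pow_right₀ h1n (by norm_num)
      have h3 : (n : ℝ) ^ 3 ≤ (n : ℝ) ^ 4 := pow_le_pow_right₀ h1n (by norm_num)
      nlinarith
    have h56 : 56 / (n : ℝ) = 56 * (1 / n) := by ring
    have h12 : 12 / (n : ℝ) = 12 * (1 / n) := by ring
    have hni : 0 < 1 / (n : ℝ) := by positivity
    rw [h56] at hεn'
    rw [h12] at hzz
    linarith
  · have h1 : ((n : ℝ) * l) ^ 2 ≤ (n : ℝ) ^ 14 := by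
      have h2 : (l : ℝ) ≤ (n : ℝ) ^ 6 := by exact_mod_cast hnl.le
      have h3 : (n : ℝ) * l ≤ (n : ℝ) ^ 7 := by
        calc (n : ℝ) * l ≤ n * (n : ℝ) ^ 6 := mul_le_mul_of_nonneg_left h2 hn0.le
          _ = (n : ℝ) ^ 7 := by ring
      calc ((n : ℝ) * l) ^ 2 ≤ ((n : ℝ) ^ 7) ^ 2 := pow_le_pow_left₀ (by positivity) h3 2
        _ = (n : ℝ) ^ 14 := by ring
    have h2 : (n : ℝ) ^ 15 ≤ ((2 * n - 1 : ℕ) : ℝ) ^ 15 := by
      apply pow_le_pow_left₀ hn0.le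
      have : n ≤ 2 * n - 1 := by omega
      exact_mod_cast this
    have h15 : (0 : ℝ) < (n : ℝ) ^ 15 := by positivity
    have h3 : 2 * ((n : ℝ) * l) ^ 2 / ((2 * n - 1 : ℕ) : ℝ) ^ 15 ≤ 2 * (n : ℝ) ^ 14 / (n : ℝ) ^ 15 := by
      apply div_le_div₀ (by positivity) (by linarith) h15 h2
    refine h3.trans ?_
    have h4 : 2 * (n : ℝ) ^ 14 / (n : ℝ) ^ 15 = 2 / n := by
      field_simp
    rw [h4]
    have h5 : 2 / (n : ℝ) ≤ 28 / n := by
      apply div_le_div_of_nonneg_right (by norm_num) hn0.le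
    have h6 : 28 / (n : ℝ) ≤ ε / 2 := by
      have : 28 / (n : ℝ) = (56 / n) / 2 := by ring
      rw [this]
      linarith
    exact h5.trans h6

end Pool.Agent.RibS
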