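import Pool.Agent.Lib.RibS.Defs
import Pool.Agent.Lib.RibS.Cnt

/-!
# Random ribbon disc groups, second version : module Sub

(problem MP_cf50d6_gt; paper MP_cf50d6_gt_rib50b.md)
`cnt` over a subfamily is at most `cnt` over the family (injection `(e, r) ↦ (g e, r)`).
-/

set_option autoImplicit false

open scoped Classical

namespace Pool.Agent.RibS

open Pool.Agent.LIA Pool.Agent.RibLI

theorem sub_cnt_le {E E' : Type*} [Fintype E] [Fintype E'] (N : ℕ) (P : E' → ℕ → Prop)
    (g : E → E') (hg : Function.Injective g) : cnt N (fun e r => P (g e) r) ≤ cnt N P := by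
  unfold cnt
  refine Finset.card_le_card_of_injOn (fun p => (g p.1, p.2)) ?_ ?_
  · intro p hp
    have h1 := Finset.mem_filter.1 (Finset.mem_coe.1 hp)
    refine Finset.mem_coe.2 (Finset.mem_filter.2 ⟨Finset.mem_product.2 ⟨Finset.mem_univ _, ?_⟩, h1.2⟩)
    exact (Finset.mem_product.1 h1.1).2
  · intro p _ p' _ hpp
    have h0 : (g p.1, p.2) = (g p'.1, p'.2) := hpp
    have h1 : g p.1 = g p'.1 := (Prod.mk.inj h0).1
    have h2 : p.2 = p'.2 := (Prod.mk.inj h0).2
    exact Prod.ext (hg h1) h2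

theorem stat_sub {X E E' : Type*} [Fintype E] [Fintype E'] {f : E' → ℕ → X × Bool} {T S ν : ℕ}
    (h : Stat f T S ν) (g : E → E') (hg : Function.Injective g) : Stat (fun e => f (g e)) T S ν := by
  refine ⟨?_, ?_⟩
  · intro b c
    exact (sub_cnt_le (T + S) (fun e r => f e r = b ∧ f e (r + 1) = c) g hg).trans (h.pair b c)
  · intro Q G hG hQ
    have h1 := sub_cnt_le T (fun e r => linv (f e r) ∈ Q ∧ f e (r + 1) ∈ Q ∧ f e (r + 1) ∉ G) g hg
    have h2 := h.set Q G hG hQ
    omega

end Pool.Agent.RibS
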