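import Pool.Agent.Lib.RibS.Defs
import Pool.Agent.Lib.RibS.ExpTup

/-!
# Random ribbon disc groups, second version : module TailC

(problem MP_cf50d6_gt; paper MP_cf50d6_gt_rib50b.md)
`markov_up` with `P b c = (linv b ∈ M ∧ c ∈ M')`, `Np = M.card * M'.card`, `y = 160 T₁ k'`, `B = 400 T₁`, `p = 15 + s`:
`(1 + |M| k' / q^2)^(400 T₁ m) ≤ exp (400 T₁ m n k' / q^2) ≤ exp (100 T₁ k')` as `4 m n ≤ q^2` (`m + 1 = n`),
and `exp (110 T₁ k') ≤ 2 ^ (160 T₁ k')` (`Real.exp_one_lt_d9`: `e ^ 11 ≤ 2 ^ 16`).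
-/

set_option autoImplicit false

open scoped Classical

namespace Pool.Agent.RibS

open Pool.Agent.LIA Pool.Agent.RibLI

private theorem tailC_card {n : ℕ} (M M' : Finset (RIB.Lt n)) :
    (Finset.univ.filter fun x : RIB.Lt n × RIB.Lt n => linv x.1 ∈ M ∧ x.2 ∈ M').card ≤
      M.card * M'.card := by
  rw [← Finset.card_product]
  refine Finset.card_le_card_of_injOn (fun x => (linv x.1, x.2)) ?_ ?_
  · intro x hx
    have hx' := (Finset.mem_filter.mp (Finset.mem_coe.mp hx)).2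
    exact Finset.mem_coe.mpr (Finset.mem_product.mpr hx')
  · intro x _ y _ h
    have h' : (linv x.1, x.2) = (linv y.1, y.2) := h
    have h1 : linv x.1 = linv y.1 := (Prod.mk.inj h').1
    have h2 : x.2 = y.2 := (Prod.mk.inj h').2
    have h3 : x.1 = y.1 := by
      rcases x with ⟨⟨a, b⟩, c⟩
      rcases y with ⟨⟨a', b'⟩, c'⟩
      simp only [linv, Prod.mk.injEq, Bool.not_inj_iff] at h1
      simp only [Prod.mk.injEq]
      exact h1
    exact Prod.ext h3 h2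

private theorem tailC_exp (t : ℕ) : Real.exp (110 * (t : ℝ)) ≤ 2 ^ (160 * t) := by
  have h1 : Real.exp 1 < 2.7182818286 := Real.exp_one_lt_d9
  have h0 : (0 : ℝ) ≤ Real.exp 1 := (Real.exp_pos 1).le
  have h2 : Real.exp 1 ^ 110 ≤ (2 : ℝ) ^ 160 := by
    have h3 : Real.exp 1 ^ 11 ≤ (2.7182818286 : ℝ) ^ 11 := pow_le_pow_left₀ h0 h1.le 11
    have h4 : (2.7182818286 : ℝ) ^ 11 ≤ 2 ^ 16 := by norm_num
    have h5 : (Real.exp 1 ^ 11) ^ 10 ≤ ((2 : ℝ) ^ 16) ^ 10 :=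
      pow_le_pow_left₀ (pow_nonneg h0 11) (h3.trans h4) 10
    rw [← pow_mul, ← pow_mul] at h5
    exact h5
  have h6 : Real.exp (110 * (t : ℝ)) = (Real.exp 1 ^ 110) ^ t := by
    rw [← pow_mul, ← Real.exp_nat_mul]
    congr 1
    push_cast
    ring
  rw [h6, pow_mul]
  exact pow_le_pow_left₀ (pow_nonneg h0 110) h2 t

theorem tail_C {n m l T₁ : ℕ} (hn : 2 ≤ n) (hm : m + 1 = n) (hl : 800 * T₁ + 100 ≤ l)
    (d : RIB.Lt n) {s : ℕ} (hs : s < 2) (M M' : Finset (RIB.Lt n)) (hM : M.card ≤ n) :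
    (((Fintype.piFinset fun _ : Fin m => RIB.RW n l).filter fun W =>
        ¬ cnt (400 * T₁) (fun e i => linv ((W e).getD (15 + s + 2 * i) d) ∈ M ∧
          (W e).getD (15 + s + 2 * i + 1) d ∈ M') ≤ 160 * T₁ * M'.card).card : ℝ) ≤
      Real.exp (-(10 * T₁)) ^ M'.card * (Fintype.piFinset fun _ : Fin m => RIB.RW n l).card := by
  have key := markov_up (n := n) (m := m) (l := l) (B := 400 * T₁) (p := 15 + s)
    (Np := M.card * M'.card) (y := 160 * T₁ * M'.card) hn (by omega) d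
    (fun b c => linv b ∈ M ∧ c ∈ M')
    (le_trans (le_of_eq (congrArg Finset.card (Finset.filter_congr_decidable _ _ _)))
      (tailC_card M M'))
  have hset : ((Fintype.piFinset fun _ : Fin m => RIB.RW n l).filter fun W =>
        ¬ cnt (400 * T₁) (fun e i => linv ((W e).getD (15 + s + 2 * i) d) ∈ M ∧
          (W e).getD (15 + s + 2 * i + 1) d ∈ M') ≤ 160 * T₁ * M'.card) =
      ((Fintype.piFinset fun _ : Fin m => RIB.RW n l).filter fun W =>
        160 * T₁ * M'.card < cnt (400 * T₁) (fun e i => linv ((W e).getD (15 + s + 2 * i) d) ∈ M ∧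
          (W e).getD (15 + s + 2 * i + 1) d ∈ M')) :=
    Finset.filter_congr fun W _ => not_le
  rw [hset]
  set A : ℝ := (((Fintype.piFinset fun _ : Fin m => RIB.RW n l).filter fun W =>
        160 * T₁ * M'.card < cnt (400 * T₁) (fun e i => linv ((W e).getD (15 + s + 2 * i) d) ∈ M ∧
          (W e).getD (15 + s + 2 * i + 1) d ∈ M')).card : ℝ) with hA
  set N : ℝ := ((Fintype.piFinset fun _ : Fin m => RIB.RW n l).card : ℝ) with hN
  have hA0 : 0 ≤ A := Nat.cast_nonneg _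
  have hN0 : 0 ≤ N := Nat.cast_nonneg _
  have hq : ((2 * n - 1 : ℕ) : ℝ) = 2 * (m : ℝ) + 1 := by
    have : 2 * n - 1 = 2 * m + 1 := by omega
    rw [this]
    push_cast
    ring
  have hm0 : (0 : ℝ) ≤ m := Nat.cast_nonneg _
  have hT0 : (0 : ℝ) ≤ T₁ := Nat.cast_nonneg _
  have hk0 : (0 : ℝ) ≤ M'.card := Nat.cast_nonneg _
  have hMm : (M.card : ℝ) ≤ m + 1 := by
    have : M.card ≤ m + 1 := by omega
    exact_mod_cast this
  have hM0 : (0 : ℝ) ≤ M.card := Nat.cast_nonneg _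
  have hq2 : (0 : ℝ) < (2 * (m : ℝ) + 1) ^ 2 := by positivity
  -- the factor
  have hfac : (1 + ((M.card * M'.card : ℕ) : ℝ) / ((2 * n - 1 : ℕ) : ℝ) ^ 2) ^ (m * (400 * T₁)) ≤
      Real.exp (100 * (T₁ * M'.card)) := by
    have h1 : 1 + ((M.card * M'.card : ℕ) : ℝ) / ((2 * n - 1 : ℕ) : ℝ) ^ 2 ≤
        Real.exp (((M.card * M'.card : ℕ) : ℝ) / ((2 * n - 1 : ℕ) : ℝ) ^ 2) := by
      have := Real.add_one_le_exp (((M.card * M'.card : ℕ) : ℝ) / ((2 * n - 1 : ℕ) : ℝ) ^ 2)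
      linarith
    have h2 : 0 ≤ 1 + ((M.card * M'.card : ℕ) : ℝ) / ((2 * n - 1 : ℕ) : ℝ) ^ 2 := by positivity
    refine (pow_le_pow_left₀ h2 h1 _).trans ?_
    rw [← Real.exp_nat_mul]
    refine Real.exp_le_exp.mpr ?_
    rw [hq]
    push_cast
    rw [← mul_div_assoc, div_le_iff₀ hq2]
    have h3 : 4 * (m : ℝ) * M.card ≤ (2 * (m : ℝ) + 1) ^ 2 := by nlinarith
    have h4 : (0 : ℝ) ≤ 100 * (T₁ * M'.card) := by positivity
    calc (m : ℝ) * (400 * T₁) * (M.card * M'.card) = 100 * (T₁ * M'.card) * (4 * m * M.card) := by ring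
      _ ≤ 100 * (T₁ * M'.card) * (2 * (m : ℝ) + 1) ^ 2 := mul_le_mul_of_nonneg_left h3 h4
  have hE := tailC_exp (T₁ * M'.card)
  push_cast at hE
  rw [← mul_assoc] at hE
  have h5 : A * Real.exp (110 * (T₁ * M'.card)) ≤ Real.exp (100 * (T₁ * M'.card)) * N := by
    have e1 : A * Real.exp (110 * (T₁ * M'.card)) ≤ A * 2 ^ (160 * T₁ * M'.card) := by
      refine mul_le_mul_of_nonneg_left ?_ hA0
      calc Real.exp (110 * ((T₁ : ℝ) * M'.card)) ≤ 2 ^ (160 * (T₁ * M'.card)) := by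
            simpa [mul_assoc] using hE
        _ = 2 ^ (160 * T₁ * M'.card) := by rw [mul_assoc]
    exact (e1.trans key).trans (mul_le_mul_of_nonneg_right hfac hN0)
  have h6 : Real.exp (-(10 * (T₁ : ℝ))) ^ M'.card = Real.exp (-(10 * (T₁ * M'.card))) := by
    rw [← Real.exp_nat_mul]
    congr 1
    ring
  rw [h6]
  have hp : 0 < Real.exp (110 * ((T₁ : ℝ) * M'.card)) := Real.exp_pos _
  have h7 : Real.exp (-(10 * ((T₁ : ℝ) * M'.card))) * N * Real.exp (110 * (T₁ * M'.card)) =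
      Real.exp (100 * (T₁ * M'.card)) * N := by
    have : Real.exp (100 * ((T₁ : ℝ) * M'.card)) =
        Real.exp (-(10 * ((T₁ : ℝ) * M'.card))) * Real.exp (110 * (T₁ * M'.card)) := by
      rw [← Real.exp_add]
      congr 1
      ring
    rw [this]
    ring
  have h8 : A * Real.exp (110 * (T₁ * M'.card)) ≤
      Real.exp (-(10 * ((T₁ : ℝ) * M'.card))) * N * Real.exp (110 * (T₁ * M'.card)) := by
    rw [h7]
    exact h5
  exact le_of_mul_le_mul_right h8 hp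

end Pool.Agent.RibS
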