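import Pool.Agent.Lib.RibS.ExpTup

/-!
# Random ribbon disc groups, second version : module TailN

(helper74, problem MP_cf50d6_gt; paper MP_cf50d6_gt_rib50b.md, section 3, (N))
`markov_up` with `Np = 1`, `y = T₁`: `2^(-T₁) (1 + 1/q^2)^(m B) ≤ exp (- 2/5 T₁)`, as `m B / q^2 ≤ (400 T₁ + 10) / (4 n)`.
-/

set_option autoImplicit false

open scoped Classical

namespace Pool.Agent.RibS

open Pool.Agent.LIA Pool.Agent.RibLI

/-- the pair of letters `b, c` -/
def tailnP {n : ℕ} (b c x y : RIB.Lt n) : Prop := x = b ∧ y = c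

theorem tailn_mn {n m : ℕ} (hm : m + 1 = n) :
    4 * ((m : ℝ) * n) ≤ ((2 * n - 1 : ℕ) : ℝ) ^ 2 := by
  have h2 : ((2 * n - 1 : ℕ) : ℝ) = 2 * m + 1 := by
    have : 2 * n - 1 = 2 * m + 1 := by omega
    rw [this]
    push_cast
    ring
  have h1 : (n : ℝ) = m + 1 := by
    rw [← hm]
    push_cast
    ring
  rw [h2, h1]
  nlinarith

theorem tail_N {n m l T₁ : ℕ} (hn : 501 ≤ n) (hm : m + 1 = n) (hT : 1 ≤ T₁)
    (hl : 800 * T₁ + 100 ≤ l) (d : RIB.Lt n) {s : ℕ} (hs : s < 2) (b c : RIB.Lt n) :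
    (((Fintype.piFinset fun _ : Fin m => RIB.RW n l).filter fun W =>
        ¬ cnt (400 * T₁ + 10) (fun e i => (W e).getD (15 + s + 2 * i) d = b ∧
          (W e).getD (15 + s + 2 * i + 1) d = c) ≤ T₁).card : ℝ) ≤
      Real.exp (-(2 / 5 * T₁)) * (Fintype.piFinset fun _ : Fin m => RIB.RW n l).card := by
  have hP : (Finset.univ.filter fun x : RIB.Lt n × RIB.Lt n => tailnP b c x.1 x.2).card ≤ 1 := by
    rw [Finset.card_le_one]
    intro x hx y hy
    rw [Finset.mem_filter] at hx hy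
    exact Prod.ext (hx.2.1.trans hy.2.1.symm) (hx.2.2.trans hy.2.2.symm)
  have h1 := markov_up (m := m) (l := l) (B := 400 * T₁ + 10) (p := 15 + s) (y := T₁) (by omega)
    (by omega) d (tailnP b c) hP
  have hnR : (501 : ℝ) ≤ n := by exact_mod_cast hn
  have hTR : (1 : ℝ) ≤ T₁ := by exact_mod_cast hT
  have hq0 : (0 : ℝ) < ((2 * n - 1 : ℕ) : ℝ) := by exact_mod_cast (by omega : 0 < 2 * n - 1)
  have hq : (0 : ℝ) < ((2 * n - 1 : ℕ) : ℝ) ^ 2 := by positivity
  have h2 : (1 + ((1 : ℕ) : ℝ) / ((2 * n - 1 : ℕ) : ℝ) ^ 2) ^ (m * (400 * T₁ + 10)) ≤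
      Real.exp (1 / 4 * T₁) := by
    refine le_trans (pow_le_pow_left₀ (by positivity)
      (b := Real.exp (1 / ((2 * n - 1 : ℕ) : ℝ) ^ 2)) ?_ _) ?_
    · have := Real.add_one_le_exp (1 / ((2 * n - 1 : ℕ) : ℝ) ^ 2)
      rw [Nat.cast_one]
      linarith
    · rw [← Real.exp_nat_mul, Real.exp_le_exp, mul_one_div, div_le_iff₀ hq]
      push_cast
      have h4 := tailn_mn hm
      have h5 : (400 * (T₁ : ℝ) + 10) ≤ 410 * T₁ := by linarith
      have h6 : (0 : ℝ) ≤ (m : ℝ) := Nat.cast_nonneg _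
      have h7 : (m : ℝ) * (400 * T₁ + 10) ≤ m * (410 * T₁) := mul_le_mul_of_nonneg_left h5 h6
      have h8 : (m : ℝ) * (410 * T₁) ≤ (m : ℝ) * ((n : ℝ) * T₁) := by
        refine mul_le_mul_of_nonneg_left ?_ h6
        exact mul_le_mul_of_nonneg_right (by linarith) (by linarith)
      have h9 : (m : ℝ) * ((n : ℝ) * T₁) = (4 * ((m : ℝ) * n)) * (1 / 4 * T₁) := by ring
      have h10 : (4 * ((m : ℝ) * n)) * (1 / 4 * T₁) ≤ ((2 * n - 1 : ℕ) : ℝ) ^ 2 * (1 / 4 * T₁) :=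
        mul_le_mul_of_nonneg_right h4 (by positivity)
      linarith
  have h3 : Real.exp (1 / 4 * T₁) ≤ Real.exp (-(2 / 5 * T₁)) * 2 ^ T₁ := by
    have h4 : Real.exp (13 / 20) ≤ 2 := by
      have h5 : Real.exp (13 / 20) ^ 20 ≤ 2 ^ 20 := by
        rw [← Real.exp_nat_mul]
        have h6 : Real.exp (((20 : ℕ) : ℝ) * (13 / 20)) = Real.exp 1 ^ 13 := by
          rw [← Real.exp_nat_mul]
          norm_num
        rw [h6]
        calc Real.exp 1 ^ 13 ≤ (2.72 : ℝ) ^ 13 := by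
              refine pow_le_pow_left₀ (Real.exp_nonneg _) ?_ _
              have := Real.exp_one_lt_d9
              linarith
          _ ≤ 2 ^ 20 := by norm_num
      exact le_of_pow_le_pow_left₀ (by norm_num) (by norm_num) h5
    have h6 : Real.exp (1 / 4 * T₁) = Real.exp (-(2 / 5 * T₁)) * Real.exp (13 / 20) ^ T₁ := by
      rw [← Real.exp_nat_mul, ← Real.exp_add]
      congr 1
      ring
    rw [h6]
    exact mul_le_mul_of_nonneg_left (pow_le_pow_left₀ (Real.exp_nonneg _) h4 _) (Real.exp_nonneg _)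
  have h7 : (0 : ℝ) < 2 ^ T₁ := by positivity
  rw [← mul_le_mul_iff_left₀ h7]
  refine le_trans (mul_le_mul_of_nonneg_right ?_ h7.le) (h1.trans ?_)
  · rw [Nat.cast_le]
    refine Finset.card_le_card fun W hW => ?_
    rw [Finset.mem_filter] at hW ⊢
    exact ⟨hW.1, not_le.1 hW.2⟩
  · calc _ ≤ Real.exp (1 / 4 * T₁) * (Fintype.piFinset fun _ : Fin m => RIB.RW n l).card :=
          mul_le_mul_of_nonneg_right h2 (Nat.cast_nonneg _)
      _ ≤ Real.exp (-(2 / 5 * T₁)) * 2 ^ T₁ *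
          (Fintype.piFinset fun _ : Fin m => RIB.RW n l).card :=
          mul_le_mul_of_nonneg_right h3 (Nat.cast_nonneg _)
      _ = _ := by ring

end Pool.Agent.RibS
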