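import Pool.Agent.Lib.RibS.ExpTup

/-!
# Random ribbon disc groups, second version : module TailO

(helper74, problem MP_cf50d6_gt; paper MP_cf50d6_gt_rib50b.md, section 3, (O))
`markov_down` with `y = 180 T₁`, `B = 400 T₁ - s` :
`(10/9)^(180 T₁) exp (- (2 n - 2) m (400 T₁ - 1) / (10 q^2)) ≤ exp (- 2/5 T₁)`.
-/

set_option autoImplicit false

open scoped Classical

namespace Pool.Agent.RibS

open Pool.Agent.LIA Pool.Agent.RibLI

/-- `exp (- 19.4) ≤ (9/10)^180` -/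
theorem tailo_num : Real.exp (-(97 / 5)) ≤ (9 / 10 : ℝ) ^ 180 := by
  have h1 : Real.exp (-(97 / 100)) ≤ 0.385 := by
    have h2 := Real.exp_one_gt_d9
    have h3 := Real.add_one_le_exp (-(3 / 100) : ℝ)
    have h4 : Real.exp (-(97 / 100)) * (Real.exp (-(3 / 100)) * Real.exp 1) = 1 := by
      rw [← Real.exp_add, ← Real.exp_add]
      norm_num
    have h5 : (2.636 : ℝ) ≤ Real.exp (-(3 / 100)) * Real.exp 1 := by
      have h6 : (0.97 : ℝ) ≤ Real.exp (-(3 / 100)) := by linarith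
      nlinarith [Real.exp_pos (-(3 / 100) : ℝ)]
    have h7 := Real.exp_pos (-(97 / 100) : ℝ)
    nlinarith
  have h8 : Real.exp (-(97 / 5)) = Real.exp (-(97 / 100)) ^ 20 := by
    rw [← Real.exp_nat_mul]
    norm_num
  rw [h8]
  calc Real.exp (-(97 / 100)) ^ 20 ≤ (0.385 : ℝ) ^ 20 :=
        pow_le_pow_left₀ (Real.exp_nonneg _) h1 20
    _ ≤ _ := by norm_num

theorem tail_O {n m l T₁ : ℕ} (hn : 501 ≤ n) (hm : m + 1 = n) (hT : 1 ≤ T₁)
    (hl : 800 * T₁ + 100 ≤ l) (d : RIB.Lt n) {s : ℕ} (hs : s < 2) (x : RIB.Lt n) :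
    (((Fintype.piFinset fun _ : Fin m => RIB.RW n l).filter fun W =>
        ¬ 180 * T₁ ≤ cnt (400 * T₁ - s) (fun e i => (W e).getD (16 + s + 2 * i) d = x)).card : ℝ) ≤
      Real.exp (-(2 / 5 * T₁)) * (Fintype.piFinset fun _ : Fin m => RIB.RW n l).card := by
  have h1 := markov_down (m := m) (l := l) (B := 400 * T₁ - s) (p := 16 + s) (y := 180 * T₁)
    (by omega) (by omega) d x
  have hnR : (501 : ℝ) ≤ n := by exact_mod_cast hn
  have hTR : (1 : ℝ) ≤ T₁ := by exact_mod_cast hT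
  have hmn : (m : ℝ) = n - 1 := by
    rw [← hm]
    push_cast
    ring
  have hq1 : ((2 * n - 1 : ℕ) : ℝ) = 2 * n - 1 := by
    rw [Nat.cast_sub (by omega)]
    push_cast
    ring
  have hq2 : ((2 * n - 2 : ℕ) : ℝ) = 2 * n - 2 := by
    rw [Nat.cast_sub (by omega)]
    push_cast
    ring
  have hB : (400 * T₁ - 1 : ℝ) ≤ ((400 * T₁ - s : ℕ) : ℝ) := by
    have h3 : 400 * T₁ ≤ (400 * T₁ - s) + 1 := by omega
    have h4 : ((400 * T₁ : ℕ) : ℝ) ≤ ((400 * T₁ - s : ℕ) : ℝ) + 1 := by exact_mod_cast h3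
    push_cast at h4
    linarith
  have hq0 : (0 : ℝ) < ((2 * n - 1 : ℕ) : ℝ) := by exact_mod_cast (by omega : 0 < 2 * n - 1)
  have hq : (0 : ℝ) < 10 * ((2 * n - 1 : ℕ) : ℝ) ^ 2 := by positivity
  set u : ℝ := ((2 * n - 2 : ℕ) : ℝ) / (10 * ((2 * n - 1 : ℕ) : ℝ) ^ 2) with hu
  have hu0 : 0 ≤ u := by positivity
  have hu1 : u ≤ 1 := by
    rw [hu, div_le_one hq, hq1, hq2]
    nlinarith
  have h2 : (1 - u) ^ (m * (400 * T₁ - s)) ≤ Real.exp (-(99 / 5 * T₁)) := by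
    refine le_trans (pow_le_pow_left₀ (by linarith) (b := Real.exp (-u)) ?_ _) ?_
    · have := Real.add_one_le_exp (-u)
      linarith
    · rw [← Real.exp_nat_mul, Real.exp_le_exp]
      push_cast
      have h3 : 99 / 5 * (T₁ : ℝ) ≤ (m : ℝ) * ((400 * T₁ - s : ℕ) : ℝ) * u := by
        rw [hu, mul_div_assoc', le_div_iff₀ hq, hq1, hq2, hmn]
        have h5 : 99 / 5 * (T₁ : ℝ) * (10 * (2 * n - 1) ^ 2) ≤
            ((n : ℝ) - 1) * (400 * T₁ - 1) * (2 * n - 2) := by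
          have h6 : (99 / 5 : ℝ) * 10 * (2 * n - 1) ^ 2 ≤ 399 * (((n : ℝ) - 1) * (2 * n - 2)) := by
            nlinarith
          have h7 := mul_le_mul_of_nonneg_right h6 (by linarith : (0 : ℝ) ≤ (T₁ : ℝ))
          have h8 : 0 ≤ ((n : ℝ) - 1) * (2 * n - 2) := by
            apply mul_nonneg <;> linarith
          have h9 : 399 * (((n : ℝ) - 1) * (2 * n - 2)) * T₁ ≤
              (400 * T₁ - 1) * (((n : ℝ) - 1) * (2 * n - 2)) := by
            have h10 := mul_le_mul_of_nonneg_right (by linarith : 399 * (T₁ : ℝ) ≤ 400 * T₁ - 1) h8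
            linarith
          linarith
        refine h5.trans ?_
        refine mul_le_mul_of_nonneg_right ?_ (by linarith)
        exact mul_le_mul_of_nonneg_left hB (by linarith)
      linarith
  have h3 : Real.exp (-(99 / 5 * T₁)) ≤ Real.exp (-(2 / 5 * T₁)) * (9 / 10) ^ (180 * T₁) := by
    have h6 : Real.exp (-(99 / 5 * T₁)) = Real.exp (-(2 / 5 * T₁)) * Real.exp (-(97 / 5)) ^ T₁ := by
      rw [← Real.exp_nat_mul, ← Real.exp_add]
      congr 1
      ring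
    rw [h6, pow_mul]
    exact mul_le_mul_of_nonneg_left (pow_le_pow_left₀ (Real.exp_nonneg _) tailo_num _)
      (Real.exp_nonneg _)
  have h7 : (0 : ℝ) < (9 / 10) ^ (180 * T₁) := by positivity
  rw [← mul_le_mul_iff_left₀ h7]
  refine le_trans (mul_le_mul_of_nonneg_right ?_ h7.le) (h1.trans ?_)
  · rw [Nat.cast_le]
    refine Finset.card_le_card fun W hW => ?_
    rw [Finset.mem_filter] at hW ⊢
    exact ⟨hW.1, not_le.1 hW.2⟩
  · calc _ ≤ Real.exp (-(99 / 5 * T₁)) * (Fintype.piFinset fun _ : Fin m => RIB.RW n l).card :=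
          mul_le_mul_of_nonneg_right h2 (Nat.cast_nonneg _)
      _ ≤ Real.exp (-(2 / 5 * T₁)) * (9 / 10) ^ (180 * T₁) *
          (Fintype.piFinset fun _ : Fin m => RIB.RW n l).card :=
          mul_le_mul_of_nonneg_right h3 (Nat.cast_nonneg _)
      _ = _ := by ring

end Pool.Agent.RibS
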