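import Pool.Agent.Lib.RibS.Defs
import Pool.Agent.Lib.RibS.TailC
import Pool.Agent.Lib.RibS.TailN
import Pool.Agent.Lib.RibS.TailO

/-!
# Random ribbon disc groups, second version : module Union

(problem MP_cf50d6_gt; paper MP_cf50d6_gt_rib50b.md)
Union bounds. `¬ Good` implies that one of the events of `tail_N` (`2 (2n)^2` events), `tail_O` (`2 * 2n` events), `tail_C`
(`s`, `M'` nonempty, `M ⊆ M'`) happens. The sum over `M'` and `M ⊆ M'` of `y^|M'|` is `∑ over M' of (2 y)^|M'| =
(1 + 2 y)^(2 n)` (`Finset.sum_pow_mul_eq_add_pow`, `Finset.card_powerset`), minus the term of the empty set.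
-/

set_option autoImplicit false

open scoped Classical

namespace Pool.Agent.RibS

open Pool.Agent.LIA Pool.Agent.RibLI

theorem union_sum {n : ℕ} {y : ℝ} (hy : 0 ≤ y) :
    (∑ M' ∈ (Finset.univ : Finset (Finset (RIB.Lt n))).filter Finset.Nonempty,
      ∑ _M ∈ M'.powerset.filter (fun M => M.card ≤ n), y ^ M'.card) ≤
      (1 + 2 * y) ^ (2 * n) - 1 := by
  have h1 : (∑ M' : Finset (RIB.Lt n), (2 * y) ^ M'.card) = (1 + 2 * y) ^ (2 * n) := by
    have h := Finset.sum_pow_mul_eq_add_pow (2 * y) (1 : ℝ) (Finset.univ : Finset (RIB.Lt n))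
    have hc : (Finset.univ : Finset (RIB.Lt n)).card = 2 * n := by
      simp [RIB.Lt, Fintype.card_prod, mul_comm]
    rw [Finset.powerset_univ, hc] at h
    rw [add_comm, ← h]
    exact Finset.sum_congr rfl fun a _ => by rw [one_pow, mul_one]
  have h2 : (∑ M' : Finset (RIB.Lt n), (2 * y) ^ M'.card) =
      (∑ M' ∈ (Finset.univ : Finset (Finset (RIB.Lt n))).filter Finset.Nonempty,
        (2 * y) ^ M'.card) + 1 := by
    rw [← Finset.sum_filter_add_sum_filter_not Finset.univ (Finset.Nonempty)]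
    congr 1
    have h3 : (Finset.univ : Finset (Finset (RIB.Lt n))).filter (fun x => ¬ x.Nonempty) = {∅} := by
      ext x
      simp [Finset.not_nonempty_iff_eq_empty]
    rw [h3, Finset.sum_singleton, Finset.card_empty, pow_zero]
  have h4 : (∑ M' ∈ (Finset.univ : Finset (Finset (RIB.Lt n))).filter Finset.Nonempty,
      ∑ _M ∈ M'.powerset.filter (fun M => M.card ≤ n), y ^ M'.card) ≤
      ∑ M' ∈ (Finset.univ : Finset (Finset (RIB.Lt n))).filter Finset.Nonempty,
        (2 * y) ^ M'.card := by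
    refine Finset.sum_le_sum fun M' _ => ?_
    rw [Finset.sum_const, nsmul_eq_mul, mul_pow]
    refine mul_le_mul_of_nonneg_right ?_ (pow_nonneg hy _)
    have h5 : (M'.powerset.filter (fun M => M.card ≤ n)).card ≤ 2 ^ M'.card := by
      rw [← Finset.card_powerset]
      exact Finset.card_filter_le _ _
    exact_mod_cast h5
  linarith

theorem card_not_good {n m l T₁ : ℕ} (hn : 501 ≤ n) (hm : m + 1 = n) (hT : 1 ≤ T₁)
    (hl : 800 * T₁ + 100 ≤ l) (d : RIB.Lt n) :
    (((Fintype.piFinset fun _ : Fin m => RIB.RW n l).filter fun W => ¬ Good T₁ d W).card : ℝ) ≤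
      (2 * ((1 + 2 * Real.exp (-(10 * T₁))) ^ (2 * n) - 1) +
        (8 * (n : ℝ) ^ 2 + 4 * n) * Real.exp (-(2 / 5 * T₁))) *
        (Fintype.piFinset fun _ : Fin m => RIB.RW n l).card := by
  set Ω := Fintype.piFinset fun _ : Fin m => RIB.RW n l with hΩ
  set EN : ℕ → RIB.Lt n → RIB.Lt n → Finset (Fin m → List (RIB.Lt n)) := fun s b c =>
    Ω.filter fun W => ¬ cnt (400 * T₁ + 10) (fun e i => (W e).getD (15 + s + 2 * i) d = b ∧
      (W e).getD (15 + s + 2 * i + 1) d = c) ≤ T₁ with hEN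
  set EO : ℕ → RIB.Lt n → Finset (Fin m → List (RIB.Lt n)) := fun s x =>
    Ω.filter fun W => ¬ 180 * T₁ ≤
      cnt (400 * T₁ - s) (fun e i => (W e).getD (16 + s + 2 * i) d = x) with hEO
  set EC : ℕ → Finset (RIB.Lt n) → Finset (RIB.Lt n) → Finset (Fin m → List (RIB.Lt n)) :=
    fun s M' M => Ω.filter fun W =>
      ¬ cnt (400 * T₁) (fun e i => linv ((W e).getD (15 + s + 2 * i) d) ∈ M ∧
          (W e).getD (15 + s + 2 * i + 1) d ∈ M') ≤ 160 * T₁ * M'.card with hEC
  have hcard : (Finset.univ : Finset (RIB.Lt n)).card = 2 * n := by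
    simp [RIB.Lt, Fintype.card_prod, mul_comm]
  have hsub : (Ω.filter fun W => ¬ Good T₁ d W) ⊆
      (((Finset.range 2).biUnion fun s => Finset.univ.biUnion fun b => Finset.univ.biUnion fun c =>
        EN s b c) ∪
      ((Finset.range 2).biUnion fun s => Finset.univ.biUnion fun x => EO s x)) ∪
      ((Finset.range 2).biUnion fun s =>
        ((Finset.univ : Finset (Finset (RIB.Lt n))).filter Finset.Nonempty).biUnion fun M' =>
          (M'.powerset.filter (fun M => M.card ≤ n)).biUnion fun M => EC s M' M) := by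
    intro W hW
    rw [Finset.mem_filter] at hW
    obtain ⟨hW, hG⟩ := hW
    by_contra hnot
    rw [Finset.mem_union, Finset.mem_union, not_or, not_or] at hnot
    obtain ⟨⟨hN, hO⟩, hC⟩ := hnot
    apply hG
    refine ⟨?_, ?_, ?_⟩
    · intro s hs b c
      by_contra hh
      apply hN
      rw [Finset.mem_biUnion]
      refine ⟨s, Finset.mem_range.2 hs, ?_⟩
      rw [Finset.mem_biUnion]
      refine ⟨b, Finset.mem_univ _, ?_⟩
      rw [Finset.mem_biUnion]
      refine ⟨c, Finset.mem_univ _, ?_⟩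
      exact Finset.mem_filter.2 ⟨hW, hh⟩
    · intro s hs x
      by_contra hh
      apply hO
      rw [Finset.mem_biUnion]
      refine ⟨s, Finset.mem_range.2 hs, ?_⟩
      rw [Finset.mem_biUnion]
      refine ⟨x, Finset.mem_univ _, ?_⟩
      exact Finset.mem_filter.2 ⟨hW, hh⟩
    · intro s hs M M' hMM' hMn hM'
      by_contra hh
      apply hC
      rw [Finset.mem_biUnion]
      refine ⟨s, Finset.mem_range.2 hs, ?_⟩
      rw [Finset.mem_biUnion]
      refine ⟨M', Finset.mem_filter.2 ⟨Finset.mem_univ _, hM'⟩, ?_⟩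
      rw [Finset.mem_biUnion]
      refine ⟨M, Finset.mem_filter.2 ⟨Finset.mem_powerset.2 hMM', hMn⟩, ?_⟩
      exact Finset.mem_filter.2 ⟨hW, hh⟩
  have hle : (Ω.filter fun W => ¬ Good T₁ d W).card ≤
      (∑ s ∈ Finset.range 2, ∑ b, ∑ c, (EN s b c).card) +
      (∑ s ∈ Finset.range 2, ∑ x, (EO s x).card) +
      ∑ s ∈ Finset.range 2,
        ∑ M' ∈ (Finset.univ : Finset (Finset (RIB.Lt n))).filter Finset.Nonempty,
          ∑ M ∈ M'.powerset.filter (fun M => M.card ≤ n), (EC s M' M).card := by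
    refine (Finset.card_le_card hsub).trans ((Finset.card_union_le _ _).trans ?_)
    refine Nat.add_le_add ((Finset.card_union_le _ _).trans (Nat.add_le_add ?_ ?_)) ?_
    · refine Finset.card_biUnion_le.trans (Finset.sum_le_sum fun s _ => ?_)
      refine Finset.card_biUnion_le.trans (Finset.sum_le_sum fun b _ => ?_)
      exact Finset.card_biUnion_le
    · refine Finset.card_biUnion_le.trans (Finset.sum_le_sum fun s _ => ?_)
      exact Finset.card_biUnion_le
    · refine Finset.card_biUnion_le.trans (Finset.sum_le_sum fun s _ => ?_)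
      refine Finset.card_biUnion_le.trans (Finset.sum_le_sum fun b _ => ?_)
      exact Finset.card_biUnion_le
  have hle' : ((Ω.filter fun W => ¬ Good T₁ d W).card : ℝ) ≤
      (∑ s ∈ Finset.range 2, ∑ b, ∑ c, ((EN s b c).card : ℝ)) +
      (∑ s ∈ Finset.range 2, ∑ x, ((EO s x).card : ℝ)) +
      ∑ s ∈ Finset.range 2,
        ∑ M' ∈ (Finset.univ : Finset (Finset (RIB.Lt n))).filter Finset.Nonempty,
          ∑ M ∈ M'.powerset.filter (fun M => M.card ≤ n), ((EC s M' M).card : ℝ) := by
    exact_mod_cast hle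
  have hNs : (∑ s ∈ Finset.range 2, ∑ b, ∑ c, ((EN s b c).card : ℝ)) ≤
      8 * (n : ℝ) ^ 2 * Real.exp (-(2 / 5 * T₁)) * Ω.card := by
    calc (∑ s ∈ Finset.range 2, ∑ b, ∑ c, ((EN s b c).card : ℝ))
        ≤ ∑ s ∈ Finset.range 2, ∑ _b : RIB.Lt n, ∑ _c : RIB.Lt n,
            Real.exp (-(2 / 5 * T₁)) * Ω.card := by
          refine Finset.sum_le_sum fun s hs => Finset.sum_le_sum fun b _ =>
            Finset.sum_le_sum fun c _ => ?_
          exact tail_N hn hm hT hl d (Finset.mem_range.1 hs) b c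
      _ = 8 * (n : ℝ) ^ 2 * Real.exp (-(2 / 5 * T₁)) * Ω.card := by
          simp only [Finset.sum_const, hcard, Finset.card_range, nsmul_eq_mul]
          push_cast
          ring
  have hOs : (∑ s ∈ Finset.range 2, ∑ x, ((EO s x).card : ℝ)) ≤
      4 * (n : ℝ) * Real.exp (-(2 / 5 * T₁)) * Ω.card := by
    calc (∑ s ∈ Finset.range 2, ∑ x, ((EO s x).card : ℝ))
        ≤ ∑ s ∈ Finset.range 2, ∑ _x : RIB.Lt n, Real.exp (-(2 / 5 * T₁)) * Ω.card := by
          refine Finset.sum_le_sum fun s hs => Finset.sum_le_sum fun x _ => ?_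
          exact tail_O hn hm hT hl d (Finset.mem_range.1 hs) x
      _ = 4 * (n : ℝ) * Real.exp (-(2 / 5 * T₁)) * Ω.card := by
          simp only [Finset.sum_const, hcard, Finset.card_range, nsmul_eq_mul]
          push_cast
          ring
  have hCs : (∑ s ∈ Finset.range 2,
        ∑ M' ∈ (Finset.univ : Finset (Finset (RIB.Lt n))).filter Finset.Nonempty,
          ∑ M ∈ M'.powerset.filter (fun M => M.card ≤ n), ((EC s M' M).card : ℝ)) ≤
      2 * ((1 + 2 * Real.exp (-(10 * T₁))) ^ (2 * n) - 1) * Ω.card := by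
    have h1 : ∀ s ∈ Finset.range 2,
        (∑ M' ∈ (Finset.univ : Finset (Finset (RIB.Lt n))).filter Finset.Nonempty,
          ∑ M ∈ M'.powerset.filter (fun M => M.card ≤ n), ((EC s M' M).card : ℝ)) ≤
        ((1 + 2 * Real.exp (-(10 * T₁))) ^ (2 * n) - 1) * Ω.card := by
      intro s hs
      calc (∑ M' ∈ (Finset.univ : Finset (Finset (RIB.Lt n))).filter Finset.Nonempty,
          ∑ M ∈ M'.powerset.filter (fun M => M.card ≤ n), ((EC s M' M).card : ℝ))
          ≤ ∑ M' ∈ (Finset.univ : Finset (Finset (RIB.Lt n))).filter Finset.Nonempty,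
            ∑ _M ∈ M'.powerset.filter (fun M => M.card ≤ n),
              Real.exp (-(10 * T₁)) ^ M'.card * Ω.card := by
            refine Finset.sum_le_sum fun M' _ => Finset.sum_le_sum fun M hM => ?_
            exact tail_C (by omega) hm hl d (Finset.mem_range.1 hs) M M' (Finset.mem_filter.1 hM).2
        _ = (∑ M' ∈ (Finset.univ : Finset (Finset (RIB.Lt n))).filter Finset.Nonempty,
            ∑ _M ∈ M'.powerset.filter (fun M => M.card ≤ n),
              Real.exp (-(10 * T₁)) ^ M'.card) * Ω.card := by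
            rw [Finset.sum_mul]
            exact Finset.sum_congr rfl fun M' _ => by rw [Finset.sum_mul]
        _ ≤ ((1 + 2 * Real.exp (-(10 * T₁))) ^ (2 * n) - 1) * Ω.card :=
            mul_le_mul_of_nonneg_right (union_sum (Real.exp_pos _).le) (Nat.cast_nonneg _)
    calc _ ≤ ∑ _s ∈ Finset.range 2, ((1 + 2 * Real.exp (-(10 * T₁))) ^ (2 * n) - 1) * Ω.card :=
          Finset.sum_le_sum h1
      _ = 2 * ((1 + 2 * Real.exp (-(10 * T₁))) ^ (2 * n) - 1) * Ω.card := by
          rw [Finset.sum_const, Finset.card_range, nsmul_eq_mul]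
          push_cast
          ring
  calc ((Ω.filter fun W => ¬ Good T₁ d W).card : ℝ)
      ≤ 8 * (n : ℝ) ^ 2 * Real.exp (-(2 / 5 * T₁)) * Ω.card +
        4 * (n : ℝ) * Real.exp (-(2 / 5 * T₁)) * Ω.card +
        2 * ((1 + 2 * Real.exp (-(10 * T₁))) ^ (2 * n) - 1) * Ω.card :=
        hle'.trans (add_le_add (add_le_add hNs hOs) hCs)
    _ = _ := by ring

end Pool.Agent.RibS
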