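import Pool.Agent.Lib.RIB.RMain
import Pool.Agent.Lib.RibS.LiWords
import Pool.Agent.Lib.RibS.Marg
import Pool.Agent.Lib.RibS.Num
import Pool.Agent.Lib.RibS.Union
import Pool.Agent.Lib.RibS.GoodStat
import Pool.Agent.Lib.RibS.Sub

/-!
# Random ribbon disc groups, second version : the theorem for lists

(helper74, problem MP_cf50d6_gt; paper MP_cf50d6_gt_rib50b.md, Theorem E)
-/

set_option autoImplicit false

open scoped Classical

namespace Pool.Agent.RibS

open Pool.Agent.LIA Pool.Agent.RibLI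

theorem p2_sub {n m m' L : ℕ} {W : Fin m' → List (RIB.Lt n)} (h : RIB.P2 L W) (g : Fin m → Fin m')
    (hg : Function.Injective g) : RIB.P2 L fun e => W (g e) :=
  ⟨fun e e' t t' h1 h2 h3 => ⟨hg (h.1 (g e) (g e') t t' h1 h2 h3).1,
    (h.1 (g e) (g e') t t' h1 h2 h3).2⟩, fun e e' t t' h1 h2 => h.2 (g e) (g e') t t' h1 h2⟩

theorem top_filter {α : Type*} (s : Finset α) (P : α → Prop) (i₁ i₂ : DecidablePred P) :
    ((@Finset.filter α P i₁ s).card : ℝ) = (@Finset.filter α P i₂ s).card := by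
  have h : i₁ = i₂ := Subsingleton.elim _ _
  rw [h]

theorem main_log (ε : ℝ) (hε : 0 < ε) : ∃ C : ℝ, 0 < C ∧ ∀ n m l : ℕ, 2 ≤ n → m + 1 ≤ n →
    C * (1 + Real.log n) ≤ l → ∀ i j : Fin m → Fin n,
      (((Fintype.piFinset fun _ : Fin m => RIB.RW n l).filter fun W =>
        ¬ LocallyIndicable (RIB.Grp i j fun e => FreeGroup.mk (W e))).card : ℝ) ≤
        ε * (Fintype.piFinset fun _ : Fin m => RIB.RW n l).card := by
  obtain ⟨l₀, h0⟩ := RIB.main_list ε hε
  obtain ⟨C, hC, h1⟩ := exists_const ε hε l₀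
  refine ⟨C, hC, fun n m l hn hmn hl i j => ?_⟩
  obtain ⟨hl0, h2 | ⟨T₁, hn5, hT, hlT, e1, e2⟩⟩ := h1 n l hn hl
  · exact h0 l hl0 n m hn hmn h2 i j
  obtain ⟨r, hr⟩ : ∃ r, m + r + 1 = n := ⟨n - 1 - m, by omega⟩
  let d : RIB.Lt n := (⟨0, by omega⟩, true)
  have hne : (RIB.RW n l).Nonempty := by
    rw [← Finset.card_pos]
    exact RIB.card_RW_pos (by omega)
  refine le_trans (le_of_eq (top_filter _ _ _ _)) (card_marg (r := r) (RIB.RW n l) hne ε
    (fun W => ¬ LocallyIndicable (RIB.Grp i j fun e => FreeGroup.mk (W e)))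
    (fun W => ¬ Good T₁ d W ∨ ¬ RIB.P2 15 W) ?_ ?_)
  · intro W hW hbad
    by_contra hno
    push Not at hno
    apply hbad
    have hW' : ∀ e, W (Fin.castAdd r e) ∈ RIB.RW n l := fun e =>
      Fintype.mem_piFinset.1 hW _
    have st := stat_sub (stat_of_good hr hno.1) (Fin.castAdd (n := m) r)
      (Fin.castAdd_injective m r)
    exact li_words i j d hT hlT _ hW' (p2_sub hno.2 _ (Fin.castAdd_injective m r)) st
  · have c1 := card_not_good (m := m + r) (l := l) hn5 hr hT hlT d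
    have c2 := RIB.card_not_P2 (n := n) (m := m + r) (l := l) (L := 15) (by omega) (by norm_num)
    have hq : (0 : ℝ) < ((2 * n - 1 : ℕ) : ℝ) ^ 15 := by
      have : (0 : ℝ) < ((2 * n - 1 : ℕ) : ℝ) := by exact_mod_cast (by omega : 0 < 2 * n - 1)
      positivity
    have e2' : 2 * (((m + r : ℕ) : ℝ) * l) ^ 2 / ((2 * n - 1 : ℕ) : ℝ) ^ 15 ≤ ε / 2 := by
      refine le_trans ?_ e2
      rw [div_le_div_iff_of_pos_right hq]
      have h3 : ((m + r : ℕ) : ℝ) ≤ (n : ℝ) := by exact_mod_cast (by omega : m + r ≤ n)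
      have h4 : ((m + r : ℕ) : ℝ) * l ≤ (n : ℝ) * l := mul_le_mul_of_nonneg_right h3 (Nat.cast_nonneg _)
      have h5 : (((m + r : ℕ) : ℝ) * l) ^ 2 ≤ ((n : ℝ) * l) ^ 2 :=
        pow_le_pow_left₀ (by positivity) h4 2
      linarith
    set A := Fintype.piFinset fun _ : Fin (m + r) => RIB.RW n l with hA
    have hA0 : (0 : ℝ) ≤ (A.card : ℝ) := Nat.cast_nonneg _
    have h6 : ((A.filter fun W => ¬ Good T₁ d W ∨ ¬ RIB.P2 15 W).card : ℝ) ≤
        ((A.filter fun W => ¬ Good T₁ d W).card : ℝ) +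
          ((A.filter fun W => ¬ RIB.P2 15 W).card : ℝ) := by
      rw [Finset.filter_or]
      exact_mod_cast Finset.card_union_le _ _
    have h7 := mul_le_mul_of_nonneg_right e1 hA0
    have h8 := mul_le_mul_of_nonneg_right e2' hA0
    refine le_trans (le_of_eq (top_filter _ _ _ _)) (h6.trans ?_)
    linarith

end Pool.Agent.RibS
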