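import Pool.Agent.Lib.RIB.RFin
import Pool.Agent.Lib.RibS.Top

/-!
# Random ribbon disc groups, second version : the theorem for tuples of elements of the free group

(helper74, problem MP_cf50d6_gt; paper MP_cf50d6_gt_rib50b.md, Theorem E)
-/

set_option autoImplicit false

open scoped Classical

namespace Pool.Agent.RibS

open Pool.Agent.LIA

theorem main_log_free (ε : ℝ) (hε : 0 < ε) : ∃ C : ℝ, 0 < C ∧ ∀ n m l : ℕ, 2 ≤ n → m + 1 ≤ n →
    C * (1 + Real.log n) ≤ l → ∀ i j : Fin m → Fin n,
      (Nat.card {W : Fin m → FreeGroup (Fin n) // (∀ e, (W e).norm = l) ∧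
        ¬ LocallyIndicable (RIB.Grp i j W)} : ℝ) ≤
        ε * Nat.card {W : Fin m → FreeGroup (Fin n) // ∀ e, (W e).norm = l} := by
  obtain ⟨C, hC, h0⟩ := main_log ε hε
  refine ⟨C, hC, fun n m l hn hmn hl i j => ?_⟩
  have h1 := h0 n m l hn hmn hl i j
  have h2 : Nat.card {W : Fin m → FreeGroup (Fin n) // ∀ e, (W e).norm = l} =
      (Fintype.piFinset fun _ : Fin m => RIB.RW n l).card := by
    have h3 := RIB.nat_card_eq (m := m) (n := n) (l := l) (fun _ => True)
    simp only [and_true, Finset.filter_true] at h3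
    exact h3
  have h4 := RIB.nat_card_eq (l := l)
    (fun W : Fin m → FreeGroup (Fin n) => ¬ LocallyIndicable (RIB.Grp i j W))
  rw [h2, h4]
  exact le_trans (le_of_eq (top_filter _ _ _ _)) h1

end Pool.Agent.RibS
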